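import Pool.Agent.L0h36.TR.Defs

/-! Module statements (as Props) for the tree-like resolution project. -/

set_option autoImplicit false

namespace Pool.Agent.L0h36.TR

open Finset Classical

/-- M2a: T is the largest relevant tight set avoiding p -/
def S_T : Prop := ∀ (b N : ℕ) (P : Prm) (L : Lists b N) (rho : St b N) (p : Fin (N + 1)),
  P.Good b N → Inv P L rho → PRnow P L rho → ¬ Late P rho →
  Tight P L rho (T P L rho p) ∧ p ∉ T P L rho p ∧
    ∀ Z, Tight P L rho Z → p ∉ Z → Z ⊆ T P L rho p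

/-- M2b: gap property -/
def S_gap : Prop := ∀ (b N : ℕ) (P : Prm) (L : Lists b N) (rho : St b N)
    (Z : Finset (Fin (N + 1))),
  P.Good b N → Inv P L rho → PRnow P L rho → ¬ Late P rho →
  Z ⊆ U rho → (Z ∩ A rho (lev P rho)).card ≤ 2 * P.z (lev P rho) + 1 →
  (Gam L rho Z).card ≤ Z.card → Rel P rho Z

/-- M2c: extended Hall condition -/
def S_EH : Prop := ∀ (b N : ℕ) (P : Prm) (L : Lists b N) (rho : St b N)
    (Z : Finset (Fin (N + 1))),
  P.Good b N → Inv P L rho → PRnow P L rho → ¬ Late P rho →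
  Z ⊆ U rho → (Z ∩ A rho (lev P rho)).card ≤ 2 * P.z (lev P rho) + 1 →
  Z.card ≤ (Gam L rho Z).card

/-- M2d: there is always an allowed point -/
def S_choice : Prop := ∀ (b N : ℕ) (P : Prm) (L : Lists b N) (rho : St b N) (p : Fin (N + 1)),
  P.Good b N → Inv P L rho → PRnow P L rho → ¬ Late P rho → 1 ≤ dm (rho p) →
  ∃ y ∈ pts (rho p), L p y ∉ H L rho ∧ L p y ∉ Gam L rho (T P L rho p)

/-- M2e: number of holes taken: `|H| + |U| = N + 1` -/
def S_Hcard : Prop := ∀ (b N : ℕ) (P : Prm) (L : Lists b N) (rho : St b N),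
  Inv P L rho → (H L rho).card + (U rho).card = N + 1

/-- M2f: the invariant is preserved -/
def S_step : Prop := ∀ (b N : ℕ) (P : Prm) (L : Lists b N) (rho : St b N) (m : Mv b N),
  P.Good b N → Inv P L rho → PRnow P L rho → ¬ Late P rho → Legal P L rho m →
  PRnow P L (app rho m) → ¬ Late P (app rho m) → Inv P L (app rho m)

/-- M2g: the invariant holds initially -/
def S_init : Prop := ∀ (b N : ℕ) (P : Prm) (L : Lists b N) (y0 y1 : Cube b),
  P.Good b N → 2 ≤ N → HomesOK L y0 y1 → Inv P L (fun _ => bot) ∧ ¬ Late (b := b) (N := N) P (fun _ => bot)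

/-- M2h: the invariant holds along runs -/
def S_inv_all : Prop := ∀ (b N : ℕ) (P : Prm) (L : Lists b N) (mv : ℕ → Mv b N) (tau : ℕ),
  P.Good b N → Inv P L (st mv 0) → LRun P L mv tau → PRcum P L mv tau →
  ∀ t, t ≤ tau → ¬ Late P (st mv t) → Inv P L (st mv t)

/-- the complement set of a tight set -/
noncomputable def Cm {b N : ℕ} (L : Lists b N) (rho : St b N) (Z : Finset (Fin (N + 1))) :
    Finset (Fin N) := univ \ (H L rho ∪ Gam L rho Z)

/-- M3a: persistence of tightness -/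
def S_persist : Prop := ∀ (b N : ℕ) (P : Prm) (L : Lists b N) (mv : ℕ → Mv b N) (tau : ℕ),
  P.Good b N → LRun P L mv tau → (∀ t, t < tau → Inv P L (st mv t)) → PRcum P L mv tau →
  ∀ (t0 t1 : ℕ) (Z : Finset (Fin (N + 1))), t0 ≤ t1 → t1 < tau → Tight P L (st mv t0) Z →
    (∀ t, t0 ≤ t → t ≤ t1 → Rel P (st mv t) (Z ∩ U (st mv t))) →
    Tight P L (st mv t1) (Z ∩ U (st mv t1)) ∧
      Cm L (st mv t1) (Z ∩ U (st mv t1)) ⊆ Cm L (st mv t0) Z

/-- M3: number of commits at `d ≥ s0` unset bits -/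
def S_count : Prop := ∀ (b N : ℕ) (P : Prm) (L : Lists b N) (mv : ℕ → Mv b N) (tau : ℕ),
  P.Good b N → LRun P L mv tau → (∀ t, t < tau → Inv P L (st mv t)) → PRcum P L mv tau →
  ∀ d, P.s0 ≤ d → d ≤ b → ((range tau).filter (fun t => ComAt mv d t)).card ≤ P.Nd b d

/-- type II commits at times with level at least `d` -/
def S_typeII_hi : Prop := ∀ (b N : ℕ) (P : Prm) (L : Lists b N) (mv : ℕ → Mv b N) (tau : ℕ),
  P.Good b N → LRun P L mv tau → (∀ t, t < tau → Inv P L (st mv t)) → PRcum P L mv tau →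
  ∀ d, P.s0 ≤ d → d ≤ b →
    ((range tau).filter (fun t => d ≤ lev P (st mv t) ∧
      ∃ p y, mv t = Mv.com p y ∧ dm (st mv t p) = d ∧
        P.kap d ≤ (Cm L (st mv t) (T P L (st mv t) p)).card)).card ≤ 4 * P.z d

/-- type II commits at times with level exactly `s`, `s < d` -/
def S_typeII_lo : Prop := ∀ (b N : ℕ) (P : Prm) (L : Lists b N) (mv : ℕ → Mv b N) (tau : ℕ),
  P.Good b N → LRun P L mv tau → (∀ t, t < tau → Inv P L (st mv t)) → PRcum P L mv tau →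
  ∀ d, P.s0 ≤ d → d ≤ b → ∀ s, s < d →
    ((range tau).filter (fun t => lev P (st mv t) = s ∧ ComAt mv d t)).card ≤ 4 * P.z d

/-- type I commits (necessarily at times with level larger than `d`) -/
def S_typeI : Prop := ∀ (b N : ℕ) (P : Prm) (L : Lists b N) (mv : ℕ → Mv b N) (tau : ℕ),
  P.Good b N → LRun P L mv tau → (∀ t, t < tau → Inv P L (st mv t)) → PRcum P L mv tau →
  ∀ d, P.s0 ≤ d → d ≤ b →
    ((range tau).filter (fun t => 
      ∃ p y, mv t = Mv.com p y ∧ dm (st mv t p) = d ∧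
        (Cm L (st mv t) (T P L (st mv t) p)).card < P.kap d)).card ≤
      (∑ s ∈ Icc (d + 1) b, P.kap s) + 4 * P.kap d + P.z d

/-- M4: accounting -/
def S_account : Prop := ∀ (b N : ℕ) (P : Prm) (L : Lists b N) (mv : ℕ → Mv b N) (tau : ℕ),
  P.Good b N → LRun P L mv tau →
  (∀ d, P.s0 ≤ d → d ≤ b → ((range tau).filter (fun t => ComAt mv d t)).card ≤ P.Nd b d) →
  Late P (st mv tau) → b * (N + 1) ≤ nfair mv tau + P.K b N

/-- M5a -/
def S_bad_nonneg : Prop := ∀ (b N : ℕ) (P : Prm) (L : Lists b N) (mv : ℕ → Mv b N) (tau : ℕ),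
  0 ≤ Bad P L mv tau

/-- M5b -/
def S_bad_PR : Prop := ∀ (b N : ℕ) (P : Prm) (L : Lists b N) (mv : ℕ → Mv b N) (tau : ℕ),
  2 ≤ P.s0 → Bad P L mv tau < 1 → PRcum P L mv tau

/-- M5c: fair moves (the two answers) -/
def S_bad_fair : Prop := ∀ (b N : ℕ) (P : Prm) (L : Lists b N) (mv : ℕ → Mv b N) (tau : ℕ)
    (p : Fin (N + 1)) (j : Fin b),
  2 ≤ P.s0 → st mv tau p j = none → 2 ≤ dm (st mv tau p) →
  Bad P L (Function.update mv tau (Mv.fair p j false)) (tau + 1) +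
    Bad P L (Function.update mv tau (Mv.fair p j true)) (tau + 1) ≤ 2 * Bad P L mv tau

/-- M5d: commits -/
def S_bad_com : Prop := ∀ (b N : ℕ) (P : Prm) (L : Lists b N) (mv : ℕ → Mv b N) (tau : ℕ)
    (p : Fin (N + 1)) (y : Cube b),
  2 ≤ P.s0 → 1 ≤ dm (st mv tau p) →
  Bad P L (Function.update mv tau (Mv.com p y)) (tau + 1) ≤ Bad P L mv tau

/-- relaxed badness of a cell for a single random list `R`: some half has at most two points
going to `X` -/
def bad2 {b N : ℕ} (R : Cube b → Fin N) (d : ℕ) (X : Finset (Fin N)) (r : Cell b) : Prop :=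
  d ≤ dm r ∧ ∃ j v, r j = none ∧ ((pts (setBit r j v)).filter (fun y => R y ∈ X)).card ≤ 2

/-- M6: the exponential moment bound -/
def S_mgf : Prop := ∀ (b N d : ℕ) (X : Finset (Fin N)), 200 ≤ d → d ≤ b → 1 ≤ N →
  N ≤ 2 ^ (d / 4) * X.card →
  (2 : ℝ) ^ (2 ^ (d / 4)) * ∑ R : Cube b → Fin N, V (bad2 R d X) bot ≤
    (Fintype.card (Cube b → Fin N) : ℝ)

/-- M7: existence of good lists -/
def S_exist : Prop := ∀ b : ℕ, 200 ≤ b → ∃ N0 : ℕ, ∀ N, N0 ≤ N →
  ∃ (L : Lists b N) (y0 y1 : Cube b), HomesOK L y0 y1 ∧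
    ∀ mv : ℕ → Mv b N, Bad (prm N) L mv 0 ≤ 1 / 2

/-- M9: numerics -/
def S_num : Prop := ∀ b : ℕ, 200 ≤ b → ∃ N0 : ℕ, ∀ N, N0 ≤ N →
  (prm N).Good b N ∧ (prm N).K b N ≤ 210 * N

/-- tree-like refutation sizes, as in the frozen statement -/
def TreeSize {n : ℕ} (F : Finset (Finset (Fin n × Bool))) (s : ℕ) : Prop :=
  ∀ Q : Finset (Fin n × Bool) → ℕ → Prop,
    (∀ C ∈ F, Q C 1) →
    (∀ (C D : Finset (Fin n × Bool)) (x : Fin n) (a b : ℕ),
      Q C a → Q D b → (x, true) ∈ C → (x, false) ∈ D →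
      Q (C.erase (x, true) ∪ D.erase (x, false)) (a + b + 1)) →
    Q ∅ s

/-- M8: the reduction -/
def S_tree : Prop := ∀ (b N n : ℕ) (P : Prm) (L : Lists b N),
  P.Good b N → Inv P L (fun _ => bot) → ¬ Late (b := b) (N := N) P (fun _ => bot) →
  (∀ mv : ℕ → Mv b N, Bad P L mv 0 ≤ 1 / 2) → b * (N + 1) ≤ n →
  ∃ F : Finset (Finset (Fin n × Bool)),
    (∀ C ∈ F, C.card ≤ 2 * b) ∧
    (∀ α : Fin n → Bool, ∃ C ∈ F, ∀ l ∈ C, α l.1 ≠ l.2) ∧
    ∀ s : ℕ, TreeSize F s → 2 ^ (b * (N + 1)) ≤ 2 ^ (P.K b N + 1) * s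

/-- the final statement -/
def S_final : Prop :=
    ∃ c : ℝ, 0 < c ∧ ∀ k : ℕ, 1 ≤ k → ∃ N : ℕ, ∀ n : ℕ, N ≤ n →
      ∃ F : Finset (Finset (Fin n × Bool)),
        (∀ C ∈ F, C.card ≤ k) ∧
        (∀ α : Fin n → Bool, ∃ C ∈ F, ∀ l ∈ C, α l.1 ≠ l.2) ∧
        ∀ s : ℕ, TreeSize F s →
          (1 - c / (k : ℝ)) * (n : ℝ) ≤ Real.logb 2 (s : ℝ)

end Pool.Agent.L0h36.TR
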