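import Pool.Agent.L0h36.TR.Cells
import Pool.Agent.L0h36.TR.Stmts

/-! M4: accounting of the unset bits. -/

set_option autoImplicit false

namespace Pool.Agent.L0h36.TR

open Finset Classical

namespace Acc

variable {b N : ℕ}

/-- number of unset bits lost by a commit at time `t` (0 for fair moves) -/
noncomputable def cdm (mv : ℕ → Mv b N) (t : ℕ) : ℕ :=
  match mv t with
  | Mv.fair _ _ _ => 0
  | Mv.com p _ => dm (st mv t p)

/-- indicator of commits -/
noncomputable def ci (mv : ℕ → Mv b N) (t : ℕ) : ℕ :=
  match mv t with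
  | Mv.fair _ _ _ => 0
  | Mv.com _ _ => 1

theorem sum_update (rho : St b N) (p : Fin (N + 1)) (r : Cell b) (f : Cell b → ℕ) :
    (∑ i, f (Function.update rho p r i)) + f (rho p) = (∑ i, f (rho i)) + f r := by
  have h1 : (∑ i, f (Function.update rho p r i)) =
      f r + ∑ i ∈ univ.erase p, f (rho i) := by
    rw [← Finset.add_sum_erase _ _ (mem_univ p), Function.update_self]
    congr 1
    exact Finset.sum_congr rfl fun i hi => by rw [Function.update_of_ne (ne_of_mem_erase hi)]
  have h2 : (∑ i, f (rho i)) = f (rho p) + ∑ i ∈ univ.erase p, f (rho i) :=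
    (Finset.add_sum_erase _ _ (mem_univ p)).symm
  omega

theorem nfair_succ (mv : ℕ → Mv b N) (t : ℕ) :
    nfair mv (t + 1) = nfair mv t + (if isFair (mv t) then 1 else 0) := by
  unfold nfair
  rw [Finset.range_add_one, Finset.filter_insert]
  split_ifs with h
  · rw [Finset.card_insert_of_notMem (by simp)]
  · rfl

theorem total (P : Prm) (L : Lists b N) (mv : ℕ → Mv b N) (tau : ℕ) (hr : LRun P L mv tau) :
    (∑ i, dm (st mv tau i)) + nfair mv tau + ∑ t ∈ range tau, cdm mv t = b * (N + 1) := by
  induction tau with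
  | zero =>
    simp [st, dm_bot, nfair, mul_comm]
  | succ t ih =>
    have ih' := ih (fun s hs => hr s (by omega))
    have hl := (hr t (by omega)).2
    rw [Finset.sum_range_succ, nfair_succ]
    have e1 : st mv (t + 1) = app (st mv t) (mv t) := rfl
    rw [e1]
    cases hm : mv t with
    | fair p j v =>
      rw [hm] at hl
      have hd := dm_setBit (r := st mv t p) (j := j) v hl.2.1
      have hs := sum_update (st mv t) p (setBit (st mv t p) j v) dm
      have hc : cdm mv t = 0 := by simp [cdm, hm]
      simp only [app, isFair, if_true]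
      rw [hc]
      omega
    | com p y =>
      rw [hm] at hl
      have hs := sum_update (st mv t) p (full y) dm
      rw [dm_full] at hs
      have hc : cdm mv t = dm (st mv t p) := by simp [cdm, hm]
      simp only [app, isFair, if_false]
      rw [hc]
      omega

/-- indicator of active cells -/
noncomputable def ind (r : Cell b) : ℕ := if 1 ≤ dm r then 1 else 0

theorem ind_pos {r : Cell b} (h : 1 ≤ dm r) : ind r = 1 := by simp [ind, h]

theorem ind_zero {r : Cell b} (h : dm r = 0) : ind r = 0 := by simp [ind, h]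

theorem card_U (rho : St b N) : (U rho).card = ∑ i, ind (rho i) := by
  rw [U, A, Finset.card_filter]
  refine Finset.sum_congr rfl fun i _ => ?_
  by_cases h : 1 ≤ dm (rho i)
  · rw [ind_pos h, if_pos h]
  · rw [ind_zero (by omega), if_neg h]

theorem commits (P : Prm) (L : Lists b N) (mv : ℕ → Mv b N) (tau : ℕ) (h2 : 2 ≤ P.s0)
    (hr : LRun P L mv tau) :
    (U (st mv tau)).card + ∑ t ∈ range tau, ci mv t ≤ N + 1 := by
  induction tau with
  | zero =>
    simp only [range_zero, sum_empty, add_zero]
    calc (U (st mv 0)).card ≤ (univ : Finset (Fin (N + 1))).card := card_le_card (subset_univ _)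
      _ = N + 1 := by simp
  | succ t ih =>
    have ih' := ih (fun s hs => hr s (by omega))
    have hl := (hr t (by omega)).2
    rw [Finset.sum_range_succ]
    have e1 : st mv (t + 1) = app (st mv t) (mv t) := rfl
    rw [card_U] at ih' ⊢
    rw [e1]
    cases hm : mv t with
    | fair p j v =>
      rw [hm] at hl
      have hd := dm_setBit (r := st mv t p) (j := j) v hl.2.1
      have hs := sum_update (st mv t) p (setBit (st mv t p) j v) ind
      have hc : ci mv t = 0 := by simp [ci, hm]
      have h3 := hl.1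
      simp only [app]
      rw [ind_pos (by omega), ind_pos (by omega)] at hs
      rw [hc]
      omega
    | com p y =>
      rw [hm] at hl
      have hs := sum_update (st mv t) p (full y) ind
      have hc : ci mv t = 1 := by simp [ci, hm]
      have h3 := hl.1
      simp only [app]
      rw [ind_pos h3, ind_zero (dm_full y)] at hs
      rw [hc]
      omega

/-- the unset bits of a late state -/
theorem late_sum (P : Prm) (rho : St b N) (h1 : 1 ≤ P.s0) (hl : Late P rho) :
    ∑ i, dm (rho i) ≤ (P.s0 - 1) * (U rho).card + ∑ s ∈ Icc P.s0 b, P.al s := by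
  have h3 : ∑ i, dm (rho i) ≤ ∑ i, ((P.s0 - 1) * (if 1 ≤ dm (rho i) then 1 else 0) +
      ∑ s ∈ Icc P.s0 b, (if s ≤ dm (rho i) then 1 else 0)) := by
    refine Finset.sum_le_sum fun i _ => ?_
    rcases Nat.eq_zero_or_pos (dm (rho i)) with h0 | h0
    · omega
    rw [if_pos (by omega), mul_one]
    rcases lt_or_ge (dm (rho i)) P.s0 with h4 | h4
    · omega
    have h5 : ((Icc P.s0 (dm (rho i))).card : ℕ) ≤
        ∑ s ∈ Icc P.s0 b, (if s ≤ dm (rho i) then 1 else 0) := by
      rw [← Finset.card_filter]
      apply card_le_card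
      intro s hs
      rw [mem_Icc] at hs
      rw [mem_filter, mem_Icc]
      exact ⟨⟨hs.1, hs.2.trans (dm_le _)⟩, hs.2⟩
    rw [Nat.card_Icc] at h5
    omega
  rw [Finset.sum_add_distrib, ← Finset.mul_sum, Finset.sum_comm] at h3
  refine h3.trans (Nat.add_le_add ?_ ?_)
  · rw [U, A, Finset.card_filter]
  · refine Finset.sum_le_sum fun s hs => ?_
    rw [mem_Icc] at hs
    have h6 := hl s hs.1 hs.2
    rw [A, Finset.card_filter] at h6
    exact h6.le

theorem commit_sum (P : Prm) (mv : ℕ → Mv b N) (tau : ℕ) (h1 : 1 ≤ P.s0)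
    (hN : ∀ d, P.s0 ≤ d → d ≤ b → ((range tau).filter (fun t => ComAt mv d t)).card ≤ P.Nd b d) :
    ∑ t ∈ range tau, cdm mv t ≤
      (P.s0 - 1) * (∑ t ∈ range tau, ci mv t) + ∑ d ∈ Icc P.s0 b, d * P.Nd b d := by
  have h3 : ∑ t ∈ range tau, cdm mv t ≤ ∑ t ∈ range tau, ((P.s0 - 1) * ci mv t +
      ∑ d ∈ Icc P.s0 b, d * (if ComAt mv d t then 1 else 0)) := by
    refine Finset.sum_le_sum fun t _ => ?_
    cases hm : mv t with
    | fair p j v =>
      have hc : cdm mv t = 0 := by simp [cdm, hm]
      omega
    | com p y =>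
      have hc : cdm mv t = dm (st mv t p) := by simp [cdm, hm]
      have hi : ci mv t = 1 := by simp [ci, hm]
      rw [hc, hi]
      rcases lt_or_ge (dm (st mv t p)) P.s0 with h4 | h4
      · omega
      have hmem : dm (st mv t p) ∈ Icc P.s0 b := by
        rw [mem_Icc]
        exact ⟨h4, dm_le _⟩
      have h5 := Finset.single_le_sum (f := fun d => d * (if ComAt mv d t then 1 else 0))
        (fun d _ => Nat.zero_le _) hmem
      have h6 : ComAt mv (dm (st mv t p)) t := ⟨p, y, hm, rfl⟩
      simp only [if_pos h6, mul_one] at h5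
      omega
  rw [Finset.sum_add_distrib, ← Finset.mul_sum, Finset.sum_comm] at h3
  refine h3.trans (Nat.add_le_add le_rfl ?_)
  refine Finset.sum_le_sum fun d hd => ?_
  rw [mem_Icc] at hd
  rw [← Finset.mul_sum, ← Finset.card_filter]
  exact Nat.mul_le_mul le_rfl (hN d hd.1 hd.2)

end Acc

theorem account : S_account := by
  intro b N P L mv tau hg hr hN hl
  have h2 := hg.s0_two
  have e1 := Acc.total P L mv tau hr
  have e2 := Acc.commits P L mv tau h2 hr
  have e3 := Acc.late_sum P (st mv tau) (by omega) hl
  have e4 := Acc.commit_sum P mv tau (by omega) hN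
  unfold Prm.K
  have e5 := Nat.mul_le_mul (le_refl (P.s0 - 1)) e2
  rw [Nat.mul_add] at e5
  omega

end Pool.Agent.L0h36.TR
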