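import Pool.Agent.L0h36.TR.Defs

/-! Basic lemmas on cells, states and runs. -/

set_option autoImplicit false

namespace Pool.Agent.L0h36.TR

open Finset Classical

section cells
variable {b : ℕ}

theorem dm_bot : dm (bot : Cell b) = b := by
  simp [dm, bot]

theorem dm_full (y : Cube b) : dm (full y) = 0 := by
  simp [dm, full]

theorem dm_le (r : Cell b) : dm r ≤ b := by
  unfold dm
  calc _ ≤ (univ : Finset (Fin b)).card := card_le_card (filter_subset _ _)
    _ = b := by simp

theorem dm_setBit {r : Cell b} {j : Fin b} (v : Bool) (h : r j = none) :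
    dm (setBit r j v) + 1 = dm r := by
  unfold dm
  have : (univ.filter (fun i => setBit r j v i = none)) =
      (univ.filter (fun i => r i = none)).erase j := by
    ext i
    rw [mem_erase, mem_filter, mem_filter]
    by_cases hij : i = j
    · subst hij; simp [setBit]
    · simp [setBit, Function.update_of_ne hij, hij]
  rw [this, card_erase_of_mem (by rw [mem_filter]; exact ⟨mem_univ _, h⟩)]
  have : 0 < (univ.filter (fun i => r i = none)).card :=
    card_pos.mpr ⟨j, by rw [mem_filter]; exact ⟨mem_univ _, h⟩⟩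
  omega

theorem dm_pos_iff {r : Cell b} : 1 ≤ dm r ↔ ∃ j, r j = none := by
  unfold dm
  rw [Nat.succ_le_iff, card_pos]
  constructor
  · rintro ⟨j, hj⟩; exact ⟨j, by simpa using hj⟩
  · rintro ⟨j, hj⟩; exact ⟨j, by simpa using hj⟩

theorem dm_zero {r : Cell b} (h : dm r = 0) : ∃ y, r = full y := by
  have h1 : ∀ j, ∃ v, r j = some v := by
    intro j
    by_contra hc
    have : r j = none := by
      cases hr : r j with
      | none => rfl
      | some v => exact absurd ⟨v, hr⟩ hc
    have := dm_pos_iff.mpr ⟨j, this⟩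
    omega
  choose y hy using h1
  exact ⟨y, funext hy⟩

theorem mem_pts {r : Cell b} {y : Cube b} : y ∈ pts r ↔ ∀ j v, r j = some v → y j = v := by
  simp [pts]

theorem pts_bot : pts (bot : Cell b) = univ := by
  ext y; simp [mem_pts, bot]

theorem pts_full (y : Cube b) : pts (full y) = {y} := by
  ext x
  rw [mem_pts, mem_singleton]
  constructor
  · intro h; funext j; exact h j (y j) rfl
  · rintro rfl j v hv; simpa [full] using hv

theorem mem_pts_setBit {r : Cell b} {j : Fin b} {v : Bool} {y : Cube b} (h : r j = none) :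
    y ∈ pts (setBit r j v) ↔ y ∈ pts r ∧ y j = v := by
  simp only [mem_pts]
  constructor
  · intro hy
    refine ⟨fun i w hi => ?_, hy j v (by simp [setBit])⟩
    have hij : i ≠ j := by rintro rfl; rw [h] at hi; cases hi
    exact hy i w (by simpa [setBit, Function.update_of_ne hij] using hi)
  · rintro ⟨h1, h2⟩ i w hi
    by_cases hij : i = j
    · subst hij; simp [setBit] at hi; rw [h2, hi]
    · exact h1 i w (by simpa [setBit, Function.update_of_ne hij] using hi)

theorem pts_setBit_subset {r : Cell b} {j : Fin b} (v : Bool) (h : r j = none) :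
    pts (setBit r j v) ⊆ pts r := fun _ hy => ((mem_pts_setBit h).mp hy).1

theorem pts_nonempty (r : Cell b) : (pts r).Nonempty :=
  ⟨fun j => (r j).getD false, by
    rw [mem_pts]; intro j v hv; simp [hv]⟩

theorem pts_union {r : Cell b} {j : Fin b} (h : r j = none) :
    pts r = pts (setBit r j false) ∪ pts (setBit r j true) := by
  ext y
  rw [mem_union, mem_pts_setBit h, mem_pts_setBit h]
  cases y j <;> simp

theorem pts_disj {r : Cell b} {j : Fin b} (h : r j = none) :
    Disjoint (pts (setBit r j false)) (pts (setBit r j true)) := by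
  rw [Finset.disjoint_left]
  intro y h1 h2
  rw [mem_pts_setBit h] at h1 h2
  rw [h1.2] at h2
  exact absurd h2.2 (by simp)

theorem pts_card (r : Cell b) : (pts r).card = 2 ^ dm r := by
  induction hn : dm r generalizing r with
  | zero =>
    obtain ⟨y, rfl⟩ := dm_zero hn
    simp [pts_full]
  | succ n ih =>
    obtain ⟨j, hj⟩ := dm_pos_iff.mp (by omega : 1 ≤ dm r)
    have h0 := dm_setBit false hj
    have h1 := dm_setBit true hj
    rw [pts_union hj, card_union_of_disjoint (pts_disj hj), ih _ (by omega), ih _ (by omega)]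
    ring

end cells

section states
variable {b N : ℕ} {L : Lists b N}

theorem opts_mono {i : Fin (N + 1)} {r r' : Cell b} (h : pts r ⊆ pts r') :
    opts L i r ⊆ opts L i r' := image_subset_image h

theorem mem_opts {i : Fin (N + 1)} {r : Cell b} {h : Fin N} :
    h ∈ opts L i r ↔ ∃ y ∈ pts r, L i y = h := by simp [opts]

theorem opts_setBit_subset {i : Fin (N + 1)} {r : Cell b} {j : Fin b} (v : Bool)
    (h : r j = none) : opts L i (setBit r j v) ⊆ opts L i r :=
  opts_mono (pts_setBit_subset v h)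

theorem opts_full (i : Fin (N + 1)) (y : Cube b) : opts L i (full y) = {L i y} := by
  simp [opts, pts_full]

theorem opts_card_of_dm_zero (i : Fin (N + 1)) {r : Cell b} (h : dm r = 0) :
    (opts L i r).card = 1 := by
  obtain ⟨y, rfl⟩ := dm_zero h
  simp [opts_full]

theorem opts_nonempty (i : Fin (N + 1)) (r : Cell b) : (opts L i r).Nonempty :=
  (pts_nonempty r).image _

variable {rho : St b N}

theorem mem_A {s : ℕ} {i : Fin (N + 1)} : i ∈ A rho s ↔ s ≤ dm (rho i) := by simp [A]

theorem mem_U {i : Fin (N + 1)} : i ∈ U rho ↔ 1 ≤ dm (rho i) := by simp [U, A]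

theorem A_subset_U {s : ℕ} (hs : 1 ≤ s) : A rho s ⊆ U rho := by
  intro i hi; rw [mem_A] at hi; rw [mem_U]; omega

theorem A_anti {s s' : ℕ} (h : s ≤ s') : A rho s' ⊆ A rho s := by
  intro i hi; rw [mem_A] at *; omega

theorem mem_H {h : Fin N} : h ∈ H L rho ↔ ∃ i, dm (rho i) = 0 ∧ h ∈ opts L i (rho i) := by
  simp only [H, mem_biUnion, mem_sdiff, mem_univ, true_and, mem_U]
  constructor
  · rintro ⟨i, h1, h2⟩; exact ⟨i, by omega, h2⟩
  · rintro ⟨i, h1, h2⟩; exact ⟨i, by omega, h2⟩

theorem mem_Gam {Z : Finset (Fin (N + 1))} {h : Fin N} :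
    h ∈ Gam L rho Z ↔ (∃ i ∈ Z, h ∈ opts L i (rho i)) ∧ h ∉ H L rho := by
  simp [Gam]

theorem Gam_mono {Z Z' : Finset (Fin (N + 1))} (h : Z ⊆ Z') : Gam L rho Z ⊆ Gam L rho Z' := by
  intro x hx
  rw [mem_Gam] at *
  obtain ⟨⟨i, hi, h2⟩, h3⟩ := hx
  exact ⟨⟨i, h hi, h2⟩, h3⟩

theorem Gam_union (Z Z' : Finset (Fin (N + 1))) :
    Gam L rho (Z ∪ Z') = Gam L rho Z ∪ Gam L rho Z' := by
  ext x
  simp only [mem_Gam, mem_union]
  constructor
  · rintro ⟨⟨i, hi | hi, h2⟩, h3⟩
    · exact Or.inl ⟨⟨i, hi, h2⟩, h3⟩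
    · exact Or.inr ⟨⟨i, hi, h2⟩, h3⟩
  · rintro (⟨⟨i, hi, h2⟩, h3⟩ | ⟨⟨i, hi, h2⟩, h3⟩)
    · exact ⟨⟨i, Or.inl hi, h2⟩, h3⟩
    · exact ⟨⟨i, Or.inr hi, h2⟩, h3⟩

theorem disjoint_H_Gam (Z : Finset (Fin (N + 1))) : Disjoint (H L rho) (Gam L rho Z) := by
  rw [Finset.disjoint_left]
  intro x h1 h2
  exact (mem_Gam.mp h2).2 h1

theorem lev_le (P : Prm) : lev P rho ≤ b := Nat.findGreatest_le _

theorem lev_spec {P : Prm} (h : ¬ Late P rho) :
    P.s0 ≤ lev P rho ∧ P.al (lev P rho) ≤ (A rho (lev P rho)).card := by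
  unfold Late at h
  push Not at h
  obtain ⟨s, h1, h2, h3⟩ := h
  exact Nat.findGreatest_spec (P := fun s => P.s0 ≤ s ∧ P.al s ≤ (A rho s).card) h2 ⟨h1, h3⟩

theorem le_lev {P : Prm} {s : ℕ} (hs : s ≤ b) (h1 : P.s0 ≤ s) (h2 : P.al s ≤ (A rho s).card) :
    s ≤ lev P rho :=
  Nat.le_findGreatest hs ⟨h1, h2⟩

theorem app_fair_self (p : Fin (N + 1)) (j : Fin b) (v : Bool) :
    app rho (Mv.fair p j v) p = setBit (rho p) j v := by simp [app]

theorem app_fair_ne {p i : Fin (N + 1)} (j : Fin b) (v : Bool) (h : i ≠ p) :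
    app rho (Mv.fair p j v) i = rho i := by simp [app, Function.update_of_ne h]

theorem app_com_self (p : Fin (N + 1)) (y : Cube b) :
    app rho (Mv.com p y) p = full y := by simp [app]

theorem app_com_ne {p i : Fin (N + 1)} (y : Cube b) (h : i ≠ p) :
    app rho (Mv.com p y) i = rho i := by simp [app, Function.update_of_ne h]

/-- cells only shrink along legal moves -/
theorem app_pts_subset {P : Prm} {m : Mv b N} (h : Legal P L rho m) (i : Fin (N + 1)) :
    pts (app rho m i) ⊆ pts (rho i) := by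
  cases m with
  | fair p j v =>
    by_cases hi : i = p
    · subst hi; rw [app_fair_self]; exact pts_setBit_subset v h.2.1
    · rw [app_fair_ne j v hi]
  | com p y =>
    by_cases hi : i = p
    · subst hi; rw [app_com_self, pts_full]; simpa using h.2.1
    · rw [app_com_ne y hi]

/-- the number of unset bits only decreases along legal moves -/
theorem app_dm_le {P : Prm} {m : Mv b N} (h : Legal P L rho m) (i : Fin (N + 1)) :
    dm (app rho m i) ≤ dm (rho i) := by
  cases m with
  | fair p j v =>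
    by_cases hi : i = p
    · subst hi; rw [app_fair_self]; have := dm_setBit v h.2.1; omega
    · rw [app_fair_ne j v hi]
  | com p y =>
    by_cases hi : i = p
    · subst hi; rw [app_com_self, dm_full]; omega
    · rw [app_com_ne y hi]

theorem app_A_subset {P : Prm} {m : Mv b N} (h : Legal P L rho m) (s : ℕ) :
    A (app rho m) s ⊆ A rho s := by
  intro i hi
  rw [mem_A] at *
  exact hi.trans (app_dm_le h i)

theorem app_lev_le {P : Prm} {m : Mv b N} (h : Legal P L rho m) (h' : ¬ Late P (app rho m)) :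
    lev P (app rho m) ≤ lev P rho := by
  obtain ⟨h1, h2⟩ := lev_spec h'
  exact le_lev (lev_le P) h1 (h2.trans (card_le_card (app_A_subset h _)))

end states

section runs
variable {b N : ℕ} {L : Lists b N} {P : Prm} {mv : ℕ → Mv b N} {tau : ℕ}

theorem st_congr {mv mv' : ℕ → Mv b N} {t : ℕ} (h : ∀ u, u < t → mv u = mv' u) :
    st mv t = st mv' t := by
  induction t with
  | zero => rfl
  | succ t ih =>
    have h1 := ih (fun u hu => h u (by omega))
    simp only [st, h1, h t (by omega)]

theorem st_update (mv : ℕ → Mv b N) (tau : ℕ) (m : Mv b N) {t : ℕ} (ht : t ≤ tau) :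
    st (Function.update mv tau m) t = st mv t :=
  st_congr (fun u hu => Function.update_of_ne (by omega) _ _)

theorem st_update_succ (mv : ℕ → Mv b N) (tau : ℕ) (m : Mv b N) :
    st (Function.update mv tau m) (tau + 1) = app (st mv tau) m := by
  simp only [st, Function.update_self]
  rw [st_update mv tau m le_rfl]

theorem LRun.mono {t : ℕ} (h : LRun P L mv tau) (ht : t ≤ tau) : LRun P L mv t :=
  fun u hu => h u (by omega)

theorem st_pts_subset (h : LRun P L mv tau) {t t' : ℕ} (h1 : t ≤ t') (h2 : t' ≤ tau)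
    (i : Fin (N + 1)) : pts (st mv t' i) ⊆ pts (st mv t i) := by
  induction t', h1 using Nat.le_induction with
  | base => exact Subset.refl _
  | succ u hu ih => exact (app_pts_subset (h u (by omega)).2 i).trans (ih (by omega))

theorem st_dm_le (h : LRun P L mv tau) {t t' : ℕ} (h1 : t ≤ t') (h2 : t' ≤ tau)
    (i : Fin (N + 1)) : dm (st mv t' i) ≤ dm (st mv t i) := by
  induction t', h1 using Nat.le_induction with
  | base => exact le_rfl
  | succ u hu ih => exact (app_dm_le (h u (by omega)).2 i).trans (ih (by omega))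

theorem st_A_subset (h : LRun P L mv tau) {t t' : ℕ} (h1 : t ≤ t') (h2 : t' ≤ tau) (s : ℕ) :
    A (st mv t') s ⊆ A (st mv t) s := by
  intro i hi
  rw [mem_A] at *
  exact hi.trans (st_dm_le h h1 h2 i)

theorem st_lev_le (h : LRun P L mv tau) {t t' : ℕ} (h1 : t ≤ t') (h2 : t' ≤ tau)
    (h' : ¬ Late P (st mv t')) : lev P (st mv t') ≤ lev P (st mv t) := by
  obtain ⟨h3, h4⟩ := lev_spec h'
  exact le_lev (lev_le P) h3 (h4.trans (card_le_card (st_A_subset h h1 h2 _)))

/-- full cells stay the same -/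
theorem st_full (h : LRun P L mv tau) {t t' : ℕ} (h1 : t ≤ t') (h2 : t' ≤ tau)
    {i : Fin (N + 1)} (h0 : dm (st mv t i) = 0) : st mv t' i = st mv t i := by
  induction t', h1 using Nat.le_induction with
  | base => rfl
  | succ u hu ih =>
    have ih' := ih (by omega)
    have hl := (h u (by omega)).2
    rw [← ih']
    show app (st mv u) (mv u) i = st mv u i
    have hd : dm (st mv u i) = 0 := by rw [ih', h0]
    cases hm : mv u with
    | fair p j v =>
      rw [hm] at hl
      by_cases hi : i = p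
      · subst hi
        have := dm_pos_iff.mpr ⟨j, hl.2.1⟩
        omega
      · rw [app_fair_ne j v hi]
    | com p y =>
      rw [hm] at hl
      by_cases hi : i = p
      · subst hi
        have := hl.1
        omega
      · rw [app_com_ne y hi]

theorem st_H_subset (h : LRun P L mv tau) {t t' : ℕ} (h1 : t ≤ t') (h2 : t' ≤ tau) :
    H L (st mv t) ⊆ H L (st mv t') := by
  intro x hx
  rw [mem_H] at *
  obtain ⟨i, hi, hx⟩ := hx
  have h3 := st_full h h1 h2 hi
  exact ⟨i, by rw [h3]; exact hi, by rw [h3]; exact hx⟩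

/-- the pigeon committed at time `t` is full afterwards -/
theorem com_dm_zero (h : LRun P L mv tau) {t t' : ℕ} (h1 : t < t') (h2 : t' ≤ tau)
    {p : Fin (N + 1)} {y : Cube b} (hm : mv t = Mv.com p y) : st mv t' p = full y := by
  have h3 : st mv (t + 1) p = full y := by
    show app (st mv t) (mv t) p = full y
    rw [hm, app_com_self]
  rw [← h3]
  exact st_full h (by omega) h2 (by rw [h3, dm_full])

theorem PRcum.mono {t : ℕ} (h : PRcum P L mv tau) (ht : t ≤ tau) : PRcum P L mv t := by
  intro d h1 h2 X hX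
  refine (card_le_card ?_).trans (h d h1 h2 X hX)
  intro i hi
  simp only [mem_filter, mem_univ, true_and] at *
  obtain ⟨u, hu, hh⟩ := hi
  exact ⟨u, by omega, hh⟩

theorem PRcum.now {t : ℕ} (h : PRcum P L mv tau) (ht : t ≤ tau) : PRnow P L (st mv t) := by
  intro d h1 h2 X hX
  refine (card_le_card ?_).trans (h d h1 h2 X hX)
  intro i hi
  simp only [mem_filter, mem_univ, true_and] at *
  exact ⟨t, ht, hi⟩

theorem Hit.mono {i : Fin (N + 1)} {d : ℕ} {X X' : Finset (Fin N)} {r : Cell b}
    (h : Hit L i d X r) (hX : X' ⊆ X) : Hit L i d X' r := by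
  obtain ⟨h1, j, v, h2, h3⟩ := h
  exact ⟨h1, j, v, h2, h3.mono_right hX⟩

/-- a cell whose options avoid `X` is hit -/
theorem Hit.of_disjoint {i : Fin (N + 1)} {d : ℕ} {X : Finset (Fin N)} {r : Cell b}
    (hd : d ≤ dm r) (h1 : 1 ≤ dm r) (h : Disjoint (opts L i r) X) : Hit L i d X r := by
  obtain ⟨j, hj⟩ := dm_pos_iff.mp h1
  exact ⟨hd, j, true, hj, h.mono_left (opts_setBit_subset true hj)⟩

end runs

end Pool.Agent.L0h36.TR
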