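import Pool.Agent.L0h36.TR.Stmts

/-! Counting of the commits (module M3d of the tree-like resolution project). -/

set_option autoImplicit false

namespace Pool.Agent.L0h36.TR

open Finset Classical

theorem count (hI : S_typeI) (hhi : S_typeII_hi) (hlo : S_typeII_lo) : S_count := by
  intro b N P L mv tau hG hrun hinv hPR d hd hdb
  have h1 := hI b N P L mv tau hG hrun hinv hPR d hd hdb
  have h2 := hhi b N P L mv tau hG hrun hinv hPR d hd hdb
  have h3 := hlo b N P L mv tau hG hrun hinv hPR d hd hdb
  set F1 := (range tau).filter (fun t =>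
      ∃ p y, mv t = Mv.com p y ∧ dm (st mv t p) = d ∧
        (Cm L (st mv t) (T P L (st mv t) p)).card < P.kap d) with hF1
  set F2 := (range tau).filter (fun t => d ≤ lev P (st mv t) ∧
      ∃ p y, mv t = Mv.com p y ∧ dm (st mv t p) = d ∧
        P.kap d ≤ (Cm L (st mv t) (T P L (st mv t) p)).card) with hF2
  have hsub : (range tau).filter (fun t => ComAt mv d t) ⊆
      (F1 ∪ F2) ∪ (range d).biUnion
        (fun s => (range tau).filter (fun t => lev P (st mv t) = s ∧ ComAt mv d t)) := by
    intro t ht
    rw [mem_filter] at ht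
    obtain ⟨ht, p, y, hm, hdm⟩ := ht
    rw [mem_union, mem_union, mem_biUnion]
    rcases lt_or_ge (Cm L (st mv t) (T P L (st mv t) p)).card (P.kap d) with h | h
    · left; left
      rw [hF1, mem_filter]
      exact ⟨ht, p, y, hm, hdm, h⟩
    · rcases lt_or_ge (lev P (st mv t)) d with h4 | h4
      · right
        refine ⟨lev P (st mv t), mem_range.mpr h4, ?_⟩
        rw [mem_filter]
        exact ⟨ht, rfl, p, y, hm, hdm⟩
      · left; right
        rw [hF2, mem_filter]
        exact ⟨ht, h4, p, y, hm, hdm, h⟩
  refine (card_le_card hsub).trans ?_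
  refine (card_union_le _ _).trans ?_
  have h4 : (F1 ∪ F2).card ≤ F1.card + F2.card := card_union_le _ _
  have h5 : ((range d).biUnion
        (fun s => (range tau).filter (fun t => lev P (st mv t) = s ∧ ComAt mv d t))).card ≤
      d * (4 * P.z d) := by
    refine card_biUnion_le.trans ?_
    refine (sum_le_card_nsmul _ _ (4 * P.z d) ?_).trans ?_
    · intro s hs
      exact h3 s (mem_range.mp hs)
    · rw [card_range, smul_eq_mul]
  have h6 : P.Nd b d = (∑ s ∈ Icc (d + 1) b, P.kap s) + 4 * P.kap d + P.z d + 4 * P.z d +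
      d * (4 * P.z d) := by
    unfold Prm.Nd
    ring
  rw [h6]
  omega

end Pool.Agent.L0h36.TR
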