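import Mathlib

/-!
Definitions for the tree-like resolution project (S15369).

* holes = `Fin N`, pigeons = `Fin (N+1)`, each pigeon has `b` bits; a list family
  `L : Fin (N+1) → (Fin b → Bool) → Fin N` says which hole pigeon `i` takes on bits `y`.
* a state `rho : St b N` gives for every pigeon a partial assignment of its bits.
-/

set_option autoImplicit false

namespace Pool.Agent.L0h36.TR

open Finset Classical

/-- full bit strings of one pigeon -/
abbrev Cube (b : ℕ) := Fin b → Bool
/-- partial bit strings of one pigeon -/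
abbrev Cell (b : ℕ) := Fin b → Option Bool
/-- states: one cell per pigeon -/
abbrev St (b N : ℕ) := Fin (N + 1) → Cell b
/-- list families -/
abbrev Lists (b N : ℕ) := Fin (N + 1) → Cube b → Fin N

section cells
variable {b : ℕ}

/-- number of unset bits -/
noncomputable def dm (r : Cell b) : ℕ := (univ.filter (fun j => r j = none)).card

/-- the points of a cell -/
noncomputable def pts (r : Cell b) : Finset (Cube b) :=
  univ.filter (fun y => ∀ j v, r j = some v → y j = v)

/-- set one bit -/
noncomputable def setBit (r : Cell b) (j : Fin b) (v : Bool) : Cell b := Function.update r j (some v)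

/-- the cell with all bits set to `y` -/
def full (y : Cube b) : Cell b := fun j => some (y j)

/-- the cell with no bit set -/
def bot : Cell b := fun _ => none

end cells

section states
variable {b N : ℕ}

/-- the holes pigeon `i` may still take when its cell is `r` -/
noncomputable def opts (L : Lists b N) (i : Fin (N + 1)) (r : Cell b) : Finset (Fin N) :=
  (pts r).image (L i)

/-- active pigeons with at least `s` unset bits (only used for `1 ≤ s`) -/
noncomputable def A (rho : St b N) (s : ℕ) : Finset (Fin (N + 1)) :=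
  univ.filter (fun i => s ≤ dm (rho i))

/-- the active pigeons: at least one unset bit -/
noncomputable def U (rho : St b N) : Finset (Fin (N + 1)) := A rho 1

/-- holes taken by the full (not active) pigeons -/
noncomputable def H (L : Lists b N) (rho : St b N) : Finset (Fin N) :=
  (univ \ U rho).biUnion (fun i => opts L i (rho i))

/-- free options of a set of pigeons -/
noncomputable def Gam (L : Lists b N) (rho : St b N) (Z : Finset (Fin (N + 1))) : Finset (Fin N) :=
  (Z.biUnion (fun i => opts L i (rho i))) \ H L rho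

end states

/-- numerical parameters -/
structure Prm where
  s0 : ℕ
  kap : ℕ → ℕ
  z : ℕ → ℕ

/-- minimal size of `A rho s` at level `s` -/
def Prm.al (P : Prm) (s : ℕ) : ℕ := 2 * P.z s + P.kap s + 2

/-- what the combinatorial part needs of the parameters -/
structure Prm.Good (P : Prm) (b N : ℕ) : Prop where
  s0_two : 2 ≤ P.s0
  s0_le : P.s0 ≤ b
  anti : ∀ s, P.kap (s + 1) ≤ P.kap s
  al_b : P.al b ≤ N + 1
  zb : P.z b ≤ N

section game
variable {b N : ℕ}

/-- the game is over (few pigeons have many unset bits) -/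
def Late (P : Prm) (rho : St b N) : Prop :=
  ∀ s, P.s0 ≤ s → s ≤ b → (A rho s).card < P.al s

/-- current level: the largest `s ≤ b` with `s0 ≤ s` and `al s ≤ |A s|` (0 if there is none) -/
noncomputable def lev (P : Prm) (rho : St b N) : ℕ :=
  Nat.findGreatest (fun s => P.s0 ≤ s ∧ P.al s ≤ (A rho s).card) b

/-- relevant sets of active pigeons -/
def Rel (P : Prm) (rho : St b N) (Z : Finset (Fin (N + 1))) : Prop :=
  Z ⊆ U rho ∧ (Z ∩ A rho (lev P rho)).card ≤ P.z (lev P rho)

/-- relevant tight sets -/
def Tight (P : Prm) (L : Lists b N) (rho : St b N) (Z : Finset (Fin (N + 1))) : Prop :=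
  Rel P rho Z ∧ (Gam L rho Z).card = Z.card

/-- the union of all relevant tight sets avoiding `p` -/
noncomputable def T (P : Prm) (L : Lists b N) (rho : St b N) (p : Fin (N + 1)) :
    Finset (Fin (N + 1)) :=
  (univ.filter (fun Z : Finset (Fin (N + 1)) => Tight P L rho Z ∧ p ∉ Z)).biUnion id

/-- the invariant of non-late states -/
structure Inv (P : Prm) (L : Lists b N) (rho : St b N) : Prop where
  dist : ∀ i i' : Fin (N + 1), dm (rho i) = 0 → dm (rho i') = 0 → i ≠ i' →
    Disjoint (opts L i (rho i)) (opts L i' (rho i'))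
  hall : ∀ Z, Rel P rho Z → Z.card ≤ (Gam L rho Z).card

/-- pigeon `i` with cell `r` is hit with respect to `d` and `X` -/
def Hit (L : Lists b N) (i : Fin (N + 1)) (d : ℕ) (X : Finset (Fin N)) (r : Cell b) : Prop :=
  d ≤ dm r ∧ ∃ j v, r j = none ∧ Disjoint (opts L i (setBit r j v)) X

/-- pseudo-randomness at the current state -/
def PRnow (P : Prm) (L : Lists b N) (rho : St b N) : Prop :=
  ∀ d, P.s0 ≤ d → d ≤ b → ∀ X : Finset (Fin N), P.kap d ≤ X.card →
    (univ.filter (fun i => Hit L i d X (rho i))).card ≤ P.z d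

/-- a subcell `r` of the cell of `p` is allowed -/
def OK (P : Prm) (L : Lists b N) (rho : St b N) (p : Fin (N + 1)) (r : Cell b) : Prop :=
  ¬ (opts L p r \ H L rho ⊆ Gam L rho (T P L rho p))

/-- moves -/
inductive Mv (b N : ℕ) where
  | fair (p : Fin (N + 1)) (j : Fin b) (v : Bool)
  | com (p : Fin (N + 1)) (y : Cube b)

/-- effect of a move -/
noncomputable def app (rho : St b N) : Mv b N → St b N
  | Mv.fair p j v => Function.update rho p (setBit (rho p) j v)
  | Mv.com p y => Function.update rho p (full y)

/-- a spoil situation for `p`: it has at least `s0` unset bits and some half is not allowed -/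
def Spoil (P : Prm) (L : Lists b N) (rho : St b N) (p : Fin (N + 1)) : Prop :=
  P.s0 ≤ dm (rho p) ∧ ∃ j v, rho p j = none ∧ ¬ OK P L rho p (setBit (rho p) j v)

/-- legal moves -/
def Legal (P : Prm) (L : Lists b N) (rho : St b N) : Mv b N → Prop
  | Mv.fair p j _ => P.s0 ≤ dm (rho p) ∧ rho p j = none ∧
      ∀ w, OK P L rho p (setBit (rho p) j w)
  | Mv.com p y => 1 ≤ dm (rho p) ∧ y ∈ pts (rho p) ∧ L p y ∉ H L rho ∧
      L p y ∉ Gam L rho (T P L rho p) ∧ (dm (rho p) < P.s0 ∨ Spoil P L rho p)

/-- the state after `t` moves -/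
noncomputable def st (mv : ℕ → Mv b N) : ℕ → St b N
  | 0 => fun _ => bot
  | t + 1 => app (st mv t) (mv t)

/-- legal runs of length `tau` -/
def LRun (P : Prm) (L : Lists b N) (mv : ℕ → Mv b N) (tau : ℕ) : Prop :=
  ∀ t, t < tau → ¬ Late P (st mv t) ∧ Legal P L (st mv t) (mv t)

/-- pigeon `i` has been hit at some time up to `tau` -/
def HitBy (L : Lists b N) (mv : ℕ → Mv b N) (tau : ℕ) (i : Fin (N + 1)) (d : ℕ)
    (X : Finset (Fin N)) : Prop :=
  ∃ t, t ≤ tau ∧ Hit L i d X (st mv t i)

/-- cumulative pseudo-randomness -/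
def PRcum (P : Prm) (L : Lists b N) (mv : ℕ → Mv b N) (tau : ℕ) : Prop :=
  ∀ d, P.s0 ≤ d → d ≤ b → ∀ X : Finset (Fin N), P.kap d ≤ X.card →
    (univ.filter (fun i => HitBy L mv tau i d X)).card ≤ P.z d

/-- is the move fair -/
def isFair : Mv b N → Prop
  | Mv.fair _ _ _ => True
  | Mv.com _ _ => False

/-- number of fair moves -/
noncomputable def nfair (mv : ℕ → Mv b N) (tau : ℕ) : ℕ :=
  ((range tau).filter (fun t => isFair (mv t))).card

/-- the move at time `t` commits a pigeon which has exactly `d` unset bits -/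
def ComAt (mv : ℕ → Mv b N) (d t : ℕ) : Prop :=
  ∃ p y, mv t = Mv.com p y ∧ dm (st mv t p) = d

/-- bound for the number of spoils at `d` unset bits -/
def Prm.Nd (P : Prm) (b d : ℕ) : ℕ :=
  (∑ s ∈ Icc (d + 1) b, P.kap s) + 4 * P.kap d + (4 * (d + 1) + 1) * P.z d

/-- total loss -/
def Prm.K (P : Prm) (b N : ℕ) : ℕ :=
  (P.s0 - 1) * (N + 1) + (∑ d ∈ Icc P.s0 b, d * P.Nd b d) + ∑ s ∈ Icc P.s0 b, P.al s

end game

section value
variable {b : ℕ}

/-- value of the hitting game with `n` further steps: `bad` cells have value 1, otherwise the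
best coordinate is queried and answered by a fair coin -/
noncomputable def Vn (bad : Cell b → Prop) : ℕ → Cell b → ℝ
  | 0, r => if bad r then 1 else 0
  | n + 1, r => if bad r then 1 else
      (univ.filter (fun j => r j = none)).fold max 0
        (fun j => (Vn bad n (setBit r j false) + Vn bad n (setBit r j true)) / 2)

/-- value of a cell -/
noncomputable def V (bad : Cell b → Prop) (r : Cell b) : ℝ := Vn bad (dm r) r

end value

section potential
variable {b N : ℕ}

/-- weight of pigeon `i` for `d, X` after `tau` moves -/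
noncomputable def W (L : Lists b N) (mv : ℕ → Mv b N) (tau : ℕ) (i : Fin (N + 1)) (d : ℕ)
    (X : Finset (Fin N)) : ℝ :=
  if HitBy L mv tau i d X then 1
  else if dm (st mv tau i) = 0 then 0
  else V (Hit L i d X) (st mv tau i)

/-- the bad potential -/
noncomputable def Bad (P : Prm) (L : Lists b N) (mv : ℕ → Mv b N) (tau : ℕ) : ℝ :=
  ∑ d ∈ Icc P.s0 b, ∑ X ∈ powersetCard (P.kap d) (univ : Finset (Fin N)),
    ∑ Z ∈ powersetCard (P.z d + 1) (univ : Finset (Fin (N + 1))), ∏ i ∈ Z, W L mv tau i d X

end potential

/-- the homes of the pigeons: they make the initial Hall condition automatic -/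
def HomesOK {b N : ℕ} (L : Lists b N) (y0 y1 : Cube b) : Prop :=
  (∀ i : Fin (N + 1), (L i y0).val = i.val % N) ∧
  (∀ i : Fin (N + 1), (L i y1).val = (i.val + 1) % N)

/-- the concrete parameters -/
def prm (N : ℕ) : Prm where
  s0 := 200
  kap := fun s => N / 2 ^ (s / 4) + 1
  z := fun s => 3 * N / 2 ^ (s / 4)

end Pool.Agent.L0h36.TR
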