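import Pool.Agent.L0h36.TR.Pot

/-! M7: existence of good lists -/

set_option autoImplicit false

namespace Pool.Agent.L0h36.TR

open Finset Classical

variable {b N : ℕ}

theorem W_zero (hb : 1 ≤ b) (L : Lists b N) (mv : ℕ → Mv b N) (i : Fin (N + 1)) (d : ℕ)
    (X : Finset (Fin N)) : W L mv 0 i d X = V (Hit L i d X) bot := by
  have h0 : st mv 0 i = bot := rfl
  unfold W
  rw [h0, dm_bot]
  by_cases h : HitBy L mv 0 i d X
  · rw [if_pos h]
    obtain ⟨t, ht, hh⟩ := h
    obtain rfl : t = 0 := by omega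
    rw [h0] at hh
    rw [V_bad hh]
  · rw [if_neg h, if_neg (by omega)]

/-- the lists with homes -/
noncomputable def LR (hN : 0 < N) (y0 y1 : Cube b) (R : Fin (N + 1) → Cube b → Fin N) :
    Lists b N := fun i y =>
  if y = y0 then ⟨i.val % N, Nat.mod_lt _ hN⟩
  else if y = y1 then ⟨(i.val + 1) % N, Nat.mod_lt _ hN⟩ else R i y

theorem LR_homes (hN : 0 < N) {y0 y1 : Cube b} (h : y0 ≠ y1)
    (R : Fin (N + 1) → Cube b → Fin N) : HomesOK (LR hN y0 y1 R) y0 y1 := by
  refine ⟨fun i => ?_, fun i => ?_⟩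
  · unfold LR
    rw [if_pos rfl]
  · unfold LR
    rw [if_neg h.symm, if_pos rfl]

theorem hit_bad2 (hN : 0 < N) (y0 y1 : Cube b) (R : Fin (N + 1) → Cube b → Fin N)
    (i : Fin (N + 1)) (d : ℕ) (X : Finset (Fin N)) (r : Cell b)
    (h : Hit (LR hN y0 y1 R) i d X r) : bad2 (R i) d X r := by
  obtain ⟨hd, j, v, hj, hdis⟩ := h
  refine ⟨hd, j, v, hj, ?_⟩
  have hsub : (pts (setBit r j v)).filter (fun y => R i y ∈ X) ⊆ {y0, y1} := by
    intro y hy
    rw [Finset.mem_filter] at hy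
    by_contra hcon
    rw [Finset.mem_insert, Finset.mem_singleton, not_or] at hcon
    have h1 : LR hN y0 y1 R i y = R i y := by
      unfold LR
      rw [if_neg hcon.1, if_neg hcon.2]
    have h2 : R i y ∈ opts (LR hN y0 y1 R) i (setBit r j v) := mem_opts.2 ⟨y, hy.1, h1⟩
    exact (Finset.disjoint_left.1 hdis) h2 hy.2
  exact (card_le_card hsub).trans card_le_two

theorem sum_prod_pi {α : Type} [Fintype α] (n : ℕ) (Z : Finset (Fin n)) (v : α → ℝ) :
    ∑ R : Fin n → α, ∏ i ∈ Z, v (R i) =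
      ∏ i : Fin n, (if i ∈ Z then ∑ a, v a else (Fintype.card α : ℝ)) := by
  have h1 : ∀ R : Fin n → α, ∏ i ∈ Z, v (R i) = ∏ i : Fin n, (if i ∈ Z then v (R i) else 1) := by
    intro R
    rw [Finset.prod_ite_mem, Finset.univ_inter]
  rw [Finset.sum_congr rfl fun R _ => h1 R]
  have h2 := Finset.prod_univ_sum (fun _ : Fin n => (Finset.univ : Finset α))
    (fun i a => if i ∈ Z then v a else (1 : ℝ))
  rw [Fintype.piFinset_univ] at h2
  rw [← h2]
  refine Finset.prod_congr rfl fun i _ => ?_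
  by_cases hi : i ∈ Z
  · simp [hi]
  · simp [hi]

theorem avg_le {α : Type} [Fintype α] {n w a : ℕ} {Z : Finset (Fin n)} {v : α → ℝ}
    (hv0 : ∀ r, 0 ≤ v r) (hv : (2 : ℝ) ^ w * ∑ r, v r ≤ Fintype.card α) (ha : a ≤ w * Z.card) :
    (2 : ℝ) ^ a * ∑ R : Fin n → α, ∏ i ∈ Z, v (R i) ≤ (Fintype.card α : ℝ) ^ n := by
  rw [sum_prod_pi]
  have hs : 0 ≤ ∑ r, v r := Finset.sum_nonneg fun r _ => hv0 r
  have h1 : (2 : ℝ) ^ a ≤ ∏ i : Fin n, (if i ∈ Z then (2 : ℝ) ^ w else 1) := by
    rw [Finset.prod_ite_mem, Finset.univ_inter, Finset.prod_const, ← pow_mul]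
    exact pow_le_pow_right₀ (by norm_num) ha
  have hp : 0 ≤ ∏ i : Fin n, (if i ∈ Z then ∑ a, v a else (Fintype.card α : ℝ)) := by
    refine Finset.prod_nonneg fun i _ => ?_
    split_ifs
    · exact hs
    · positivity
  calc (2 : ℝ) ^ a * ∏ i : Fin n, (if i ∈ Z then ∑ a, v a else (Fintype.card α : ℝ))
      ≤ (∏ i : Fin n, (if i ∈ Z then (2 : ℝ) ^ w else 1)) *
        ∏ i : Fin n, (if i ∈ Z then ∑ a, v a else (Fintype.card α : ℝ)) :=
        mul_le_mul_of_nonneg_right h1 hp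
    _ = ∏ i : Fin n, (if i ∈ Z then (2 : ℝ) ^ w * ∑ a, v a else (Fintype.card α : ℝ)) := by
        rw [← Finset.prod_mul_distrib]
        refine Finset.prod_congr rfl fun i _ => ?_
        by_cases hi : i ∈ Z
        · simp [hi]
        · simp [hi]
    _ ≤ ∏ _i : Fin n, (Fintype.card α : ℝ) := by
        refine Finset.prod_le_prod (fun i _ => ?_) fun i _ => ?_
        · split_ifs
          · positivity
          · positivity
        · split_ifs
          · exact hv
          · exact le_rfl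
    _ = _ := by rw [Finset.prod_const, Finset.card_univ, Fintype.card_fin]

theorem exist (hM : S_mgf) : S_exist := by
  intro b hb
  refine ⟨b + 3, fun N hN => ?_⟩
  have hN0 : 0 < N := by omega
  obtain ⟨y0, hy0⟩ : ∃ y : Cube b, y = fun _ => false := ⟨_, rfl⟩
  obtain ⟨y1, hy1⟩ : ∃ y : Cube b, y = fun _ => true := ⟨_, rfl⟩
  have hne : y0 ≠ y1 := by
    intro h
    have h1 := congrFun h ⟨0, by omega⟩
    rw [hy0, hy1] at h1
    exact absurd h1 (by simp)
  obtain ⟨mv0⟩ : Nonempty (ℕ → Mv b N) := ⟨fun _ => Mv.com 0 y0⟩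
  -- the sum over all lists
  have hB : ∀ (R : Fin (N + 1) → Cube b → Fin N) (mv : ℕ → Mv b N),
      Bad (prm N) (LR hN0 y0 y1 R) mv 0 ≤
        ∑ d ∈ Icc (prm N).s0 b, ∑ X ∈ powersetCard ((prm N).kap d) (univ : Finset (Fin N)),
          ∑ Z ∈ powersetCard ((prm N).z d + 1) (univ : Finset (Fin (N + 1))),
            ∏ i ∈ Z, V (bad2 (R i) d X) bot := by
    intro R mv
    unfold Bad
    refine Finset.sum_le_sum fun d _ => Finset.sum_le_sum fun X _ => Finset.sum_le_sum fun Z _ =>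
      Finset.prod_le_prod (fun i _ => W_nonneg _ _ _ _ _ _) fun i _ => ?_
    rw [W_zero (by omega)]
    exact V_mono (fun r h => hit_bad2 hN0 y0 y1 R i d X r h) bot
  obtain ⟨M, hMd⟩ : ∃ M : ℝ, M = (Fintype.card (Cube b → Fin N) : ℝ) := ⟨_, rfl⟩
  have hterm : ∀ d ∈ Icc (prm N).s0 b,
      ∀ X ∈ powersetCard ((prm N).kap d) (univ : Finset (Fin N)),
      ∀ Z ∈ powersetCard ((prm N).z d + 1) (univ : Finset (Fin (N + 1))),
        ∑ R : Fin (N + 1) → Cube b → Fin N, ∏ i ∈ Z, V (bad2 (R i) d X) bot ≤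
          M ^ (N + 1) / 2 ^ (3 * N) := by
    intro d hd X hX Z hZ
    rw [Finset.mem_Icc] at hd
    rw [Finset.mem_powersetCard] at hX hZ
    have hd1 : 200 ≤ d := hd.1
    have hw : 0 < 2 ^ (d / 4) := Nat.pos_of_ne_zero (by positivity)
    have hXc : N ≤ 2 ^ (d / 4) * X.card := by
      rw [hX.2]
      exact (Nat.lt_mul_div_succ N hw).le
    have hmgf := hM b N d X hd1 hd.2 hN0 hXc
    have hZc : 3 * N ≤ 2 ^ (d / 4) * Z.card := by
      rw [hZ.2]
      exact (Nat.lt_mul_div_succ (3 * N) hw).le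
    have h1 := avg_le (n := N + 1) (Z := Z) (v := fun r => V (bad2 r d X) bot)
      (fun r => V_nonneg _ _) hmgf hZc
    rw [le_div_iff₀ (by positivity), mul_comm, hMd]
    exact h1
  have hsum : ∑ R : Fin (N + 1) → Cube b → Fin N,
      ∑ d ∈ Icc (prm N).s0 b, ∑ X ∈ powersetCard ((prm N).kap d) (univ : Finset (Fin N)),
          ∑ Z ∈ powersetCard ((prm N).z d + 1) (univ : Finset (Fin (N + 1))),
            ∏ i ∈ Z, V (bad2 (R i) d X) bot ≤
      ∑ _R : Fin (N + 1) → Cube b → Fin N, (1 / 2 : ℝ) := by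
    have hMn : 0 ≤ M := by rw [hMd]; positivity
    have e1 : ∑ R : Fin (N + 1) → Cube b → Fin N,
      ∑ d ∈ Icc (prm N).s0 b, ∑ X ∈ powersetCard ((prm N).kap d) (univ : Finset (Fin N)),
          ∑ Z ∈ powersetCard ((prm N).z d + 1) (univ : Finset (Fin (N + 1))),
            ∏ i ∈ Z, V (bad2 (R i) d X) bot =
      ∑ d ∈ Icc (prm N).s0 b, ∑ X ∈ powersetCard ((prm N).kap d) (univ : Finset (Fin N)),
          ∑ Z ∈ powersetCard ((prm N).z d + 1) (univ : Finset (Fin (N + 1))),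
            ∑ R : Fin (N + 1) → Cube b → Fin N, ∏ i ∈ Z, V (bad2 (R i) d X) bot := by
      rw [Finset.sum_comm]
      refine Finset.sum_congr rfl fun d _ => ?_
      rw [Finset.sum_comm]
      refine Finset.sum_congr rfl fun X _ => ?_
      rw [Finset.sum_comm]
    rw [e1]
    have hMp : 0 ≤ M ^ (N + 1) := pow_nonneg hMn _
    have hX0 : 0 ≤ M ^ (N + 1) / (2 : ℝ) ^ (3 * N) := div_nonneg hMp (pow_nonneg (by norm_num) _)
    have hX1 : 0 ≤ (2 : ℝ) ^ (N + 1) * (M ^ (N + 1) / 2 ^ (3 * N)) :=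
      mul_nonneg (pow_nonneg (by norm_num) _) hX0
    have hX2 : 0 ≤ (2 : ℝ) ^ N * (2 ^ (N + 1) * (M ^ (N + 1) / 2 ^ (3 * N))) :=
      mul_nonneg (pow_nonneg (by norm_num) _) hX1
    have hc1 : ∀ d, ((powersetCard ((prm N).kap d) (univ : Finset (Fin N))).card : ℝ) ≤ 2 ^ N := by
      intro d
      have : (powersetCard ((prm N).kap d) (univ : Finset (Fin N))).card ≤ 2 ^ N := by
        refine (card_le_card (s := powersetCard ((prm N).kap d) (univ : Finset (Fin N)))
          (t := (univ : Finset (Fin N)).powerset) ?_).trans ?_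
        · intro s hs
          exact Finset.mem_powerset.2 (Finset.mem_powersetCard.1 hs).1
        · rw [Finset.card_powerset, Finset.card_univ, Fintype.card_fin]
      exact_mod_cast this
    have hc2 : ∀ d, ((powersetCard ((prm N).z d + 1) (univ : Finset (Fin (N + 1)))).card : ℝ) ≤
        2 ^ (N + 1) := by
      intro d
      have : (powersetCard ((prm N).z d + 1) (univ : Finset (Fin (N + 1)))).card ≤ 2 ^ (N + 1) := by
        refine (card_le_card (s := powersetCard ((prm N).z d + 1) (univ : Finset (Fin (N + 1))))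
          (t := (univ : Finset (Fin (N + 1))).powerset) ?_).trans ?_
        · intro s hs
          exact Finset.mem_powerset.2 (Finset.mem_powersetCard.1 hs).1
        · rw [Finset.card_powerset, Finset.card_univ, Fintype.card_fin]
      exact_mod_cast this
    have e2 : ∀ d ∈ Icc (prm N).s0 b,
        ∑ X ∈ powersetCard ((prm N).kap d) (univ : Finset (Fin N)),
          ∑ Z ∈ powersetCard ((prm N).z d + 1) (univ : Finset (Fin (N + 1))),
            ∑ R : Fin (N + 1) → Cube b → Fin N, ∏ i ∈ Z, V (bad2 (R i) d X) bot ≤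
        2 ^ N * (2 ^ (N + 1) * (M ^ (N + 1) / 2 ^ (3 * N))) := by
      intro d hd
      calc _ ≤ ∑ X ∈ powersetCard ((prm N).kap d) (univ : Finset (Fin N)),
            2 ^ (N + 1) * (M ^ (N + 1) / 2 ^ (3 * N)) := by
            refine Finset.sum_le_sum fun X hX => ?_
            calc _ ≤ ∑ Z ∈ powersetCard ((prm N).z d + 1) (univ : Finset (Fin (N + 1))),
                  M ^ (N + 1) / 2 ^ (3 * N) :=
                  Finset.sum_le_sum fun Z hZ => hterm d hd X hX Z hZ
              _ = ((powersetCard ((prm N).z d + 1) (univ : Finset (Fin (N + 1)))).card : ℝ) *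
                  (M ^ (N + 1) / 2 ^ (3 * N)) := by
                  rw [Finset.sum_const, nsmul_eq_mul]
              _ ≤ _ := mul_le_mul_of_nonneg_right (hc2 d) hX0
        _ = ((powersetCard ((prm N).kap d) (univ : Finset (Fin N))).card : ℝ) *
              (2 ^ (N + 1) * (M ^ (N + 1) / 2 ^ (3 * N))) := by
            rw [Finset.sum_const, nsmul_eq_mul]
        _ ≤ _ := mul_le_mul_of_nonneg_right (hc1 d) hX1
    have hcI : ((Icc (prm N).s0 b).card : ℝ) ≤ b + 1 := by
      rw [Nat.card_Icc]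
      have : b + 1 - (prm N).s0 ≤ b + 1 := Nat.sub_le _ _
      exact_mod_cast this
    have hnum : ((b : ℝ) + 1) * 4 ≤ 2 ^ N := by
      have h1 : b + 1 ≤ 2 ^ b := Nat.succ_le_of_lt Nat.lt_two_pow_self
      have h2 : (b + 1) * 4 ≤ 2 ^ N := by
        calc (b + 1) * 4 ≤ 2 ^ b * 2 ^ 2 := by omega
          _ = 2 ^ (b + 2) := by rw [pow_add]
          _ ≤ 2 ^ N := Nat.pow_le_pow_right (by norm_num) (by omega)
      exact_mod_cast h2
    have hP : (0 : ℝ) < 2 ^ N := by positivity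
    calc _ ≤ ∑ d ∈ Icc (prm N).s0 b,
          (2 : ℝ) ^ N * (2 ^ (N + 1) * (M ^ (N + 1) / 2 ^ (3 * N))) := Finset.sum_le_sum e2
      _ = ((Icc (prm N).s0 b).card : ℝ) * (2 ^ N * (2 ^ (N + 1) * (M ^ (N + 1) / 2 ^ (3 * N)))) := by
          rw [Finset.sum_const, nsmul_eq_mul]
      _ ≤ ((b : ℝ) + 1) * (2 ^ N * (2 ^ (N + 1) * (M ^ (N + 1) / 2 ^ (3 * N)))) :=
          mul_le_mul_of_nonneg_right hcI hX2
      _ = (((b : ℝ) + 1) * 4 / 2 ^ N) * (M ^ (N + 1) / 2) := by
          rw [show (2 : ℝ) ^ (3 * N) = 2 ^ N * 2 ^ N * 2 ^ N by rw [← pow_add, ← pow_add]; congr 1; ring,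
            show (2 : ℝ) ^ (N + 1) = 2 ^ N * 2 by rw [pow_succ]]
          field_simp
          ring
      _ ≤ 1 * (M ^ (N + 1) / 2) := by
          refine mul_le_mul_of_nonneg_right ?_ (div_nonneg hMp (by norm_num))
          rw [div_le_one hP]
          exact hnum
      _ = _ := by
          rw [Finset.sum_const, nsmul_eq_mul, Finset.card_univ, Fintype.card_fun, Fintype.card_fin,
            hMd]
          push_cast
          ring
  have : Nonempty (Fin N) := ⟨⟨0, hN0⟩⟩
  obtain ⟨R, -, hR⟩ := Finset.exists_le_of_sum_le (Finset.univ_nonempty) hsum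
  exact ⟨LR hN0 y0 y1 R, y0, y1, LR_homes hN0 hne R, fun mv => (hB R mv).trans hR⟩

end Pool.Agent.L0h36.TR
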