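import Pool.Agent.L0h36.TR.Stmts
import Pool.Agent.L0h36.TR.Cells

/-! M10: assembly of the final statement from the modules. -/

set_option autoImplicit false

namespace Pool.Agent.L0h36.TR

open Finset Classical

theorem treeSize_pos {n : ℕ} {F : Finset (Finset (Fin n × Bool))} {s : ℕ}
    (h : TreeSize F s) : 1 ≤ s :=
  h (fun _ a => 1 ≤ a) (fun _ _ => le_rfl) (fun _ _ _ _ _ _ _ _ _ => by omega)

theorem s_final (hinit : S_init) (hex : S_exist) (hnum : S_num) (htree : S_tree) : S_final := by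
  refine ⟨1000, by norm_num, fun k hk => ?_⟩
  by_cases hk4 : k < 400
  · refine ⟨1, fun n hn => ?_⟩
    refine ⟨{{(⟨0, hn⟩, true)}, {(⟨0, hn⟩, false)}}, ?_, ?_, ?_⟩
    · intro C hC
      simp only [mem_insert, mem_singleton] at hC
      rcases hC with rfl | rfl <;> simpa using hk
    · intro α
      cases h : α ⟨0, hn⟩ with
      | true =>
        refine ⟨{(⟨0, hn⟩, false)}, by simp, ?_⟩
        intro l hl
        rw [mem_singleton] at hl
        subst hl
        simp [h]
      | false =>
        refine ⟨{(⟨0, hn⟩, true)}, by simp, ?_⟩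
        intro l hl
        rw [mem_singleton] at hl
        subst hl
        simp [h]
    · intro s hs
      have h1 := treeSize_pos hs
      have h2 : 0 ≤ Real.logb 2 (s : ℝ) :=
        Real.logb_nonneg (by norm_num) (by exact_mod_cast h1)
      have hk0 : (0 : ℝ) < k := by exact_mod_cast hk
      have h3 : (1 : ℝ) ≤ 1000 / (k : ℝ) := by
        rw [le_div_iff₀ hk0]
        have : (k : ℝ) < 400 := by exact_mod_cast hk4
        linarith
      have h4 : (1 - 1000 / (k : ℝ)) * (n : ℝ) ≤ 0 :=
        mul_nonpos_of_nonpos_of_nonneg (by linarith) (by positivity)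
      linarith
  · push Not at hk4
    obtain ⟨b, hb⟩ : ∃ b, b = k / 2 := ⟨_, rfl⟩
    have hb2 : 200 ≤ b := by omega
    obtain ⟨N1, hN1⟩ := hex b hb2
    obtain ⟨N2, hN2⟩ := hnum b hb2
    refine ⟨b * (N1 + N2 + 3) + b * (b + 1), fun n hn => ?_⟩
    have hbpos : 0 < b := by omega
    have hdiv : N1 + N2 + 3 ≤ n / b := by
      rw [Nat.le_div_iff_mul_le hbpos]
      calc (N1 + N2 + 3) * b = b * (N1 + N2 + 3) := by ring
        _ ≤ n := le_trans (Nat.le_add_right _ _) hn
    obtain ⟨N, hN⟩ : ∃ N, n / b = N + 1 := ⟨n / b - 1, by omega⟩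
    have hNle : b * (N + 1) ≤ n := by rw [← hN]; exact Nat.mul_div_le n b
    have hNlt : n < b * (N + 1) + b := by
      rw [← hN]
      have := Nat.lt_mul_div_succ n hbpos
      calc n < b * (n / b + 1) := this
        _ = b * (n / b) + b := by ring
    obtain ⟨L, y0, y1, hH, hB⟩ := hN1 N (by omega)
    obtain ⟨hG, hK⟩ := hN2 N (by omega)
    obtain ⟨hI, hL⟩ := hinit b N (prm N) L y0 y1 hG (by omega) hH
    obtain ⟨F, hF1, hF2, hF3⟩ := htree b N n (prm N) L hG hI hL hB hNle
    refine ⟨F, fun C hC => (hF1 C hC).trans (by omega), hF2, fun s hs => ?_⟩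
    have h1 := treeSize_pos hs
    have h2 := hF3 s hs
    clear hF1 hF2 hF3 hN1 hN2 hB hH hI hL hG hs
    generalize (prm N).K b N = K0 at *
    have hs0 : (0 : ℝ) < s := by exact_mod_cast h1
    have h3 : ((b * (N + 1) : ℕ) : ℝ) ≤ ((K0 + 1 : ℕ) : ℝ) + Real.logb 2 (s : ℝ) := by
      have h4 : ((2 : ℝ) ^ (b * (N + 1))) ≤ (2 : ℝ) ^ (K0 + 1) * s := by
        exact_mod_cast h2
      have h5 := Real.logb_le_logb_of_le (b := 2) (by norm_num) (by positivity) h4
      rw [Real.logb_mul (by positivity) (by positivity), Real.logb_pow, Real.logb_pow,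
        Real.logb_self_eq_one (by norm_num)] at h5
      simpa using h5
    have hkpos : (0 : ℝ) < k := by exact_mod_cast hk
    have hkb : (k : ℝ) ≤ 2 * b + 1 := by
      have : k ≤ 2 * b + 1 := by omega
      exact_mod_cast this
    have hbR : (200 : ℝ) ≤ b := by exact_mod_cast hb2
    have hKR : (K0 : ℝ) ≤ 210 * N := by exact_mod_cast hK
    have hnR : (n : ℝ) < b * (N + 1) + b := by exact_mod_cast hNlt
    have hnR2 : (b : ℝ) * (N + 1) ≤ n := by exact_mod_cast hNle
    have hnb : (b : ℝ) * (b + 1) ≤ n := by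
      have : b * (b + 1) ≤ n := le_trans (Nat.le_add_left _ _) hn
      exact_mod_cast this
    -- 210 N + b + 1 <= 1000 n / k
    have h6 : 210 * (N : ℝ) + b + 1 ≤ 1000 / k * n := by
      have e1 : (400 : ℝ) / b ≤ 1000 / k := by
        rw [div_le_div_iff₀ (by linarith) hkpos]
        nlinarith
      have hn0 : (0 : ℝ) ≤ n := by positivity
      have e2 : (400 : ℝ) / b * n ≤ 1000 / k * n := mul_le_mul_of_nonneg_right e1 hn0
      have e3 : 210 * (N : ℝ) + b + 1 ≤ 400 / b * n := by
        rw [div_mul_eq_mul_div, le_div_iff₀ (by linarith)]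
        nlinarith
      linarith
    push_cast at h3
    have h7 : (1 - 1000 / (k : ℝ)) * (n : ℝ) = n - 1000 / k * n := by ring
    rw [h7]
    nlinarith

end Pool.Agent.L0h36.TR
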