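import Pool.Agent.L0h36.TR.Stmts
import Pool.Agent.L0h36.TR.Cells

/-! Module M2a of the tree-like resolution project: static Hall lemmas. -/

set_option autoImplicit false

namespace Pool.Agent.L0h36.TR

open Finset Classical

/-- M2e -/
theorem Hcard : S_Hcard := by
  intro b N P L rho hI
  have h1 : (H L rho).card = (univ \ U rho).card := by
    unfold H
    rw [card_biUnion]
    · rw [card_eq_sum_ones]
      refine sum_congr rfl fun i hi => ?_
      rw [mem_sdiff, mem_U] at hi
      exact opts_card_of_dm_zero i (by omega)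
    · intro i hi j hj hij
      rw [mem_coe, mem_sdiff, mem_U] at hi hj
      exact hI.dist i j (by omega) (by omega) hij
  rw [h1, card_sdiff_add_card_eq_card (subset_univ _)]
  simp

section
variable {b N : ℕ} {P : Prm} {L : Lists b N} {rho : St b N}

theorem card_compl_HGam (Z : Finset (Fin (N + 1))) :
    (univ \ (H L rho ∪ Gam L rho Z)).card + (H L rho).card + (Gam L rho Z).card = N := by
  have h1 := card_sdiff_add_card_eq_card (subset_univ (H L rho ∪ Gam L rho Z))
  rw [card_union_of_disjoint (disjoint_H_Gam Z)] at h1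
  simp only [card_univ, Fintype.card_fin] at h1
  omega

theorem opts_subset_HGam {Z : Finset (Fin (N + 1))} {i : Fin (N + 1)} (hi : i ∈ Z) :
    opts L i (rho i) ⊆ H L rho ∪ Gam L rho Z := by
  intro h hh
  rw [mem_union]
  by_cases hH : h ∈ H L rho
  · exact Or.inl hH
  · exact Or.inr (mem_Gam.mpr ⟨⟨i, hi, hh⟩, hH⟩)

theorem card_UA {Z : Finset (Fin (N + 1))} {s : ℕ} (hZ : Z ⊆ U rho) (hs : 1 ≤ s) :
    (A rho s).card + Z.card ≤ (U rho).card + (Z ∩ A rho s).card := by
  have h1 := card_union_add_card_inter Z (A rho s)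
  have h2 : (Z ∪ A rho s).card ≤ (U rho).card :=
    card_le_card (union_subset hZ (A_subset_U hs))
  omega

end

/-- M2b -/
theorem gap : S_gap := by
  intro b N P L rho Z hG hI hPR hL hZU hZA hcard
  obtain ⟨hs0, hal⟩ := lev_spec hL
  have hsb : lev P rho ≤ b := lev_le P
  set s := lev P rho with hs
  have h2 := hG.s0_two
  have hHU := Hcard b N P L rho hI
  have hX := card_compl_HGam (L := L) (rho := rho) Z
  have hUA := card_UA (s := s) hZU (by omega)
  unfold Prm.al at hal
  have hXk : P.kap s ≤ (univ \ (H L rho ∪ Gam L rho Z)).card := by omega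
  refine ⟨hZU, ?_⟩
  refine le_trans (card_le_card ?_) (hPR s hs0 hsb _ hXk)
  intro i hi
  rw [mem_inter, mem_A] at hi
  rw [mem_filter]
  refine ⟨mem_univ _, Hit.of_disjoint hi.2 (by omega) ?_⟩
  have h3 := opts_subset_HGam (L := L) (rho := rho) hi.1
  rw [Finset.disjoint_left]
  intro x hx hx2
  rw [mem_sdiff] at hx2
  exact hx2.2 (h3 hx)

/-- M2c -/
theorem EH : S_EH := by
  intro b N P L rho Z hG hI hPR hL hZU hZA
  by_contra hc
  push Not at hc
  have h1 := gap b N P L rho Z hG hI hPR hL hZU hZA (by omega)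
  have h2 := hI.hall Z h1
  omega

section
variable {b N : ℕ} {P : Prm} {L : Lists b N} {rho : St b N}

theorem tight_empty : Tight P L rho ∅ := by
  refine ⟨⟨empty_subset _, by simp⟩, ?_⟩
  simp [Gam]

theorem Rel.subset {Z Z' : Finset (Fin (N + 1))} (h : Rel P rho Z) (h' : Z' ⊆ Z) :
    Rel P rho Z' :=
  ⟨h'.trans h.1, (card_le_card (inter_subset_inter_right h')).trans h.2⟩

theorem tight_union (hG : P.Good b N) (hI : Inv P L rho) (hPR : PRnow P L rho)
    (hL : ¬ Late P rho) {Z1 Z2 : Finset (Fin (N + 1))} (h1 : Tight P L rho Z1)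
    (h2 : Tight P L rho Z2) : Tight P L rho (Z1 ∪ Z2) := by
  have hc1 := card_union_add_card_inter Z1 Z2
  have hc2 := card_union_add_card_inter (Gam L rho Z1) (Gam L rho Z2)
  have hi : (Z1 ∩ Z2).card ≤ (Gam L rho (Z1 ∩ Z2)).card :=
    hI.hall _ (h1.1.subset inter_subset_left)
  have hii : (Gam L rho (Z1 ∩ Z2)).card ≤ (Gam L rho Z1 ∩ Gam L rho Z2).card :=
    card_le_card (subset_inter (Gam_mono inter_subset_left) (Gam_mono inter_subset_right))
  have e1 := h1.2
  have e2 := h2.2
  have hu : (Gam L rho (Z1 ∪ Z2)).card ≤ (Z1 ∪ Z2).card := by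
    rw [Gam_union]
    omega
  have hA : ((Z1 ∪ Z2) ∩ A rho (lev P rho)).card ≤ 2 * P.z (lev P rho) + 1 := by
    rw [union_inter_distrib_right]
    have h3 := card_union_le (Z1 ∩ A rho (lev P rho)) (Z2 ∩ A rho (lev P rho))
    have h4 := h1.1.2
    have h5 := h2.1.2
    omega
  have hR := gap b N P L rho (Z1 ∪ Z2) hG hI hPR hL (union_subset h1.1.1 h2.1.1) hA hu
  exact ⟨hR, le_antisymm hu (hI.hall _ hR)⟩

theorem tight_biUnion (hG : P.Good b N) (hI : Inv P L rho) (hPR : PRnow P L rho)
    (hL : ¬ Late P rho) (F : Finset (Finset (Fin (N + 1)))) (hF : ∀ Z ∈ F, Tight P L rho Z) :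
    Tight P L rho (F.biUnion id) := by
  induction F using Finset.induction_on with
  | empty => simpa using tight_empty
  | insert a s ha ih =>
    rw [biUnion_insert]
    exact tight_union hG hI hPR hL (hF a (mem_insert_self _ _))
      (ih fun Z hZ => hF Z (mem_insert_of_mem hZ))

end

/-- M2a -/
theorem T_spec : S_T := by
  intro b N P L rho p hG hI hPR hL
  refine ⟨?_, ?_, ?_⟩
  · unfold T
    refine tight_biUnion hG hI hPR hL _ ?_
    intro Z hZ
    rw [mem_filter] at hZ
    exact hZ.2.1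
  · intro hp
    unfold T at hp
    rw [mem_biUnion] at hp
    obtain ⟨Z, hZ, hpZ⟩ := hp
    rw [mem_filter] at hZ
    exact hZ.2.2 hpZ
  · intro Z hZ hp x hx
    unfold T
    rw [mem_biUnion]
    exact ⟨Z, by rw [mem_filter]; exact ⟨mem_univ _, hZ, hp⟩, hx⟩

/-- M2d -/
theorem choice : S_choice := by
  intro b N P L rho p hG hI hPR hL hp
  obtain ⟨hT, hpT, -⟩ := T_spec b N P L rho p hG hI hPR hL
  have hsub : insert p (T P L rho p) ⊆ U rho := by
    intro x hx
    rw [mem_insert] at hx
    rcases hx with rfl | hx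
    · exact mem_U.mpr hp
    · exact hT.1.1 hx
  have hA : (insert p (T P L rho p) ∩ A rho (lev P rho)).card ≤ 2 * P.z (lev P rho) + 1 := by
    have h1 : insert p (T P L rho p) ∩ A rho (lev P rho) ⊆
        insert p (T P L rho p ∩ A rho (lev P rho)) := by
      intro x hx
      rw [mem_inter, mem_insert] at hx
      rw [mem_insert, mem_inter]
      rcases hx.1 with h | h
      · exact Or.inl h
      · exact Or.inr ⟨h, hx.2⟩
    have h2 := card_le_card h1
    have h3 := card_insert_le p (T P L rho p ∩ A rho (lev P rho))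
    have h4 := hT.1.2
    omega
  have h1 := EH b N P L rho _ hG hI hPR hL hsub hA
  rw [card_insert_of_notMem hpT] at h1
  have h2 := hT.2
  have h3 : ∃ h ∈ Gam L rho (insert p (T P L rho p)), h ∉ Gam L rho (T P L rho p) := by
    by_contra hc
    push Not at hc
    have := card_le_card (s := Gam L rho (insert p (T P L rho p)))
      (t := Gam L rho (T P L rho p)) hc
    omega
  obtain ⟨h, hh, hn⟩ := h3
  rw [mem_Gam] at hh
  obtain ⟨⟨i, hi, hio⟩, hH⟩ := hh
  rw [mem_insert] at hi
  rcases hi with rfl | hi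
  · obtain ⟨y, hy, rfl⟩ := mem_opts.mp hio
    exact ⟨y, hy, hH, hn⟩
  · exact absurd (mem_Gam.mpr ⟨⟨i, hi, hio⟩, hH⟩) hn

end Pool.Agent.L0h36.TR
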