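import Pool.Agent.L0h36.TR.Stmts
import Pool.Agent.L0h36.TR.Cells

/-! M2c: the invariant holds initially. -/

set_option autoImplicit false

namespace Pool.Agent.L0h36.TR

open Finset Classical

theorem s_init : S_init := by
  intro b N P L y0 y1 hG hN hH
  have hb2 : 2 ≤ b := hG.s0_two.trans hG.s0_le
  have hA : ∀ s, s ≤ b → A (fun _ => bot : St b N) s = univ := by
    intro s hs
    ext i
    simp only [mem_A, mem_univ, iff_true]
    rw [dm_bot]; exact hs
  have hnl : ¬ Late (b := b) (N := N) P (fun _ => bot) := by
    intro h
    have := h b hG.s0_le le_rfl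
    rw [hA b le_rfl, card_univ, Fintype.card_fin] at this
    have := hG.al_b
    omega
  have hlev : lev (b := b) (N := N) P (fun _ => bot) = b := by
    refine le_antisymm (lev_le P) (le_lev le_rfl hG.s0_le ?_)
    rw [hA b le_rfl, card_univ, Fintype.card_fin]
    exact hG.al_b
  refine ⟨⟨?_, ?_⟩, hnl⟩
  · intro i i' h
    exfalso
    have : dm (bot : Cell b) = b := dm_bot
    have h' : dm (bot : Cell b) = 0 := h
    omega
  · intro Z hZ
    obtain ⟨-, hZ2⟩ := hZ
    rw [hlev, hA b le_rfl, inter_univ] at hZ2
    have hZN : Z.card ≤ N := hZ2.trans hG.zb
    have hHe : ∀ x, x ∉ H L (fun _ => bot : St b N) := by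
      intro x hx
      rw [mem_H] at hx
      obtain ⟨i, hi, -⟩ := hx
      have : dm (bot : Cell b) = b := dm_bot
      have h' : dm (bot : Cell b) = 0 := hi
      omega
    have hmem : ∀ i ∈ Z, ∀ y, L i y ∈ Gam L (fun _ => bot : St b N) Z := by
      intro i hi y
      rw [mem_Gam]
      refine ⟨⟨i, hi, ?_⟩, hHe _⟩
      rw [mem_opts]
      exact ⟨y, by rw [pts_bot]; exact mem_univ _, rfl⟩
    have hNpos : 0 < N := by omega
    by_cases hl : Fin.last N ∈ Z
    · -- the last pigeon is in Z
      set Z0 := Z.erase (Fin.last N) with hZ0
      have hc0 : Z0.card + 1 = Z.card := card_erase_add_one hl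
      have hval : ∀ i ∈ Z0, (L i y0).val = i.val := by
        intro i hi
        rw [hH.1 i, Nat.mod_eq_of_lt]
        have h1 := i.isLt
        have h2 : i ≠ Fin.last N := (mem_erase.mp hi).1
        have h3 : i.val ≠ N := fun h => h2 (Fin.ext h)
        omega
      by_cases he : Z0 = ∅
      · rw [he, card_empty] at hc0
        rw [← hc0]
        exact card_pos.mpr ⟨_, hmem _ hl y0⟩
      · have hinj : Set.InjOn (fun i => L i y0) (Z0 : Set (Fin (N + 1))) := by
          intro i hi j hj hij
          have h1 := hval i hi
          have h2 := hval j hj
          have h3 : L i y0 = L j y0 := hij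
          rw [h3, h2] at h1
          exact Fin.ext h1.symm
        have hcI : (Z0.image (fun i => L i y0)).card = Z0.card := card_image_of_injOn hinj
        have hex : ∃ x ∈ Z0, L x y1 ∉ Z0.image (fun i => L i y0) := by
          by_contra hcon
          push Not at hcon
          have hstep : ∀ v, (∃ i ∈ Z0, i.val = v) → ∃ i ∈ Z0, i.val = (v + 1) % N := by
            rintro v ⟨i, hi, rfl⟩
            have h1 := hcon i hi
            rw [mem_image] at h1
            obtain ⟨j, hj, hji⟩ := h1
            refine ⟨j, hj, ?_⟩
            rw [← hval j hj, hji, hH.2 i]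
          obtain ⟨i0, hi0⟩ := Finset.nonempty_iff_ne_empty.mpr he
          have hall : ∀ k, ∃ i ∈ Z0, i.val = (i0.val + k) % N := by
            intro k
            induction k with
            | zero =>
              refine ⟨i0, hi0, ?_⟩
              have := (L i0 y0).isLt
              rw [hval i0 hi0] at this
              exact (Nat.mod_eq_of_lt (a := i0.val + 0) this).symm
            | succ k ih =>
              obtain ⟨j, hj, hj2⟩ := hstep _ ih
              refine ⟨j, hj, ?_⟩
              rw [hj2, Nat.mod_add_mod]
              congr 1
          have hlt : i0.val < N := by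
            have := (L i0 y0).isLt
            rw [hval i0 hi0] at this
            exact this
          have hsub : range N ⊆ Z0.image (fun i => i.val) := by
            intro w hw
            rw [mem_range] at hw
            obtain ⟨j, hj, hj2⟩ := hall (N - i0.val + w)
            rw [mem_image]
            refine ⟨j, hj, ?_⟩
            rw [hj2]
            have : i0.val + (N - i0.val + w) = w + N := by omega
            rw [this, Nat.add_mod_right, Nat.mod_eq_of_lt hw]
          have h1 := card_le_card hsub
          rw [card_range] at h1
          have h2 := card_image_le (s := Z0) (f := fun i => i.val)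
          omega
        obtain ⟨x, hx, hx2⟩ := hex
        have hsub : insert (L x y1) (Z0.image (fun i => L i y0)) ⊆
            Gam L (fun _ => bot : St b N) Z := by
          intro h hh
          rw [mem_insert, mem_image] at hh
          rcases hh with rfl | ⟨i, hi, rfl⟩
          · exact hmem x (mem_of_mem_erase hx) y1
          · exact hmem i (mem_of_mem_erase hi) y0
        have h1 := card_le_card hsub
        rw [card_insert_of_notMem hx2, hcI] at h1
        omega
    · have hval : ∀ i ∈ Z, (L i y0).val = i.val := by
        intro i hi
        rw [hH.1 i, Nat.mod_eq_of_lt]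
        have h1 := i.isLt
        have h2 : i ≠ Fin.last N := by rintro rfl; exact hl hi
        have h3 : i.val ≠ N := fun h => h2 (Fin.ext h)
        omega
      have hinj : Set.InjOn (fun i => L i y0) (Z : Set (Fin (N + 1))) := by
        intro i hi j hj hij
        have h1 := hval i hi
        have h2 := hval j hj
        have h3 : L i y0 = L j y0 := hij
        rw [h3, h2] at h1
        exact Fin.ext h1.symm
      rw [← card_image_of_injOn hinj]
      apply card_le_card
      intro h hh
      rw [mem_image] at hh
      obtain ⟨i, hi, rfl⟩ := hh
      exact hmem i hi y0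

end Pool.Agent.L0h36.TR
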