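import Pool.Agent.L0h36.TR.Stmts
import Pool.Agent.L0h36.TR.Cells

/-! The exponential moment bound (module M6). -/

set_option autoImplicit false

namespace Pool.Agent.L0h36.TR

open Finset Classical

/-! ### the value -/

section value
variable {b : ℕ} (bad : Cell b → Prop)

theorem mgf_V_eq (r : Cell b) : V bad r = if bad r then 1 else
    (univ.filter (fun j => r j = none)).fold max 0
      (fun j => (V bad (setBit r j false) + V bad (setBit r j true)) / 2) := by
  unfold V
  cases hd : dm r with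
  | zero =>
    have : (univ.filter (fun j => r j = none)) = ∅ := by
      unfold dm at hd; exact card_eq_zero.mp hd
    rw [this]; simp [Vn]
  | succ n =>
    rw [Vn]
    by_cases hb : bad r
    · simp [hb]
    · simp only [hb, if_false]
      refine fold_congr ?_
      intro j hj
      rw [mem_filter] at hj
      have h0 := dm_setBit false hj.2
      have h1 := dm_setBit true hj.2
      have h0' : dm (setBit r j false) = n := by omega
      have h1' : dm (setBit r j true) = n := by omega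
      rw [h0', h1']

theorem mgf_V_nonneg (r : Cell b) : 0 ≤ V bad r := by
  rw [mgf_V_eq]
  split_ifs
  · exact zero_le_one
  · exact (Finset.le_fold_max _).2 (Or.inl le_rfl)

theorem mgf_V_le_one : ∀ r : Cell b, V bad r ≤ 1 := by
  intro r
  induction hn : dm r using Nat.strong_induction_on generalizing r with
  | _ n ih =>
    rw [mgf_V_eq]
    split_ifs
    · exact le_rfl
    · refine (Finset.fold_max_le _).2 ⟨zero_le_one, fun j hj => ?_⟩
      rw [mem_filter] at hj
      have h0 := dm_setBit false hj.2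
      have h1 := dm_setBit true hj.2
      have a0 := ih (dm (setBit r j false)) (by omega) _ rfl
      have a1 := ih (dm (setBit r j true)) (by omega) _ rfl
      linarith

/-- the pointwise inequality -/
theorem mgf_pointwise (r : Cell b) {lam : ℝ} (hlam : 0 ≤ lam) :
    Real.exp (lam * V bad r) - 1 ≤ (if bad r then (1 : ℝ) else 0) * Real.exp lam +
      ∑ j ∈ univ.filter (fun j => r j = none),
        (Real.exp (lam / 2 * V bad (setBit r j false)) *
          Real.exp (lam / 2 * V bad (setBit r j true)) - 1) := by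
  have hterm : ∀ j, 0 ≤ Real.exp (lam / 2 * V bad (setBit r j false)) *
          Real.exp (lam / 2 * V bad (setBit r j true)) - 1 := by
    intro j
    rw [← Real.exp_add]
    have h0 := mgf_V_nonneg bad (setBit r j false)
    have h1 := mgf_V_nonneg bad (setBit r j true)
    have : 0 ≤ lam / 2 * V bad (setBit r j false) + lam / 2 * V bad (setBit r j true) := by
      positivity
    have := Real.one_le_exp this
    linarith
  have hsum : 0 ≤ ∑ j ∈ univ.filter (fun j => r j = none),
        (Real.exp (lam / 2 * V bad (setBit r j false)) *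
          Real.exp (lam / 2 * V bad (setBit r j true)) - 1) :=
    sum_nonneg fun j _ => hterm j
  by_cases hb : bad r
  · rw [if_pos hb]
    have h1 : V bad r = 1 := by rw [mgf_V_eq, if_pos hb]
    rw [h1, mul_one]
    have := Real.exp_pos lam
    linarith
  · rw [if_neg hb, zero_mul, zero_add]
    have hV := mgf_V_eq bad r
    rw [if_neg hb] at hV
    have h2 := (Finset.le_fold_max (s := univ.filter (fun j => r j = none)) (b := (0 : ℝ))
      (f := fun j => (V bad (setBit r j false) + V bad (setBit r j true)) / 2)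
      (V bad r)).1 hV.le
    rcases h2 with h2 | ⟨j, hj, h2⟩
    · have h3 : V bad r = 0 := le_antisymm h2 (mgf_V_nonneg bad r)
      rw [h3, mul_zero, Real.exp_zero, sub_self]
      exact hsum
    · refine le_trans ?_ (single_le_sum (fun i _ => hterm i) hj)
      rw [← Real.exp_add]
      have : lam * V bad r ≤ lam / 2 * V bad (setBit r j false) +
          lam / 2 * V bad (setBit r j true) := by
        have := mul_le_mul_of_nonneg_left h2 hlam
        linarith
      have := Real.exp_le_exp.2 this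
      linarith

end value

section avg
variable {b N : ℕ}

theorem mgf_V_zero {R : Cube b → Fin N} {d : ℕ} {X : Finset (Fin N)} :
    ∀ r : Cell b, dm r < d → V (bad2 R d X) r = 0 := by
  intro r
  induction hn : dm r using Nat.strong_induction_on generalizing r with
  | _ n ih =>
    intro hd
    refine le_antisymm ?_ (mgf_V_nonneg _ _)
    rw [mgf_V_eq, if_neg (fun h => by have := h.1; omega)]
    refine (Finset.fold_max_le _).2 ⟨le_rfl, fun j hj => ?_⟩
    rw [mem_filter] at hj
    have h0 := dm_setBit false hj.2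
    have h1 := dm_setBit true hj.2
    rw [ih (dm (setBit r j false)) (by omega) _ rfl (by omega),
      ih (dm (setBit r j true)) (by omega) _ rfl (by omega)]
    simp

theorem mgf_bad_congr {R R' : Cube b → Fin N} {d : ℕ} {X : Finset (Fin N)} {r : Cell b}
    (h : ∀ y ∈ pts r, R y = R' y) : bad2 R d X r ↔ bad2 R' d X r := by
  unfold bad2
  have : ∀ j v, r j = none → (pts (setBit r j v)).filter (fun y => R y ∈ X) =
      (pts (setBit r j v)).filter (fun y => R' y ∈ X) := by
    intro j v hj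
    refine filter_congr fun y hy => ?_
    rw [h y (pts_setBit_subset v hj hy)]
  constructor
  · rintro ⟨h1, j, v, hj, h2⟩
    exact ⟨h1, j, v, hj, by rw [← this j v hj]; exact h2⟩
  · rintro ⟨h1, j, v, hj, h2⟩
    exact ⟨h1, j, v, hj, by rw [this j v hj]; exact h2⟩

theorem mgf_V_congr {R R' : Cube b → Fin N} {d : ℕ} {X : Finset (Fin N)} (r : Cell b)
    (h : ∀ y ∈ pts r, R y = R' y) : V (bad2 R d X) r = V (bad2 R' d X) r := by
  induction hn : dm r using Nat.strong_induction_on generalizing r with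
  | _ n ih =>
    rw [mgf_V_eq, mgf_V_eq]
    have hb := mgf_bad_congr (d := d) (X := X) h
    by_cases hb1 : bad2 R d X r
    · rw [if_pos hb1, if_pos (hb.1 hb1)]
    · rw [if_neg hb1, if_neg (fun hh => hb1 (hb.2 hh))]
      refine fold_congr ?_
      intro j hj
      rw [mem_filter] at hj
      have h0 := dm_setBit false hj.2
      have h1 := dm_setBit true hj.2
      rw [ih _ (by omega) (setBit r j false) (fun y hy => h y (pts_setBit_subset _ hj.2 hy)) rfl,
        ih _ (by omega) (setBit r j true) (fun y hy => h y (pts_setBit_subset _ hj.2 hy)) rfl]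

/-- average over all maps -/
noncomputable def av (f : (Cube b → Fin N) → ℝ) : ℝ :=
  (∑ R, f R) / (Fintype.card (Cube b → Fin N) : ℝ)

theorem card_pos_maps (hN : 1 ≤ N) : (0 : ℝ) < (Fintype.card (Cube b → Fin N) : ℝ) := by
  have : Nonempty (Fin N) := ⟨⟨0, hN⟩⟩
  exact_mod_cast Fintype.card_pos

theorem av_mono {f g : (Cube b → Fin N) → ℝ} (h : ∀ R, f R ≤ g R) : av f ≤ av g := by
  unfold av
  exact div_le_div_of_nonneg_right (sum_le_sum fun R _ => h R) (Nat.cast_nonneg _)

theorem av_nonneg {f : (Cube b → Fin N) → ℝ} (h : ∀ R, 0 ≤ f R) : 0 ≤ av f := by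
  unfold av
  exact div_nonneg (sum_nonneg fun R _ => h R) (Nat.cast_nonneg _)

theorem av_add (f g : (Cube b → Fin N) → ℝ) : av (fun R => f R + g R) = av f + av g := by
  unfold av
  rw [sum_add_distrib, add_div]

theorem av_sub (f g : (Cube b → Fin N) → ℝ) : av (fun R => f R - g R) = av f - av g := by
  unfold av
  rw [sum_sub_distrib, sub_div]

theorem av_const (hN : 1 ≤ N) (c : ℝ) : av (fun _ : Cube b → Fin N => c) = c := by
  unfold av
  rw [sum_const, card_univ, nsmul_eq_mul, mul_div_cancel_left₀ _ (card_pos_maps hN).ne']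

theorem av_mul_const (f : (Cube b → Fin N) → ℝ) (c : ℝ) :
    av (fun R => f R * c) = av f * c := by
  unfold av
  rw [← sum_mul]
  ring

theorem av_sum {ι : Type*} (s : Finset ι) (f : ι → (Cube b → Fin N) → ℝ) :
    av (fun R => ∑ i ∈ s, f i R) = ∑ i ∈ s, av (f i) := by
  unfold av
  rw [sum_comm, sum_div]

/-- exchange of the values on `S` -/
def swp (S : Finset (Cube b)) (p : (Cube b → Fin N) × (Cube b → Fin N)) :
    (Cube b → Fin N) × (Cube b → Fin N) :=
  (fun y => if y ∈ S then p.2 y else p.1 y, fun y => if y ∈ S then p.1 y else p.2 y)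

theorem swp_invol (S : Finset (Cube b)) :
    Function.Involutive (swp (N := N) S) := by
  intro p
  unfold swp
  refine Prod.ext ?_ ?_
  · funext y
    by_cases h : y ∈ S <;> simp [h]
  · funext y
    by_cases h : y ∈ S <;> simp [h]

/-- independence -/
theorem av_mul (hN : 1 ≤ N) (S : Finset (Cube b)) (f g : (Cube b → Fin N) → ℝ)
    (hf : ∀ R R', (∀ y, y ∉ S → R y = R' y) → f R = f R')
    (hg : ∀ R R', (∀ y ∈ S, R y = R' y) → g R = g R') :
    av (fun R => f R * g R) = av f * av g := by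
  have hc := card_pos_maps (b := b) hN
  have h1 : (∑ R, f R) * (∑ R, g R) =
      (Fintype.card (Cube b → Fin N) : ℝ) * ∑ R, f R * g R := by
    rw [sum_mul_sum, ← Fintype.sum_prod_type']
    rw [← Equiv.sum_comp (Function.Involutive.toPerm _ (swp_invol (N := N) S))
      (fun p : (Cube b → Fin N) × (Cube b → Fin N) => f p.1 * g p.2)]
    have h2 : ∀ p : (Cube b → Fin N) × (Cube b → Fin N),
        f ((Function.Involutive.toPerm _ (swp_invol (N := N) S)) p).1 *
          g ((Function.Involutive.toPerm _ (swp_invol (N := N) S)) p).2 =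
        f p.1 * g p.1 := by
      intro p
      rw [Function.Involutive.coe_toPerm]
      congr 1
      · refine hf _ _ fun y hy => ?_
        simp [swp, hy]
      · refine hg _ _ fun y hy => ?_
        simp [swp, hy]
    rw [sum_congr rfl fun p _ => h2 p, Fintype.sum_prod_type]
    simp only [sum_const, card_univ, nsmul_eq_mul]
    rw [← mul_sum]
  unfold av
  rw [div_mul_div_comm, h1]
  field_simp

theorem av_avoid (hN : 1 ≤ N) (S' : Finset (Cube b)) (X : Finset (Fin N)) :
    av (fun R : Cube b → Fin N => if ∀ y ∈ S', R y ∉ X then (1 : ℝ) else 0) =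
      (((N : ℝ) - X.card) / N) ^ S'.card := by
  have hN0 : (N : ℝ) ≠ 0 := by
    have : N ≠ 0 := by omega
    exact_mod_cast this
  have h1 : (univ.filter fun R : Cube b → Fin N => ∀ y ∈ S', R y ∉ X) =
      Fintype.piFinset (fun y : Cube b => if y ∈ S' then Xᶜ else univ) := by
    ext R
    rw [mem_filter, Fintype.mem_piFinset]
    constructor
    · rintro ⟨_, h⟩ y
      by_cases hy : y ∈ S'
      · simp [hy, h y hy]
      · simp [hy]
    · intro h
      refine ⟨mem_univ _, fun y hy => ?_⟩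
      have := h y
      simpa [hy] using this
  unfold av
  rw [sum_boole, h1, Fintype.card_piFinset, Fintype.card_fun, Fintype.card_fin]
  have hX : X.card ≤ N := by
    have := card_le_univ X
    simpa using this
  have h2 : ((∏ y : Cube b, (if y ∈ S' then Xᶜ else univ : Finset (Fin N)).card : ℕ) : ℝ) =
      ∏ y : Cube b, (if y ∈ S' then ((N : ℝ) - X.card) else N) := by
    push_cast
    refine prod_congr rfl fun y _ => ?_
    by_cases hy : y ∈ S'
    · rw [if_pos hy, if_pos hy, card_compl, Fintype.card_fin, Nat.cast_sub hX]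
    · rw [if_neg hy, if_neg hy, card_univ, Fintype.card_fin]
  rw [h2]
  have h3 : ((N ^ Fintype.card (Cube b) : ℕ) : ℝ) = ∏ _y : Cube b, (N : ℝ) := by
    rw [prod_const, card_univ]
    push_cast
    rfl
  rw [h3, ← prod_div_distrib]
  have h4 : ∀ y : Cube b, (if y ∈ S' then ((N : ℝ) - X.card) else N) / (N : ℝ) =
      if y ∈ S' then ((N : ℝ) - X.card) / N else 1 := by
    intro y
    by_cases hy : y ∈ S'
    · rw [if_pos hy, if_pos hy]
    · rw [if_neg hy, if_neg hy, div_self hN0]
  rw [prod_congr rfl fun y _ => h4 y, prod_ite_mem, univ_inter, prod_const]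

theorem av_avoid_le (hN : 1 ≤ N) {w : ℕ} (hw : 1 ≤ w) (S' : Finset (Cube b))
    {X : Finset (Fin N)} (hX : N ≤ w * X.card) :
    av (fun R : Cube b → Fin N => if ∀ y ∈ S', R y ∉ X then (1 : ℝ) else 0) ≤
      Real.exp (-(S'.card : ℝ) / w) := by
  have hN0 : (0 : ℝ) < N := by exact_mod_cast hN
  have hw0 : (0 : ℝ) < w := by exact_mod_cast hw
  rw [av_avoid hN]
  have hXN : X.card ≤ N := by
    have := card_le_univ X
    simpa using this
  have hXN' : (X.card : ℝ) ≤ N := by exact_mod_cast hXN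
  have hX' : (N : ℝ) ≤ w * X.card := by exact_mod_cast hX
  have h1 : ((N : ℝ) - X.card) / N ≤ Real.exp (-(1 : ℝ) / w) := by
    refine le_trans ?_ (Real.add_one_le_exp _)
    rw [sub_div, div_self hN0.ne', neg_div]
    have : 1 / (w : ℝ) ≤ X.card / N := by
      rw [div_le_div_iff₀ hw0 hN0]
      linarith
    linarith
  have h0 : 0 ≤ ((N : ℝ) - X.card) / N := div_nonneg (by linarith) hN0.le
  refine (pow_le_pow_left₀ h0 h1 _).trans (le_of_eq ?_)
  rw [← Real.exp_nat_mul]
  congr 1
  ring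

theorem av_bad (hN : 1 ≤ N) {w : ℕ} (hw : 1 ≤ w) {X : Finset (Fin N)} (hX : N ≤ w * X.card)
    (d t : ℕ) (ht1 : 1 ≤ t) (r : Cell b) (ht : dm r = t + 1) :
    av (fun R : Cube b → Fin N => if bad2 R d X r then (1 : ℝ) else 0) ≤
      2 * (t + 1) * 4 ^ t * Real.exp (-((2 : ℝ) ^ t - 2) / w) := by
  have hcard : ∀ j v, r j = none → (pts (setBit r j v)).card = 2 ^ t := by
    intro j v hj
    have := dm_setBit v hj
    rw [pts_card]
    congr 1
    omega
  have h2t : 2 ≤ 2 ^ t := by
    calc 2 = 2 ^ 1 := rfl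
      _ ≤ 2 ^ t := Nat.pow_le_pow_right (by norm_num) ht1
  have h1 : ∀ R : Cube b → Fin N, (if bad2 R d X r then (1 : ℝ) else 0) ≤
      ∑ j ∈ univ.filter (fun j => r j = none), ∑ v : Bool,
        ∑ Fs ∈ powersetCard 2 (pts (setBit r j v)),
          (if ∀ y ∈ pts (setBit r j v) \ Fs, R y ∉ X then (1 : ℝ) else 0) := by
    intro R
    have hnn : ∀ (j : Fin b) (v : Bool) (Fs : Finset (Cube b)), (0 : ℝ) ≤
        (if ∀ y ∈ pts (setBit r j v) \ Fs, R y ∉ X then (1 : ℝ) else 0) := by
      intro j v Fs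
      split_ifs
      · exact zero_le_one
      · exact le_rfl
    by_cases hb : bad2 R d X r
    · rw [if_pos hb]
      obtain ⟨_, j, v, hj, hc⟩ := hb
      obtain ⟨Fs, hF1, hF2, hF3⟩ := exists_subsuperset_card_eq (filter_subset
        (fun y => R y ∈ X) (pts (setBit r j v))) hc (by rw [hcard j v hj]; exact h2t)
      have hFm : Fs ∈ powersetCard 2 (pts (setBit r j v)) := mem_powersetCard.2 ⟨hF2, hF3⟩
      have hjm : j ∈ univ.filter (fun j => r j = none) := mem_filter.2 ⟨mem_univ _, hj⟩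
      have hall : ∀ y ∈ pts (setBit r j v) \ Fs, R y ∉ X := by
        intro y hy hyX
        rw [mem_sdiff] at hy
        exact hy.2 (hF1 (mem_filter.2 ⟨hy.1, hyX⟩))
      calc (1 : ℝ) = (if ∀ y ∈ pts (setBit r j v) \ Fs, R y ∉ X then (1 : ℝ) else 0) := by
            rw [if_pos hall]
        _ ≤ ∑ Fs ∈ powersetCard 2 (pts (setBit r j v)),
          (if ∀ y ∈ pts (setBit r j v) \ Fs, R y ∉ X then (1 : ℝ) else 0) :=
            single_le_sum (f := fun Fs => (if ∀ y ∈ pts (setBit r j v) \ Fs, R y ∉ X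
              then (1 : ℝ) else 0)) (fun Fs _ => hnn j v Fs) hFm
        _ ≤ ∑ v : Bool, ∑ Fs ∈ powersetCard 2 (pts (setBit r j v)),
          (if ∀ y ∈ pts (setBit r j v) \ Fs, R y ∉ X then (1 : ℝ) else 0) :=
            single_le_sum (f := fun v => ∑ Fs ∈ powersetCard 2 (pts (setBit r j v)),
              (if ∀ y ∈ pts (setBit r j v) \ Fs, R y ∉ X then (1 : ℝ) else 0))
              (fun v _ => sum_nonneg fun Fs _ => hnn j v Fs) (mem_univ v)
        _ ≤ _ := single_le_sum (f := fun j => ∑ v : Bool,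
              ∑ Fs ∈ powersetCard 2 (pts (setBit r j v)),
              (if ∀ y ∈ pts (setBit r j v) \ Fs, R y ∉ X then (1 : ℝ) else 0))
              (fun j _ => sum_nonneg fun v _ => sum_nonneg fun Fs _ => hnn j v Fs) hjm
    · rw [if_neg hb]
      exact sum_nonneg fun j _ => sum_nonneg fun v _ => sum_nonneg fun Fs _ => hnn j v Fs
  refine (av_mono h1).trans ?_
  rw [av_sum]
  have h3 : ∀ j ∈ univ.filter (fun j => r j = none), av (fun R : Cube b → Fin N => ∑ v : Bool,
        ∑ Fs ∈ powersetCard 2 (pts (setBit r j v)),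
          (if ∀ y ∈ pts (setBit r j v) \ Fs, R y ∉ X then (1 : ℝ) else 0)) ≤
      2 * (4 ^ t * Real.exp (-((2 : ℝ) ^ t - 2) / w)) := by
    intro j hj
    rw [mem_filter] at hj
    rw [av_sum]
    have h4 : ∀ v : Bool, av (fun R : Cube b → Fin N =>
        ∑ Fs ∈ powersetCard 2 (pts (setBit r j v)),
          (if ∀ y ∈ pts (setBit r j v) \ Fs, R y ∉ X then (1 : ℝ) else 0)) ≤
        4 ^ t * Real.exp (-((2 : ℝ) ^ t - 2) / w) := by
      intro v
      rw [av_sum]
      have h5 : ∀ Fs ∈ powersetCard 2 (pts (setBit r j v)), av (fun R : Cube b → Fin N =>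
          (if ∀ y ∈ pts (setBit r j v) \ Fs, R y ∉ X then (1 : ℝ) else 0)) ≤
          Real.exp (-((2 : ℝ) ^ t - 2) / w) := by
        intro Fs hFs
        rw [mem_powersetCard] at hFs
        refine (av_avoid_le hN hw _ hX).trans (le_of_eq ?_)
        rw [card_sdiff_of_subset hFs.1, hFs.2, hcard j v hj.2, Nat.cast_sub h2t]
        push_cast
        rfl
      refine (sum_le_sum h5).trans ?_
      rw [sum_const, card_powersetCard, hcard j v hj.2, nsmul_eq_mul]
      refine mul_le_mul_of_nonneg_right ?_ (Real.exp_pos _).le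
      have : (2 ^ t).choose 2 ≤ 4 ^ t := by
        calc (2 ^ t).choose 2 ≤ (2 ^ t) ^ 2 := Nat.choose_le_pow _ _
          _ = 4 ^ t := by rw [← pow_mul, mul_comm, pow_mul]; norm_num
      exact_mod_cast this
    calc ∑ v : Bool, av (fun R : Cube b → Fin N =>
        ∑ Fs ∈ powersetCard 2 (pts (setBit r j v)),
          (if ∀ y ∈ pts (setBit r j v) \ Fs, R y ∉ X then (1 : ℝ) else 0))
        ≤ ∑ _v : Bool, 4 ^ t * Real.exp (-((2 : ℝ) ^ t - 2) / w) :=
          sum_le_sum fun v _ => h4 v
      _ = 2 * (4 ^ t * Real.exp (-((2 : ℝ) ^ t - 2) / w)) := by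
          rw [sum_const, card_univ, Fintype.card_bool, nsmul_eq_mul]
          norm_num
  refine (sum_le_sum h3).trans (le_of_eq ?_)
  rw [sum_const, nsmul_eq_mul]
  have : (univ.filter (fun j => r j = none)).card = t + 1 := ht
  rw [this]
  push_cast
  ring

/-- one step of the recursion -/
theorem av_step (hN : 1 ≤ N) {w : ℕ} (hw : 1 ≤ w) {X : Finset (Fin N)} (hX : N ≤ w * X.card)
    (d t : ℕ) (ht1 : 1 ≤ t) {lam y : ℝ} (hlam : 0 ≤ lam)
    (hy : ∀ r : Cell b, dm r = t →
      av (fun R : Cube b → Fin N => Real.exp (lam / 2 * V (bad2 R d X) r)) ≤ y)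
    (r : Cell b) (ht : dm r = t + 1) :
    av (fun R : Cube b → Fin N => Real.exp (lam * V (bad2 R d X) r)) ≤
      1 + 2 * (t + 1) * 4 ^ t * Real.exp (-((2 : ℝ) ^ t - 2) / w) * Real.exp lam +
        (t + 1) * (y ^ 2 - 1) := by
  have h1 : ∀ R : Cube b → Fin N, Real.exp (lam * V (bad2 R d X) r) ≤
      1 + ((if bad2 R d X r then (1 : ℝ) else 0) * Real.exp lam +
      ∑ j ∈ univ.filter (fun j => r j = none),
        (Real.exp (lam / 2 * V (bad2 R d X) (setBit r j false)) *
          Real.exp (lam / 2 * V (bad2 R d X) (setBit r j true)) - 1)) := by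
    intro R
    have := mgf_pointwise (bad2 R d X) r hlam
    linarith
  refine (av_mono h1).trans ?_
  rw [av_add, av_const hN, av_add, av_mul_const, av_sum, add_assoc]
  refine add_le_add le_rfl (add_le_add ?_ ?_)
  · exact mul_le_mul_of_nonneg_right (av_bad hN hw hX d t ht1 r ht) (Real.exp_pos _).le
  · have h2 : ∀ j ∈ univ.filter (fun j => r j = none), av (fun R : Cube b → Fin N =>
        (Real.exp (lam / 2 * V (bad2 R d X) (setBit r j false)) *
          Real.exp (lam / 2 * V (bad2 R d X) (setBit r j true)) - 1)) ≤ y ^ 2 - 1 := by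
      intro j hj
      rw [mem_filter] at hj
      have hd0 := dm_setBit false hj.2
      have hd1 := dm_setBit true hj.2
      rw [av_sub, av_const hN]
      refine sub_le_sub ?_ le_rfl
      rw [av_mul hN (pts (setBit r j true))]
      · rw [sq]
        refine mul_le_mul (hy _ (by omega)) (hy _ (by omega))
          (av_nonneg fun R => (Real.exp_pos _).le) ?_
        exact (av_nonneg fun R => (Real.exp_pos _).le).trans (hy (setBit r j false) (by omega))
      · intro R R' h
        rw [mgf_V_congr (R' := R')]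
        intro y hy
        exact h y fun hy' => (Finset.disjoint_left.1 (pts_disj hj.2)) hy hy'
      · intro R R' h
        rw [mgf_V_congr (R' := R')]
        exact h
    refine (sum_le_sum h2).trans (le_of_eq ?_)
    rw [sum_const, nsmul_eq_mul]
    have : (univ.filter (fun j => r j = none)).card = t + 1 := ht
    rw [this]
    push_cast
    ring

end avg

/-! ### numbers -/

theorem mgf_num1 {m : ℕ} (hm : 50 ≤ m) : 4 * m + 3 ≤ 2 ^ m := by
  induction m, hm using Nat.le_induction with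
  | base => norm_num
  | succ m hm ih => rw [pow_succ]; omega

/-- the small error term -/
theorem mgf_E0 {d w : ℕ} (hw : 100 ≤ w) (hdw : d ≤ w) (hw4 : w ^ 4 ≤ 2 ^ d) (t : ℕ)
    (ht : d ≤ t + 1) :
    2 * (t + 1) * 4 ^ t * Real.exp (-((2 : ℝ) ^ t - 2) / w) *
      Real.exp (2 ^ (t + 1) / (4 * w)) ≤ ((4 * (d + w : ℝ)) ^ (w + 1))⁻¹ := by
  have hw0 : (100 : ℝ) ≤ w := by exact_mod_cast hw
  have hwp : (0 : ℝ) < w := by linarith
  have hd0 : (0 : ℝ) ≤ d := Nat.cast_nonneg _
  have hdw' : (d : ℝ) ≤ w := by exact_mod_cast hdw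
  obtain ⟨u, hu⟩ := Nat.exists_eq_add_of_le ht
  have h1 : 2 * ((t : ℝ) + 1) * 4 ^ t ≤ Real.exp (3 * (t + 1)) := by
    have e1 : (t : ℝ) + 1 ≤ Real.exp (t + 1) := by
      have := Real.add_one_le_exp ((t : ℝ) + 1)
      linarith
    have e2 : (2 : ℝ) ≤ Real.exp 1 := by
      have := Real.add_one_le_exp (1 : ℝ)
      linarith
    have e3 : (4 : ℝ) ^ (t + 1) ≤ Real.exp (2 * (t + 1)) := by
      have : (4 : ℝ) ≤ Real.exp 2 := by
        have h := mul_le_mul e2 e2 (by norm_num) (Real.exp_pos _).le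
        rw [← Real.exp_add] at h
        norm_num at h
        exact h
      calc (4 : ℝ) ^ (t + 1) ≤ Real.exp 2 ^ (t + 1) := pow_le_pow_left₀ (by norm_num) this _
        _ = Real.exp (2 * (t + 1)) := by
          rw [← Real.exp_nat_mul]
          congr 1
          push_cast
          ring
    calc 2 * ((t : ℝ) + 1) * 4 ^ t ≤ ((t : ℝ) + 1) * 4 ^ (t + 1) := by
          rw [pow_succ]
          have : (0 : ℝ) ≤ ((t : ℝ) + 1) * 4 ^ t := by positivity
          linarith
      _ ≤ Real.exp (t + 1) * Real.exp (2 * (t + 1)) :=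
          mul_le_mul e1 e3 (by positivity) (Real.exp_pos _).le
      _ = Real.exp (3 * (t + 1)) := by
          rw [← Real.exp_add]
          congr 1
          ring
  have h2 : (4 * (d + w : ℝ)) ^ (w + 1) ≤ Real.exp ((w + 1) * (4 * (d + w))) := by
    have e1 : 4 * (d + w : ℝ) ≤ Real.exp (4 * (d + w)) := by
      have := Real.add_one_le_exp (4 * (d + w : ℝ))
      linarith
    calc (4 * (d + w : ℝ)) ^ (w + 1) ≤ Real.exp (4 * (d + w)) ^ (w + 1) :=
          pow_le_pow_left₀ (by positivity) e1 _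
      _ = _ := by
          rw [← Real.exp_nat_mul]
          push_cast
          rfl
  have h3 : 0 < (4 * (d + w : ℝ)) ^ (w + 1) := by positivity
  rw [le_inv_comm₀ (by positivity) h3] 
  refine h2.trans ?_
  rw [le_inv_comm₀ (Real.exp_pos _) (by positivity), ← Real.exp_neg]
  refine (mul_le_mul_of_nonneg_right (mul_le_mul_of_nonneg_right h1 (Real.exp_pos _).le)
    (Real.exp_pos _).le).trans ?_
  rw [← Real.exp_add, ← Real.exp_add, Real.exp_le_exp]
  -- the comparison of exponents
  have h4 : (w : ℝ) ^ 3 / 4 * 2 ^ u ≤ 2 ^ (t + 1) / (4 * w) := by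
    rw [le_div_iff₀ (by positivity), hu, pow_add]
    have : (w : ℝ) ^ 4 ≤ 2 ^ d := by exact_mod_cast hw4
    calc (w : ℝ) ^ 3 / 4 * 2 ^ u * (4 * w) = (w : ℝ) ^ 4 * 2 ^ u := by ring
      _ ≤ 2 ^ d * 2 ^ u := mul_le_mul_of_nonneg_right this (by positivity)
  have h5 : (t : ℝ) + 1 = d + u := by exact_mod_cast hu
  have h6 : (u : ℝ) ≤ 2 ^ u := by
    have := Nat.lt_two_pow_self (n := u)
    exact_mod_cast this.le
  have h7 : (1 : ℝ) ≤ 2 ^ u := one_le_pow₀ (by norm_num)
  have h8 : -((2 : ℝ) ^ t - 2) / w + 2 ^ (t + 1) / (4 * w) =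
      2 / w - 2 ^ (t + 1) / (4 * w) := by
    rw [pow_succ]
    field_simp
    ring
  have h9 : 2 / (w : ℝ) ≤ 1 := by
    rw [div_le_one hwp]
    linarith
  have h10 : (w : ℝ) ^ 3 / 4 ≥ 25 * w ^ 2 := by nlinarith [sq_nonneg (w : ℝ)]
  have h11 : 3 * ((t : ℝ) + 1) + 1 + (w + 1) * (4 * (d + w)) ≤ (w : ℝ) ^ 3 / 4 * 2 ^ u := by
    rw [h5]
    have a1 : (w + 1 : ℝ) * (4 * (d + w)) ≤ 16 * w ^ 2 := by nlinarith
    have a2 : 3 * (d + u : ℝ) ≤ 3 * w + 3 * 2 ^ u := by linarith
    have a3 : 16 * (w : ℝ) ^ 2 + 3 * w + 1 ≤ 22 * w ^ 2 := by nlinarith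
    have a4 : 22 * (w : ℝ) ^ 2 ≤ 22 * w ^ 2 * 2 ^ u := by
      have : (0 : ℝ) ≤ 22 * w ^ 2 := by positivity
      nlinarith
    have a5 : (3 : ℝ) * 2 ^ u ≤ 3 * w ^ 2 * 2 ^ u := by
      have : (1 : ℝ) ≤ w ^ 2 := by nlinarith
      have h7' : (0 : ℝ) < 2 ^ u := by positivity
      nlinarith
    have a6 : 25 * (w : ℝ) ^ 2 * 2 ^ u ≤ (w : ℝ) ^ 3 / 4 * 2 ^ u :=
      mul_le_mul_of_nonneg_right h10 (by positivity)
    linarith
  have h12 : 3 * ((t : ℝ) + 1) + -((2 : ℝ) ^ t - 2) / w + 2 ^ (t + 1) / (4 * w) =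
      3 * ((t : ℝ) + 1) + (2 / w - 2 ^ (t + 1) / (4 * w)) := by
    rw [← h8]; ring
  rw [h12]
  linarith

theorem mgf_C {b N d w : ℕ} (hN : 1 ≤ N) {X : Finset (Fin N)} (hX : N ≤ w * X.card)
    (hd : 2 ≤ d) (hw : 100 ≤ w) (hdw : d ≤ w) (hw4 : w ^ 4 ≤ 2 ^ d) :
    ∀ u, u ≤ w + 1 → ∀ r : Cell b, dm r = d - 1 + u →
      av (fun R : Cube b → Fin N =>
        Real.exp (2 ^ (d - 1 + u) / (4 * w) * V (bad2 R d X) r)) ≤
        1 + ((4 * (d + w : ℝ)) ^ (w + 1 - u))⁻¹ := by
  intro u
  have hQ4 : (4 : ℝ) ≤ 4 * (d + w : ℝ) := by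
    have h1 : (100 : ℝ) ≤ w := by exact_mod_cast hw
    have h2 : (0 : ℝ) ≤ d := Nat.cast_nonneg _
    linarith
  induction u with
  | zero =>
    intro _ r hr
    have h1 : ∀ R : Cube b → Fin N,
        Real.exp (2 ^ (d - 1 + 0) / (4 * w) * V (bad2 R d X) r) = 1 := by
      intro R
      rw [mgf_V_zero r (by omega), mul_zero, Real.exp_zero]
    simp only [h1]
    rw [av_const hN]
    have : 0 ≤ ((4 * (d + w : ℝ)) ^ (w + 1 - 0))⁻¹ := by positivity
    linarith
  | succ u ih =>
    intro hu r hr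
    set Q : ℝ := 4 * (d + w : ℝ) with hQ
    obtain ⟨K, hK⟩ := Nat.exists_eq_add_of_le (show u ≤ w by omega)
    have e1 : w + 1 - u = K + 1 := by omega
    have e2 : w + 1 - (u + 1) = K := by omega
    rw [e1] at ih
    rw [e2]
    set δ : ℝ := (Q ^ (K + 1))⁻¹ with hδ
    have hlam2 : (2 : ℝ) ^ (d - 1 + u + 1) / (4 * w) / 2 = 2 ^ (d - 1 + u) / (4 * w) := by
      rw [pow_succ]; ring
    have hstep := av_step (b := b) hN (show 1 ≤ w by omega) hX d (d - 1 + u) (by omega)
      (lam := 2 ^ (d - 1 + u + 1) / (4 * w)) (y := 1 + δ) (by positivity)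
      (by
        intro r' hr'
        rw [hlam2]
        exact ih (by omega) r' hr') r hr
    have hE := mgf_E0 hw hdw hw4 (d - 1 + u) (by omega)
    rw [← add_assoc]
    refine hstep.trans ?_
    rw [← hQ] at hE
    have hQ0 : 0 < Q := by linarith
    have hδ0 : 0 < δ := by positivity
    have hδ1 : δ ≤ 1 := by
      rw [hδ]
      exact inv_le_one_of_one_le₀ (one_le_pow₀ (by linarith))
    have hE' : (Q ^ (w + 1))⁻¹ ≤ δ := by
      rw [hδ]
      exact inv_anti₀ (by positivity) (pow_le_pow_right₀ (by linarith) (by omega))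
    have hQδ : (Q ^ K)⁻¹ = Q * δ := by
      rw [hδ, pow_succ]
      field_simp
    have hd1 : ((d - 1 + u : ℕ) : ℝ) + 1 ≤ Q / 4 := by
      have : d - 1 + u + 1 ≤ d + w := by omega
      have h' : (((d - 1 + u + 1 : ℕ)) : ℝ) ≤ ((d + w : ℕ) : ℝ) := by exact_mod_cast this
      rw [Nat.cast_add_one, Nat.cast_add d w] at h'
      rw [hQ]
      linarith
    rw [hQδ]
    have h3 : (((d - 1 + u : ℕ) : ℝ) + 1) * ((1 + δ) ^ 2 - 1) ≤ Q / 4 * (3 * δ) := by
      refine mul_le_mul hd1 ?_ ?_ (by positivity)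
      · nlinarith
      · nlinarith
    have h4 : δ + Q / 4 * (3 * δ) ≤ Q * δ := by nlinarith
    linarith

theorem mgf_D {b N d w : ℕ} (hN : 1 ≤ N) {X : Finset (Fin N)} (hX : N ≤ w * X.card)
    (hd : 2 ≤ d) (hw : 100 ≤ w) (hdw : d ≤ w) (hw4 : w ^ 4 ≤ 2 ^ d) :
    ∀ u, ∀ r : Cell b, dm r = d + w + u →
      av (fun R : Cube b → Fin N =>
        Real.exp (2 ^ (d + w + u) / (4 * w) * V (bad2 R d X) r)) ≤
        Real.exp (2 ^ u * (d + w + 3) - (d + w + u + 2)) := by
  intro u
  have hw' : (100 : ℝ) ≤ w := by exact_mod_cast hw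
  have hd' : (0 : ℝ) ≤ d := Nat.cast_nonneg _
  induction u with
  | zero =>
    intro r hr
    have h1 := mgf_C (b := b) hN hX hd hw hdw hw4 (w + 1) le_rfl r (by omega)
    have h2 : d - 1 + (w + 1) = d + w + 0 := by omega
    rw [h2, Nat.sub_self, pow_zero, inv_one] at h1
    refine h1.trans ?_
    have h3 : (2 : ℝ) ^ 0 * (d + w + 3) - (d + w + (0 : ℕ) + 2) = 1 := by
      push_cast
      ring
    rw [h3]
    have := Real.add_one_le_exp (1 : ℝ)
    linarith
  | succ u ih =>
    intro r hr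
    have hlam2 : (2 : ℝ) ^ (d + w + u + 1) / (4 * w) / 2 = 2 ^ (d + w + u) / (4 * w) := by
      rw [pow_succ]; ring
    set g : ℝ := 2 ^ u * (d + w + 3) - (d + w + u + 2) with hg
    have hstep := av_step (b := b) hN (show 1 ≤ w by omega) hX d (d + w + u) (by omega)
      (lam := 2 ^ (d + w + u + 1) / (4 * w)) (y := Real.exp g) (by positivity)
      (by
        intro r' hr'
        rw [hlam2]
        exact ih r' hr') r hr
    have hE := mgf_E0 hw hdw hw4 (d + w + u) (by omega)
    rw [← add_assoc]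
    refine hstep.trans ?_
    have hQ1 : (1 : ℝ) ≤ 4 * (d + w : ℝ) := by linarith
    have hE1 : ((4 * (d + w : ℝ)) ^ (w + 1))⁻¹ ≤ 1 := inv_le_one_of_one_le₀ (one_le_pow₀ hQ1)
    have h1 : ((d + w + u : ℕ) : ℝ) + 1 ≤ Real.exp ((d + w + u : ℕ) : ℝ) :=
      Real.add_one_le_exp _
    have h2 : (2 : ℝ) ≤ ((d + w + u : ℕ) : ℝ) + 1 := by
      push_cast
      have : (0 : ℝ) ≤ u := Nat.cast_nonneg _
      linarith
    have h3 : Real.exp g ^ 2 = Real.exp (2 * g) := by
      rw [← Real.exp_nat_mul]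
      push_cast
      rfl
    have h4 : (((d + w + u : ℕ) : ℝ) + 1) * Real.exp g ^ 2 ≤
        Real.exp ((d + w + u : ℕ) : ℝ) * Real.exp (2 * g) := by
      rw [h3]
      exact mul_le_mul_of_nonneg_right h1 (Real.exp_pos _).le
    rw [← Real.exp_add] at h4
    have h5 : ((d + w + u : ℕ) : ℝ) + 2 * g ≤
        2 ^ (u + 1) * (d + w + 3) - (d + w + (u + 1 : ℕ) + 2) := by
      rw [hg]
      push_cast
      rw [pow_succ]
      linarith
    have h6 := Real.exp_le_exp.2 h5
    have h7 : (((d + w + u : ℕ) : ℝ) + 1) * (Real.exp g ^ 2 - 1) =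
        (((d + w + u : ℕ) : ℝ) + 1) * Real.exp g ^ 2 - (((d + w + u : ℕ) : ℝ) + 1) := by ring
    rw [h7]
    linarith

/-- Jensen for the exponential function -/
theorem exp_av_le {b N : ℕ} (hN : 1 ≤ N) (f : (Cube b → Fin N) → ℝ) :
    Real.exp (av f) ≤ av (fun R => Real.exp (f R)) := by
  have h1 : ∀ R, Real.exp (av f) * (1 + f R - av f) ≤ Real.exp (f R) := by
    intro R
    have := Real.add_one_le_exp (f R - av f)
    calc Real.exp (av f) * (1 + f R - av f) ≤ Real.exp (av f) * Real.exp (f R - av f) :=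
          mul_le_mul_of_nonneg_left (by linarith) (Real.exp_pos _).le
      _ = Real.exp (f R) := by
          rw [← Real.exp_add]
          congr 1
          ring
  refine le_trans (le_of_eq ?_) (av_mono h1)
  have h2 : (fun R : Cube b → Fin N => Real.exp (av f) * (1 + f R - av f)) =
      fun R => f R * Real.exp (av f) + (1 - av f) * Real.exp (av f) := by
    funext R
    ring
  rw [h2, av_add, av_mul_const, av_const hN]
  ring

theorem s_mgf : S_mgf := by
  intro b N d X hd hdb hN hX
  set w := 2 ^ (d / 4) with hw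
  have hm : 50 ≤ d / 4 := by omega
  have hw1 : 4 * (d / 4) + 3 ≤ w := mgf_num1 hm
  have hdw : d ≤ w := by omega
  have hw100 : 100 ≤ w := by omega
  have hw4 : w ^ 4 ≤ 2 ^ d := by
    rw [hw, ← pow_mul]
    exact Nat.pow_le_pow_right (by norm_num) (by omega)
  have hcp := card_pos_maps (b := b) (N := N) hN
  have hbot : dm (bot : Cell b) = b := dm_bot
  set E : ℝ := av (fun R : Cube b → Fin N => V (bad2 R d X) bot) with hE
  have hsum : ∑ R : Cube b → Fin N, V (bad2 R d X) bot =
      E * (Fintype.card (Cube b → Fin N) : ℝ) := by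
    rw [hE]
    unfold av
    rw [div_mul_cancel₀ _ hcp.ne']
  have hE0 : 0 ≤ E := av_nonneg fun R => mgf_V_nonneg _ _
  rw [hsum, ← mul_assoc]
  refine mul_le_of_le_one_left hcp.le ?_
  have hw' : (100 : ℝ) ≤ w := by exact_mod_cast hw100
  have hwpos : (0 : ℝ) < w := by linarith
  have hd' : (0 : ℝ) ≤ d := Nat.cast_nonneg _
  have hdw' : (d : ℝ) ≤ w := by exact_mod_cast hdw
  have hw4' : (w : ℝ) ^ 4 ≤ 2 ^ d := by exact_mod_cast hw4
  have hjen : ∀ lam : ℝ, lam * E + 1 ≤ av (fun R : Cube b → Fin N =>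
      Real.exp (lam * V (bad2 R d X) bot)) ∧ Real.exp (lam * E) ≤
        av (fun R : Cube b → Fin N => Real.exp (lam * V (bad2 R d X) bot)) := by
    intro lam
    have h1 := exp_av_le hN (fun R : Cube b → Fin N => lam * V (bad2 R d X) bot)
    have h2 : av (fun R : Cube b → Fin N => lam * V (bad2 R d X) bot) = lam * E := by
      have : (fun R : Cube b → Fin N => lam * V (bad2 R d X) bot) =
          fun R => V (bad2 R d X) bot * lam := by
        funext R; ring
      rw [this, av_mul_const, hE, mul_comm]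
    rw [h2] at h1
    exact ⟨(Real.add_one_le_exp _).trans h1, h1⟩
  -- the key inequality
  have hkey : E * 2 ^ (d + w) ≤ 4 * w * (d + w + 3) := by
    rcases le_or_gt (d + w) b with hb | hb
    · obtain ⟨u, hu⟩ := Nat.exists_eq_add_of_le hb
      have h1 := mgf_D (b := b) hN hX (by omega) hw100 hdw hw4 u bot (by rw [hbot, hu])
      have h2 := (hjen (2 ^ (d + w + u) / (4 * w))).2.trans h1
      rw [Real.exp_le_exp] at h2
      have h3 : 2 ^ (d + w + u) / (4 * w) * E ≤ 2 ^ u * (d + w + 3 : ℝ) := by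
        have : (0 : ℝ) ≤ u := Nat.cast_nonneg _
        linarith
      have h4 : (2 : ℝ) ^ u * (E * 2 ^ (d + w)) ≤ 2 ^ u * (4 * w * (d + w + 3)) := by
        have h5 := mul_le_mul_of_nonneg_left h3 (show (0 : ℝ) ≤ 4 * w by positivity)
        calc (2 : ℝ) ^ u * (E * 2 ^ (d + w)) = 4 * w * (2 ^ (d + w + u) / (4 * w) * E) := by
              rw [pow_add 2 (d + w) u]
              field_simp
          _ ≤ 4 * w * (2 ^ u * (d + w + 3 : ℝ)) := h5
          _ = _ := by ring
      exact le_of_mul_le_mul_left h4 (by positivity)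
    · obtain ⟨u, hu⟩ := Nat.exists_eq_add_of_le (show d - 1 ≤ b by omega)
      have h1 := mgf_C (b := b) hN hX (by omega) hw100 hdw hw4 u (by omega) bot
        (by rw [hbot, hu])
      have h2 := (hjen (2 ^ (d - 1 + u) / (4 * w))).1.trans h1
      set K := w + 1 - u with hK
      have h3 : 2 ^ (d - 1 + u) / (4 * w) * E ≤ ((2 : ℝ) ^ K)⁻¹ := by
        have h4 : ((4 * (d + w : ℝ)) ^ K)⁻¹ ≤ ((2 : ℝ) ^ K)⁻¹ :=
          inv_anti₀ (by positivity) (pow_le_pow_left₀ (by norm_num) (by linarith) _)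
        linarith
      have h5 := mul_le_mul_of_nonneg_left h3 (show (0 : ℝ) ≤ 4 * w * 2 ^ K by positivity)
      have h6 : E * 2 ^ (d + w) ≤ 4 * w := by
        have h7 : d + w = d - 1 + u + K := by omega
        calc E * 2 ^ (d + w) = 4 * w * 2 ^ K * (2 ^ (d - 1 + u) / (4 * w) * E) := by
              rw [h7, pow_add 2 (d - 1 + u) K]
              field_simp
          _ ≤ 4 * w * 2 ^ K * ((2 : ℝ) ^ K)⁻¹ := h5
          _ = 4 * w := by
              rw [mul_assoc, mul_inv_cancel₀ (by positivity), mul_one]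
      have h8 : (4 * w : ℝ) * 1 ≤ 4 * w * (d + w + 3) :=
        mul_le_mul_of_nonneg_left (by linarith) (by positivity)
      linarith
  have h9 : (4 * w : ℝ) * (d + w + 3) ≤ 2 ^ d := by
    refine le_trans ?_ hw4'
    have : (4 * w : ℝ) * (d + w + 3) ≤ 12 * w ^ 2 := by nlinarith
    have h10 : (12 : ℝ) * w ^ 2 ≤ w ^ 4 := by
      have : (12 : ℝ) ≤ w ^ 2 := by nlinarith
      nlinarith [sq_nonneg (w : ℝ)]
    linarith
  have h11 : (2 : ℝ) ^ d * (2 ^ w * E) ≤ 2 ^ d * 1 := by
    calc (2 : ℝ) ^ d * (2 ^ w * E) = E * 2 ^ (d + w) := by rw [pow_add]; ring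
      _ ≤ 2 ^ d * 1 := by rw [mul_one]; exact hkey.trans h9
  exact le_of_mul_le_mul_left h11 (by positivity)

end Pool.Agent.L0h36.TR
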