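import Pool.Agent.L0h36.TR.Stmts

/-! Numerics of the tree-like resolution project (module M9). -/

set_option autoImplicit false

namespace Pool.Agent.L0h36.TR

open Finset Classical

/-- `2 ^ (s / 4)` is at least `s ^ 5` for `s ≥ 200` -/
theorem num_pow {s : ℕ} (hs : 200 ≤ s) : s ^ 5 ≤ 2 ^ (s / 4) := by
  induction s using Nat.strong_induction_on with
  | _ s ih =>
    rcases lt_or_ge s 204 with h | h
    · interval_cases s <;> norm_num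
    · have h1 := ih (s - 4) (by omega) (by omega)
      have h2 : 2 ^ (s / 4) = 2 * 2 ^ ((s - 4) / 4) := by
        have : s / 4 = (s - 4) / 4 + 1 := by omega
        rw [this, pow_succ]; ring
      rw [h2]
      refine le_trans ?_ (Nat.mul_le_mul_left 2 h1)
      obtain ⟨u, rfl⟩ : ∃ u, s = u + 4 := ⟨s - 4, by omega⟩
      have hu : 200 ≤ u := by omega
      simp only [Nat.add_sub_cancel]
      have e1 : 200 * u ^ 4 ≤ u ^ 5 := by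
        calc 200 * u ^ 4 ≤ u * u ^ 4 := Nat.mul_le_mul_right _ hu
          _ = u ^ 5 := by ring
      have e2 : 200 * u ^ 3 ≤ u ^ 4 := by
        calc 200 * u ^ 3 ≤ u * u ^ 3 := Nat.mul_le_mul_right _ hu
          _ = u ^ 4 := by ring
      have e3 : 200 * u ^ 2 ≤ u ^ 3 := by
        calc 200 * u ^ 2 ≤ u * u ^ 2 := Nat.mul_le_mul_right _ hu
          _ = u ^ 3 := by ring
      have e4 : 200 * u ≤ u ^ 2 := by
        calc 200 * u ≤ u * u := Nat.mul_le_mul_right _ hu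
          _ = u ^ 2 := by ring
      have e5 : (u + 4) ^ 5 = u ^ 5 + 20 * u ^ 4 + 160 * u ^ 3 + 640 * u ^ 2 + 1280 * u + 1024 := by
        ring
      rw [e5]
      omega

theorem num_kap_le {N s : ℕ} (hs : 200 ≤ s) :
    ((prm N).kap s : ℝ) ≤ (N : ℝ) / (s : ℝ) ^ 5 + 1 := by
  have h0 : (0 : ℝ) < (s : ℝ) := by positivity
  have h1 : ((N / 2 ^ (s / 4) : ℕ) : ℝ) ≤ (N : ℝ) / ((2 ^ (s / 4) : ℕ) : ℝ) := Nat.cast_div_le
  have h2 : (N : ℝ) / ((2 ^ (s / 4) : ℕ) : ℝ) ≤ (N : ℝ) / (s : ℝ) ^ 5 := by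
    apply div_le_div_of_nonneg_left (by positivity) (by positivity)
    exact_mod_cast num_pow hs
  have h3 : ((prm N).kap s : ℝ) = ((N / 2 ^ (s / 4) : ℕ) : ℝ) + 1 := by
    simp [prm]
  rw [h3]
  linarith

theorem num_z_le {N s : ℕ} (hs : 200 ≤ s) :
    ((prm N).z s : ℝ) ≤ 3 * ((N : ℝ) / (s : ℝ) ^ 5) := by
  have h0 : (0 : ℝ) < (s : ℝ) := by positivity
  have h1 : ((3 * N / 2 ^ (s / 4) : ℕ) : ℝ) ≤ ((3 * N : ℕ) : ℝ) / ((2 ^ (s / 4) : ℕ) : ℝ) :=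
    Nat.cast_div_le
  have h2 : ((3 * N : ℕ) : ℝ) / ((2 ^ (s / 4) : ℕ) : ℝ) ≤ ((3 * N : ℕ) : ℝ) / (s : ℝ) ^ 5 := by
    apply div_le_div_of_nonneg_left (by positivity) (by positivity)
    exact_mod_cast num_pow hs
  have h3 : ((prm N).z s : ℝ) = ((3 * N / 2 ^ (s / 4) : ℕ) : ℝ) := rfl
  have h4 : ((3 * N : ℕ) : ℝ) / (s : ℝ) ^ 5 = 3 * ((N : ℝ) / (s : ℝ) ^ 5) := by
    push_cast; ring
  rw [h3]
  linarith

/-- telescoping -/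
theorem num_sq {a b : ℕ} (ha : 1 ≤ a) :
    (∑ s ∈ Icc (a + 1) b, ((s : ℝ) ^ 2)⁻¹) ≤ (a : ℝ)⁻¹ := by
  have h0 : Icc (a + 1) b = Ioc a b := by
    ext x; simp only [mem_Icc, mem_Ioc]; omega
  rw [h0]
  rcases le_or_gt a b with h | h
  · have := sum_Ioc_inv_sq_le_sub (α := ℝ) (by omega : a ≠ 0) h
    have h2 : (0 : ℝ) ≤ (b : ℝ)⁻¹ := by positivity
    linarith
  · rw [Ioc_eq_empty (by omega)]
    simp only [sum_empty]
    positivity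

theorem num_kap_sum {N d b : ℕ} (hd : 200 ≤ d) :
    ((∑ s ∈ Icc (d + 1) b, (prm N).kap s : ℕ) : ℝ) ≤ (N : ℝ) / (d : ℝ) ^ 4 + b := by
  have hd0 : (0 : ℝ) < (d : ℝ) := by positivity
  push_cast
  have h1 : ∀ s ∈ Icc (d + 1) b, ((prm N).kap s : ℝ) ≤
      (N : ℝ) / (d : ℝ) ^ 3 * ((s : ℝ) ^ 2)⁻¹ + 1 := by
    intro s hs
    rw [mem_Icc] at hs
    refine (num_kap_le (by omega)).trans ?_
    have hs0 : (0 : ℝ) < (s : ℝ) := by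
      have : 0 < s := by omega
      exact_mod_cast this
    have : (N : ℝ) / (s : ℝ) ^ 5 ≤ (N : ℝ) / (d : ℝ) ^ 3 * ((s : ℝ) ^ 2)⁻¹ := by
      rw [← div_eq_mul_inv, div_div]
      apply div_le_div_of_nonneg_left (by positivity) (by positivity)
      have : (d : ℝ) ^ 3 ≤ (s : ℝ) ^ 3 := by
        apply pow_le_pow_left₀ hd0.le
        exact_mod_cast (by omega : d ≤ s)
      calc (d : ℝ) ^ 3 * (s : ℝ) ^ 2 ≤ (s : ℝ) ^ 3 * (s : ℝ) ^ 2 := by gcongr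
        _ = (s : ℝ) ^ 5 := by ring
    linarith
  refine (sum_le_sum h1).trans ?_
  rw [sum_add_distrib, ← mul_sum]
  have h2 := num_sq (a := d) (b := b) (by omega)
  have h3 : (N : ℝ) / (d : ℝ) ^ 3 * ∑ s ∈ Icc (d + 1) b, ((s : ℝ) ^ 2)⁻¹ ≤
      (N : ℝ) / (d : ℝ) ^ 3 * (d : ℝ)⁻¹ := by gcongr
  have h4 : (N : ℝ) / (d : ℝ) ^ 3 * (d : ℝ)⁻¹ = (N : ℝ) / (d : ℝ) ^ 4 := by
    rw [← div_eq_mul_inv, div_div]; ring
  have h5 : (∑ _s ∈ Icc (d + 1) b, (1 : ℝ)) ≤ b := by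
    rw [sum_const, Nat.card_Icc, nsmul_eq_mul, mul_one]
    exact_mod_cast (by omega : b + 1 - (d + 1) ≤ b)
  linarith

theorem num_Nd {N d b : ℕ} (hd : 200 ≤ d) (hdb : d ≤ b) :
    (d : ℝ) * ((prm N).Nd b d : ℝ) ≤ 3 * ((N : ℝ) * ((d : ℝ) ^ 2)⁻¹) + ((b : ℝ) ^ 2 + 4 * b) := by
  have hd0 : (0 : ℝ) < (d : ℝ) := by positivity
  have hd2 : (200 : ℝ) ≤ (d : ℝ) := by exact_mod_cast hd
  have hdb' : (d : ℝ) ≤ (b : ℝ) := by exact_mod_cast hdb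
  have h1 := num_kap_sum (N := N) (b := b) hd
  have h2 := num_kap_le (N := N) hd
  have h3 := num_z_le (N := N) hd
  have h4 : ((prm N).Nd b d : ℝ) = ((∑ s ∈ Icc (d + 1) b, (prm N).kap s : ℕ) : ℝ) +
      4 * ((prm N).kap d : ℝ) + (4 * ((d : ℝ) + 1) + 1) * ((prm N).z d : ℝ) := by
    simp [Prm.Nd]
  have hN : (0 : ℝ) ≤ (N : ℝ) := by positivity
  have h5 : (4 * ((d : ℝ) + 1) + 1) * ((prm N).z d : ℝ) ≤
      (4 * ((d : ℝ) + 1) + 1) * (3 * ((N : ℝ) / (d : ℝ) ^ 5)) := by gcongr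
  have h6 : ((prm N).Nd b d : ℝ) ≤ (N : ℝ) / (d : ℝ) ^ 4 + b +
      4 * ((N : ℝ) / (d : ℝ) ^ 5 + 1) + (4 * ((d : ℝ) + 1) + 1) * (3 * ((N : ℝ) / (d : ℝ) ^ 5)) := by
    rw [h4]; linarith
  have h7 : (d : ℝ) * ((prm N).Nd b d : ℝ) ≤ (d : ℝ) * ((N : ℝ) / (d : ℝ) ^ 4 + b +
      4 * ((N : ℝ) / (d : ℝ) ^ 5 + 1) + (4 * ((d : ℝ) + 1) + 1) * (3 * ((N : ℝ) / (d : ℝ) ^ 5))) := by
    gcongr
  have e1 : (d : ℝ) * ((N : ℝ) / (d : ℝ) ^ 4) = (N : ℝ) * ((d : ℝ) ^ 2)⁻¹ * (d : ℝ)⁻¹ := by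
    field_simp
  have e2 : (d : ℝ) * ((N : ℝ) / (d : ℝ) ^ 5) =
      (N : ℝ) * ((d : ℝ) ^ 2)⁻¹ * ((d : ℝ)⁻¹ * (d : ℝ)⁻¹) := by
    field_simp
  have hi : (d : ℝ)⁻¹ ≤ 1 / 200 := by
    rw [inv_eq_one_div]
    exact one_div_le_one_div_of_le (by norm_num) hd2
  have hi0 : (0 : ℝ) ≤ (d : ℝ)⁻¹ := by positivity
  have hid : (d : ℝ) * (d : ℝ)⁻¹ = 1 := mul_inv_cancel₀ hd0.ne'
  set I : ℝ := (d : ℝ)⁻¹ with hI
  set M : ℝ := (N : ℝ) * ((d : ℝ) ^ 2)⁻¹ with hM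
  have hM0 : 0 ≤ M := by positivity
  have e3 : (d : ℝ) * ((N : ℝ) / (d : ℝ) ^ 4 + b +
      4 * ((N : ℝ) / (d : ℝ) ^ 5 + 1) + (4 * ((d : ℝ) + 1) + 1) * (3 * ((N : ℝ) / (d : ℝ) ^ 5))) =
      M * I + d * b + 4 * (M * (I * I)) + 4 * d + (12 * (M * I) * (d * I) + 15 * (M * (I * I))) := by
    have : (d : ℝ) * ((N : ℝ) / (d : ℝ) ^ 4 + b +
      4 * ((N : ℝ) / (d : ℝ) ^ 5 + 1) + (4 * ((d : ℝ) + 1) + 1) * (3 * ((N : ℝ) / (d : ℝ) ^ 5))) =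
      (d : ℝ) * ((N : ℝ) / (d : ℝ) ^ 4) + d * b + 4 * ((d : ℝ) * ((N : ℝ) / (d : ℝ) ^ 5)) + 4 * d +
        (12 * d + 15) * ((d : ℝ) * ((N : ℝ) / (d : ℝ) ^ 5)) := by ring
    rw [this, e1, e2]
    ring
  rw [e3, hid] at h7
  have b1 : M * I ≤ M * (1 / 200) := by gcongr
  have b2 : M * (I * I) ≤ M * (1 / 200 * (1 / 200)) := by gcongr
  have b3 : (d : ℝ) * b ≤ (b : ℝ) * b := by gcongr
  nlinarith

theorem num_K {N b c : ℕ} (hc : 200 ≤ c)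
    (hN' : (1000 : ℝ) + (b : ℝ) ^ 3 + 4 * (b : ℝ) ^ 2 + 3 * b ≤ N) :
    199 * ((N : ℝ) + 1) + (∑ d ∈ Icc c b, (d : ℝ) * ((prm N).Nd b d : ℝ)) +
          ∑ s ∈ Icc c b, ((prm N).al s : ℝ) ≤ 210 * N := by
  have h2 : (∑ d ∈ Icc c b, (d : ℝ) * ((prm N).Nd b d : ℝ)) ≤
      ∑ d ∈ Icc c b, (3 * ((N : ℝ) * ((d : ℝ) ^ 2)⁻¹) + ((b : ℝ) ^ 2 + 4 * b)) := by
    apply sum_le_sum
    intro d hd
    rw [mem_Icc] at hd
    exact num_Nd (hc.trans hd.1) hd.2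
  have h3 : (∑ s ∈ Icc c b, ((prm N).al s : ℝ)) ≤
      ∑ s ∈ Icc c b, (((N : ℝ) * ((s : ℝ) ^ 2)⁻¹) + 3) := by
    apply sum_le_sum
    intro s hs
    rw [mem_Icc] at hs
    have hs1 : 200 ≤ s := hc.trans hs.1
    have h4 := num_kap_le (N := N) hs1
    have h5 := num_z_le (N := N) hs1
    have h6 : ((prm N).al s : ℝ) = 2 * ((prm N).z s : ℝ) + ((prm N).kap s : ℝ) + 2 := by
      simp [Prm.al]
    have hs0 : (0 : ℝ) < (s : ℝ) := by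
      have : 0 < s := by omega
      exact_mod_cast this
    have h7 : 7 * ((N : ℝ) / (s : ℝ) ^ 5) ≤ (N : ℝ) * ((s : ℝ) ^ 2)⁻¹ := by
      have : (7 : ℝ) ≤ (s : ℝ) ^ 3 := by
        have : 7 ≤ s ^ 3 := by
          calc 7 ≤ 200 ^ 3 := by norm_num
            _ ≤ s ^ 3 := Nat.pow_le_pow_left hs1 3
        exact_mod_cast this
      have h8 : (N : ℝ) * ((s : ℝ) ^ 2)⁻¹ = (s : ℝ) ^ 3 * ((N : ℝ) / (s : ℝ) ^ 5) := by
        field_simp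
      rw [h8]
      gcongr
    linarith
  have h9 : (∑ s ∈ Icc c b, ((s : ℝ) ^ 2)⁻¹) ≤ 1 / 199 := by
    obtain ⟨a, rfl⟩ : ∃ a, c = a + 1 := ⟨c - 1, by omega⟩
    refine (num_sq (a := a) (b := b) (by omega)).trans ?_
    rw [inv_eq_one_div]
    exact one_div_le_one_div_of_le (by norm_num) (by exact_mod_cast (by omega : 199 ≤ a))
  have hN0 : (0 : ℝ) ≤ (N : ℝ) := by positivity
  have hcard : ((Icc c b).card : ℝ) ≤ b := by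
    rw [Nat.card_Icc]
    exact_mod_cast (by omega : b + 1 - c ≤ b)
  have h10 : (∑ d ∈ Icc c b, (3 * ((N : ℝ) * ((d : ℝ) ^ 2)⁻¹) + ((b : ℝ) ^ 2 + 4 * b))) ≤
      3 * ((N : ℝ) * (1 / 199)) + b * ((b : ℝ) ^ 2 + 4 * b) := by
    rw [sum_add_distrib, ← mul_sum, ← mul_sum, sum_const, nsmul_eq_mul]
    have : (N : ℝ) * ∑ d ∈ Icc c b, ((d : ℝ) ^ 2)⁻¹ ≤ (N : ℝ) * (1 / 199) := by gcongr
    have h11 : ((Icc c b).card : ℝ) * ((b : ℝ) ^ 2 + 4 * b) ≤ b * ((b : ℝ) ^ 2 + 4 * b) := by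
      gcongr
    linarith
  have h12 : (∑ s ∈ Icc c b, (((N : ℝ) * ((s : ℝ) ^ 2)⁻¹) + 3)) ≤
      (N : ℝ) * (1 / 199) + b * 3 := by
    rw [sum_add_distrib, ← mul_sum, sum_const, nsmul_eq_mul]
    have : (N : ℝ) * ∑ d ∈ Icc c b, ((d : ℝ) ^ 2)⁻¹ ≤ (N : ℝ) * (1 / 199) := by gcongr
    linarith
  nlinarith

theorem num : S_num := by
  intro b hb
  refine ⟨1000 + b ^ 3 + 4 * b ^ 2 + 3 * b, fun N hN => ⟨?_, ?_⟩⟩
  · have h50 : 2 ^ 50 ≤ 2 ^ (b / 4) := Nat.pow_le_pow_right (by norm_num) (by omega)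
    have hN1 : 1000 ≤ N := by
      have : 0 ≤ b ^ 3 := Nat.zero_le _
      omega
    have hz : 3 * N / 2 ^ (b / 4) ≤ 3 * N / 2 ^ 50 := Nat.div_le_div_left h50 (by norm_num)
    have hk : N / 2 ^ (b / 4) ≤ N / 2 ^ 50 := Nat.div_le_div_left h50 (by norm_num)
    refine ⟨by simp [prm], by simpa [prm] using hb, ?_, ?_, ?_⟩
    · intro s
      show N / 2 ^ ((s + 1) / 4) + 1 ≤ N / 2 ^ (s / 4) + 1
      have : 2 ^ (s / 4) ≤ 2 ^ ((s + 1) / 4) := Nat.pow_le_pow_right (by norm_num) (by omega)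
      have := Nat.div_le_div_left (a := N) this (by positivity)
      omega
    · show 2 * (3 * N / 2 ^ (b / 4)) + (N / 2 ^ (b / 4) + 1) + 2 ≤ N + 1
      norm_num at hz hk
      omega
    · show 3 * N / 2 ^ (b / 4) ≤ N
      norm_num at hz
      omega
  · have hN' : (1000 : ℝ) + (b : ℝ) ^ 3 + 4 * (b : ℝ) ^ 2 + 3 * b ≤ N := by exact_mod_cast hN
    have key : ((prm N).K b N : ℝ) ≤ 210 * N := by
      refine le_trans (le_of_eq ?_) (num_K (N := N) (b := b) (c := (prm N).s0) le_rfl hN')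
      have h0 : (prm N).s0 - 1 = 199 := rfl
      unfold Prm.K
      rw [h0]
      push_cast
      rfl
    exact_mod_cast key

end Pool.Agent.L0h36.TR
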