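import Pool.Agent.L0h36.TR.Stmts
import Pool.Agent.L0h36.TR.Cells

/-! Persistence of tightness (module M3a). -/

set_option autoImplicit false

namespace Pool.Agent.L0h36.TR

open Finset Classical

section
variable {b N : ℕ} {L : Lists b N} {P : Prm} {rho : St b N}

theorem mem_Cm {Z : Finset (Fin (N + 1))} {h : Fin N} :
    h ∈ Cm L rho Z ↔ h ∉ H L rho ∧ h ∉ Gam L rho Z := by
  simp [Cm, not_or]

theorem U_app_fair {p : Fin (N + 1)} {j : Fin b} (v : Bool) (h1 : 2 ≤ dm (rho p))
    (h2 : rho p j = none) : U (app rho (Mv.fair p j v)) = U rho := by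
  ext i
  rw [mem_U, mem_U]
  by_cases hi : i = p
  · subst hi
    rw [app_fair_self]
    have := dm_setBit v h2
    omega
  · rw [app_fair_ne j v hi]

theorem U_app_com {p : Fin (N + 1)} (y : Cube b) :
    U (app rho (Mv.com p y)) = (U rho).erase p := by
  ext i
  rw [mem_erase, mem_U, mem_U]
  by_cases hi : i = p
  · subst hi
    rw [app_com_self, dm_full]
    simp
  · rw [app_com_ne y hi]
    simp [hi]

theorem H_app_mono {m : Mv b N} (hm : Legal P L rho m) : H L rho ⊆ H L (app rho m) := by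
  intro x hx
  rw [mem_H] at *
  obtain ⟨i, hi, hx⟩ := hx
  have hsame : app rho m i = rho i := by
    cases m with
    | fair p j v =>
      by_cases hip : i = p
      · subst hip
        have := dm_pos_iff.mpr ⟨j, hm.2.1⟩
        omega
      · rw [app_fair_ne j v hip]
    | com p y =>
      by_cases hip : i = p
      · subst hip
        have := hm.1
        omega
      · rw [app_com_ne y hip]
  exact ⟨i, by rw [hsame]; exact hi, by rw [hsame]; exact hx⟩

theorem mem_H_app_com {p : Fin (N + 1)} (y : Cube b) :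
    L p y ∈ H L (app rho (Mv.com p y)) := by
  rw [mem_H]
  refine ⟨p, by rw [app_com_self, dm_full], ?_⟩
  rw [app_com_self, opts_full, mem_singleton]

theorem Gam_app_subset {m : Mv b N} (hm : Legal P L rho m) {Z Z' : Finset (Fin (N + 1))}
    (hZ : Z ⊆ Z') : Gam L (app rho m) Z ⊆ Gam L rho Z' := by
  intro x hx
  rw [mem_Gam] at *
  obtain ⟨⟨i, hi, hx1⟩, hx2⟩ := hx
  exact ⟨⟨i, hZ hi, opts_mono (app_pts_subset hm i) hx1⟩, fun h => hx2 (H_app_mono hm h)⟩

/-- one step of persistence -/
theorem persist_step (hs0 : 2 ≤ P.s0) {m : Mv b N} (hm : Legal P L rho m)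
    (hinv : Inv P L (app rho m)) (Z : Finset (Fin (N + 1)))
    (ht : (Gam L rho (Z ∩ U rho)).card = (Z ∩ U rho).card)
    (hrel : Rel P (app rho m) (Z ∩ U (app rho m))) :
    (Gam L (app rho m) (Z ∩ U (app rho m))).card = (Z ∩ U (app rho m)).card ∧
      Cm L (app rho m) (Z ∩ U (app rho m)) ⊆ Cm L rho (Z ∩ U rho) := by
  have hhall := hinv.hall _ hrel
  by_cases hcase : ∃ p y, m = Mv.com p y ∧ p ∈ Z ∩ U rho
  · obtain ⟨p, y, rfl, hp⟩ := hcase
    have hU := U_app_com (rho := rho) (p := p) y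
    have hZ : Z ∩ U (app rho (Mv.com p y)) = (Z ∩ U rho).erase p := by
      rw [hU]
      ext i
      simp only [mem_inter, mem_erase]
      tauto
    have hmem : L p y ∈ Gam L rho (Z ∩ U rho) := by
      rw [mem_Gam]
      exact ⟨⟨p, hp, mem_opts.2 ⟨y, hm.2.1, rfl⟩⟩, hm.2.2.1⟩
    have hsub : Gam L (app rho (Mv.com p y)) (Z ∩ U (app rho (Mv.com p y))) ⊆
        (Gam L rho (Z ∩ U rho)).erase (L p y) := by
      intro x hx
      rw [mem_erase]
      refine ⟨?_, Gam_app_subset hm (by rw [hZ]; exact erase_subset _ _) hx⟩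
      rintro rfl
      exact (mem_Gam.1 hx).2 (mem_H_app_com y)
    have hcard : ((Gam L rho (Z ∩ U rho)).erase (L p y)).card =
        (Z ∩ U (app rho (Mv.com p y))).card := by
      rw [hZ, card_erase_of_mem hmem, card_erase_of_mem hp, ht]
    have heq := eq_of_subset_of_card_le hsub (by rw [hcard]; exact hhall)
    refine ⟨by rw [heq, hcard], ?_⟩
    intro x hx
    rw [mem_Cm] at *
    refine ⟨fun h => hx.1 (H_app_mono hm h), fun h => hx.2 ?_⟩
    rw [heq, mem_erase]
    refine ⟨?_, h⟩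
    rintro rfl
    exact hx.1 (mem_H_app_com y)
  · have hZ : Z ∩ U (app rho m) = Z ∩ U rho := by
      cases m with
      | fair p j v =>
        rw [U_app_fair v (hs0.trans hm.1) hm.2.1]
      | com p y =>
        rw [U_app_com]
        ext i
        simp only [mem_inter, mem_erase]
        constructor
        · rintro ⟨h1, h2, h3⟩; exact ⟨h1, h3⟩
        · rintro ⟨h1, h2⟩
          refine ⟨h1, ?_, h2⟩
          rintro rfl
          exact hcase ⟨i, y, rfl, mem_inter.2 ⟨h1, h2⟩⟩
    rw [hZ] at hhall ⊢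
    have hsub : Gam L (app rho m) (Z ∩ U rho) ⊆ Gam L rho (Z ∩ U rho) :=
      Gam_app_subset hm (Subset.refl _)
    have heq := eq_of_subset_of_card_le hsub (by rw [ht]; exact hhall)
    refine ⟨by rw [heq, ht], ?_⟩
    intro x hx
    rw [mem_Cm] at *
    exact ⟨fun h => hx.1 (H_app_mono hm h), fun h => hx.2 (by rw [heq]; exact h)⟩

end

/-- M3a -/
theorem persist : S_persist := by
  intro b N P L mv tau hgood hrun hinv _ t0 t1 Z h01 h1tau htight hrel
  have hZU : Z ⊆ U (st mv t0) := htight.1.1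
  have hZ0 : Z ∩ U (st mv t0) = Z := inter_eq_left.2 hZU
  have key : ∀ t, t0 ≤ t → t ≤ t1 →
      (Gam L (st mv t) (Z ∩ U (st mv t))).card = (Z ∩ U (st mv t)).card ∧
        Cm L (st mv t) (Z ∩ U (st mv t)) ⊆ Cm L (st mv t0) Z := by
    intro t h0
    induction t, h0 using Nat.le_induction with
    | base =>
      intro _
      rw [hZ0]
      exact ⟨htight.2, Subset.refl _⟩
    | succ u hu ih =>
      intro hut
      obtain ⟨ih1, ih2⟩ := ih (by omega)
      have := persist_step (P := P) hgood.s0_two (hrun u (by omega)).2 (hinv (u + 1) (by omega)) Z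
        ih1 (hrel (u + 1) (by omega) hut)
      exact ⟨this.1, this.2.trans ih2⟩
  obtain ⟨k1, k2⟩ := key t1 h01 le_rfl
  exact ⟨⟨hrel t1 h01 le_rfl, k1⟩, k2⟩

end Pool.Agent.L0h36.TR
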