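import Pool.Agent.L0h36.TR.Cells
import Pool.Agent.L0h36.TR.Stmts

/-! M5: the potential -/

set_option autoImplicit false

namespace Pool.Agent.L0h36.TR

open Finset Classical

section value
variable {b : ℕ}

theorem Vn_nonneg (bad : Cell b → Prop) (n : ℕ) (r : Cell b) : 0 ≤ Vn bad n r := by
  cases n with
  | zero => unfold Vn; split_ifs <;> norm_num
  | succ n =>
    unfold Vn
    split_ifs
    · norm_num
    · exact (Finset.le_fold_max 0).2 (Or.inl le_rfl)

theorem Vn_le_one (bad : Cell b → Prop) (n : ℕ) (r : Cell b) : Vn bad n r ≤ 1 := by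
  induction n generalizing r with
  | zero => unfold Vn; split_ifs <;> norm_num
  | succ n ih =>
    unfold Vn
    split_ifs
    · exact le_rfl
    · refine (Finset.fold_max_le 1).2 ⟨by norm_num, fun j _ => ?_⟩
      have h0 := ih (setBit r j false)
      have h1 := ih (setBit r j true)
      linarith

theorem V_nonneg (bad : Cell b → Prop) (r : Cell b) : 0 ≤ V bad r := Vn_nonneg _ _ _

theorem V_le_one (bad : Cell b → Prop) (r : Cell b) : V bad r ≤ 1 := Vn_le_one _ _ _

theorem V_bad {bad : Cell b → Prop} {r : Cell b} (h : bad r) : V bad r = 1 := by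
  unfold V
  cases dm r with
  | zero => unfold Vn; rw [if_pos h]
  | succ n => unfold Vn; rw [if_pos h]

theorem V_half (bad : Cell b → Prop) {r : Cell b} {j : Fin b} (hj : r j = none) :
    V bad (setBit r j false) + V bad (setBit r j true) ≤ 2 * V bad r := by
  by_cases hb : bad r
  · rw [V_bad hb]
    have h0 := V_le_one bad (setBit r j false)
    have h1 := V_le_one bad (setBit r j true)
    linarith
  · have h0 := dm_setBit false hj
    have h1 := dm_setBit true hj
    obtain ⟨n, hn⟩ : ∃ n, dm r = n + 1 := ⟨dm (setBit r j false), h0.symm⟩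
    have e0 : dm (setBit r j false) = n := by omega
    have e1 : dm (setBit r j true) = n := by omega
    unfold V
    rw [e0, e1, hn]
    have h2 : (Vn bad n (setBit r j false) + Vn bad n (setBit r j true)) / 2 ≤ Vn bad (n + 1) r := by
      conv_rhs => unfold Vn
      rw [if_neg hb]
      refine (Finset.le_fold_max _).2 (Or.inr ⟨j, ?_, le_rfl⟩)
      simpa using hj
    linarith

theorem Vn_mono {bad bad' : Cell b → Prop} (h : ∀ r, bad r → bad' r) (n : ℕ) (r : Cell b) :
    Vn bad n r ≤ Vn bad' n r := by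
  induction n generalizing r with
  | zero =>
    unfold Vn
    by_cases hb : bad r
    · rw [if_pos hb, if_pos (h r hb)]
    · rw [if_neg hb]
      split_ifs <;> norm_num
  | succ n ih =>
    by_cases hb' : bad' r
    · refine (Vn_le_one bad _ r).trans ?_
      unfold Vn
      rw [if_pos hb']
    · have hb : ¬ bad r := fun hb => hb' (h r hb)
      unfold Vn
      rw [if_neg hb, if_neg hb']
      refine (Finset.fold_max_le _).2 ⟨(Finset.le_fold_max _).2 (Or.inl le_rfl), fun j hj => ?_⟩
      refine (Finset.le_fold_max _).2 (Or.inr ⟨j, hj, ?_⟩)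
      have h0 := ih (setBit r j false)
      have h1 := ih (setBit r j true)
      linarith

theorem V_mono {bad bad' : Cell b → Prop} (h : ∀ r, bad r → bad' r) (r : Cell b) :
    V bad r ≤ V bad' r := Vn_mono h _ r

end value

section potential
variable {b N : ℕ}

theorem W_nonneg (L : Lists b N) (mv : ℕ → Mv b N) (tau : ℕ) (i : Fin (N + 1)) (d : ℕ)
    (X : Finset (Fin N)) : 0 ≤ W L mv tau i d X := by
  unfold W
  split_ifs
  · norm_num
  · exact le_rfl
  · exact V_nonneg _ _

theorem W_le_one (L : Lists b N) (mv : ℕ → Mv b N) (tau : ℕ) (i : Fin (N + 1)) (d : ℕ)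
    (X : Finset (Fin N)) : W L mv tau i d X ≤ 1 := by
  unfold W
  split_ifs
  · exact le_rfl
  · norm_num
  · exact V_le_one _ _

theorem bad_nonneg : S_bad_nonneg := by
  intro b N P L mv tau
  unfold Bad
  exact Finset.sum_nonneg fun d _ => Finset.sum_nonneg fun X _ => Finset.sum_nonneg fun Z _ =>
    Finset.prod_nonneg fun i _ => W_nonneg _ _ _ _ _ _

theorem bad_PR : S_bad_PR := by
  intro b N P L mv tau _ hB d hd1 hd2 X hX
  by_contra hcon
  push Not at hcon
  obtain ⟨X', hX'1, hX'2⟩ := Finset.exists_subset_card_eq hX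
  obtain ⟨Z, hZ1, hZ2⟩ := Finset.exists_subset_card_eq (Nat.succ_le_of_lt hcon)
  have hW : ∏ i ∈ Z, W L mv tau i d X' = 1 := by
    refine Finset.prod_eq_one fun i hi => ?_
    have h1 := (Finset.mem_filter.1 (hZ1 hi)).2
    obtain ⟨t, ht, hh⟩ := h1
    unfold W
    rw [if_pos ⟨t, ht, hh.mono hX'1⟩]
  have h1 : (1 : ℝ) ≤ Bad P L mv tau := by
    unfold Bad
    rw [← hW]
    have n1 : ∀ d ∈ Icc P.s0 b, ∀ X ∈ powersetCard (P.kap d) (univ : Finset (Fin N)),
        ∀ Z ∈ powersetCard (P.z d + 1) (univ : Finset (Fin (N + 1))),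
          0 ≤ ∏ i ∈ Z, W L mv tau i d X := fun d _ X _ Z _ =>
      Finset.prod_nonneg fun i _ => W_nonneg _ _ _ _ _ _
    refine le_trans ?_ (Finset.single_le_sum (fun d hd => Finset.sum_nonneg fun X hX =>
      Finset.sum_nonneg fun Z hZ => n1 d hd X hX Z hZ) (Finset.mem_Icc.2 ⟨hd1, hd2⟩))
    refine le_trans ?_ (Finset.single_le_sum (fun X hX =>
      Finset.sum_nonneg fun Z hZ => n1 d (Finset.mem_Icc.2 ⟨hd1, hd2⟩) X hX Z hZ)
      (Finset.mem_powersetCard.2 ⟨Finset.subset_univ X', hX'2⟩))
    exact Finset.single_le_sum (f := fun Z => ∏ i ∈ Z, W L mv tau i d X') (fun Z hZ =>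
      n1 d (Finset.mem_Icc.2 ⟨hd1, hd2⟩) X' (Finset.mem_powersetCard.2
        ⟨Finset.subset_univ X', hX'2⟩) Z hZ)
      (Finset.mem_powersetCard.2 ⟨Finset.subset_univ Z, hZ2⟩)
  linarith

/-- hits after one more move, for a pigeon that is not moved -/
theorem HitBy_update_ne {L : Lists b N} {mv : ℕ → Mv b N} {tau : ℕ} {m : Mv b N}
    {i : Fin (N + 1)} (h : app (st mv tau) m i = st mv tau i) (d : ℕ) (X : Finset (Fin N)) :
    HitBy L (Function.update mv tau m) (tau + 1) i d X ↔ HitBy L mv tau i d X := by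
  constructor
  · rintro ⟨t, ht, hh⟩
    rcases Nat.lt_or_ge tau t with h1 | h1
    · obtain rfl : t = tau + 1 := by omega
      rw [st_update_succ, h] at hh
      exact ⟨tau, le_rfl, hh⟩
    · rw [st_update mv tau m h1] at hh
      exact ⟨t, h1, hh⟩
  · rintro ⟨t, ht, hh⟩
    refine ⟨t, by omega, ?_⟩
    rw [st_update mv tau m ht]
    exact hh

theorem W_update_ne {L : Lists b N} {mv : ℕ → Mv b N} {tau : ℕ} {m : Mv b N}
    {i : Fin (N + 1)} (h : app (st mv tau) m i = st mv tau i) (d : ℕ) (X : Finset (Fin N)) :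
    W L (Function.update mv tau m) (tau + 1) i d X = W L mv tau i d X := by
  unfold W
  rw [st_update_succ, h, if_congr (HitBy_update_ne h d X) rfl rfl]

/-- hits after one more move -/
theorem HitBy_update {L : Lists b N} {mv : ℕ → Mv b N} {tau : ℕ} {m : Mv b N}
    {i : Fin (N + 1)} (d : ℕ) (X : Finset (Fin N)) :
    HitBy L (Function.update mv tau m) (tau + 1) i d X ↔
      HitBy L mv tau i d X ∨ Hit L i d X (app (st mv tau) m i) := by
  constructor
  · rintro ⟨t, ht, hh⟩
    rcases Nat.lt_or_ge tau t with h1 | h1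
    · obtain rfl : t = tau + 1 := by omega
      rw [st_update_succ] at hh
      exact Or.inr hh
    · rw [st_update mv tau m h1] at hh
      exact Or.inl ⟨t, h1, hh⟩
  · rintro (⟨t, ht, hh⟩ | hh)
    · refine ⟨t, by omega, ?_⟩
      rw [st_update mv tau m ht]
      exact hh
    · exact ⟨tau + 1, le_rfl, by rw [st_update_succ]; exact hh⟩

theorem W_fair {L : Lists b N} {mv : ℕ → Mv b N} {tau : ℕ} {p : Fin (N + 1)} {j : Fin b}
    (hj : st mv tau p j = none) (hd : 2 ≤ dm (st mv tau p)) (d : ℕ) (X : Finset (Fin N)) :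
    W L (Function.update mv tau (Mv.fair p j false)) (tau + 1) p d X +
      W L (Function.update mv tau (Mv.fair p j true)) (tau + 1) p d X ≤ 2 * W L mv tau p d X := by
  by_cases hh : HitBy L mv tau p d X
  · have h1 : W L mv tau p d X = 1 := by unfold W; rw [if_pos hh]
    rw [h1]
    have h2 := W_le_one L (Function.update mv tau (Mv.fair p j false)) (tau + 1) p d X
    have h3 := W_le_one L (Function.update mv tau (Mv.fair p j true)) (tau + 1) p d X
    linarith
  · have h1 : W L mv tau p d X = V (Hit L p d X) (st mv tau p) := by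
      unfold W
      rw [if_neg hh, if_neg (by omega)]
    have h2 : ∀ v, W L (Function.update mv tau (Mv.fair p j v)) (tau + 1) p d X =
        V (Hit L p d X) (setBit (st mv tau p) j v) := by
      intro v
      have hdm := dm_setBit v hj
      unfold W
      rw [st_update_succ, app_fair_self]
      by_cases hn : Hit L p d X (setBit (st mv tau p) j v)
      · rw [if_pos, V_bad hn]
        rw [HitBy_update]
        refine Or.inr ?_
        rw [app_fair_self]
        exact hn
      · rw [if_neg, if_neg (by omega)]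
        rw [HitBy_update, not_or]
        refine ⟨hh, ?_⟩
        rw [app_fair_self]
        exact hn
    rw [h1, h2, h2]
    exact V_half _ hj

theorem bad_fair : S_bad_fair := by
  intro b N P L mv tau p j _ hj hd
  unfold Bad
  rw [Finset.mul_sum, ← Finset.sum_add_distrib]
  refine Finset.sum_le_sum fun d _ => ?_
  rw [Finset.mul_sum, ← Finset.sum_add_distrib]
  refine Finset.sum_le_sum fun X _ => ?_
  rw [Finset.mul_sum, ← Finset.sum_add_distrib]
  refine Finset.sum_le_sum fun Z _ => ?_
  have hne : ∀ (v : Bool) (i : Fin (N + 1)), i ≠ p →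
      W L (Function.update mv tau (Mv.fair p j v)) (tau + 1) i d X = W L mv tau i d X :=
    fun v i hi => W_update_ne (app_fair_ne j v hi) d X
  by_cases hp : p ∈ Z
  · have hr : ∀ v : Bool, ∏ i ∈ Z.erase p,
        W L (Function.update mv tau (Mv.fair p j v)) (tau + 1) i d X =
        ∏ i ∈ Z.erase p, W L mv tau i d X := fun v =>
      Finset.prod_congr rfl fun i hi => hne v i (Finset.ne_of_mem_erase hi)
    rw [← Finset.mul_prod_erase Z _ hp, ← Finset.mul_prod_erase Z _ hp,
      ← Finset.mul_prod_erase Z _ hp, hr, hr, ← add_mul, ← mul_assoc]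
    exact mul_le_mul_of_nonneg_right (W_fair hj hd d X)
      (Finset.prod_nonneg fun i _ => W_nonneg _ _ _ _ _ _)
  · have hr : ∀ v : Bool, ∏ i ∈ Z,
        W L (Function.update mv tau (Mv.fair p j v)) (tau + 1) i d X =
        ∏ i ∈ Z, W L mv tau i d X := fun v =>
      Finset.prod_congr rfl fun i hi => hne v i (fun h => hp (h ▸ hi))
    rw [hr, hr]
    linarith

theorem bad_com : S_bad_com := by
  intro b N P L mv tau p y hs0 _
  unfold Bad
  refine Finset.sum_le_sum fun d hd => Finset.sum_le_sum fun X _ => Finset.sum_le_sum fun Z _ =>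
    Finset.prod_le_prod (fun i _ => W_nonneg _ _ _ _ _ _) fun i _ => ?_
  rw [Finset.mem_Icc] at hd
  by_cases hi : i = p
  · subst hi
    by_cases hh : HitBy L mv tau i d X
    · have h1 : W L mv tau i d X = 1 := by unfold W; rw [if_pos hh]
      rw [h1]
      exact W_le_one _ _ _ _ _ _
    · have h1 : W L (Function.update mv tau (Mv.com i y)) (tau + 1) i d X = 0 := by
        unfold W
        rw [st_update_succ, app_com_self, if_neg, if_pos (dm_full y)]
        rw [HitBy_update, not_or]
        refine ⟨hh, ?_⟩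
        rw [app_com_self]
        rintro ⟨h2, -⟩
        rw [dm_full] at h2
        omega
      rw [h1]
      exact W_nonneg _ _ _ _ _ _
  · rw [W_update_ne (app_com_ne y hi)]

end potential

end Pool.Agent.L0h36.TR
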