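import Pool.Agent.L0h36.TR.Stmts
import Pool.Agent.L0h36.TR.Cells

/-! The invariant is preserved. -/

set_option autoImplicit false

namespace Pool.Agent.L0h36.TR

open Finset Classical

section
variable {b N : ℕ} {L : Lists b N} {rho : St b N} {P : Prm}

theorem subset_T {p : Fin (N + 1)} {Z : Finset (Fin (N + 1))} (h : Tight P L rho Z) (hp : p ∉ Z) :
    Z ⊆ T P L rho p := by
  unfold T
  exact subset_biUnion_of_mem (fun Z : Finset (Fin (N + 1)) => id Z)
    (by rw [mem_filter]; exact ⟨mem_univ _, h, hp⟩)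

theorem Hcard_of_dist (hd : ∀ i i' : Fin (N + 1), dm (rho i) = 0 → dm (rho i') = 0 → i ≠ i' →
    Disjoint (opts L i (rho i)) (opts L i' (rho i'))) :
    (H L rho).card + (U rho).card = N + 1 := by
  unfold H
  rw [card_biUnion]
  · have h1 : ∑ i ∈ univ \ U rho, (opts L i (rho i)).card = ∑ i ∈ univ \ U rho, 1 := by
      refine sum_congr rfl fun i hi => ?_
      rw [mem_sdiff, mem_U] at hi
      exact opts_card_of_dm_zero i (by omega)
    rw [h1, sum_const, smul_eq_mul, mul_one, card_sdiff_add_card_eq_card (subset_univ _),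
      card_univ, Fintype.card_fin]
  · intro i hi i' hi' hne
    rw [mem_coe, mem_sdiff, mem_U] at hi hi'
    exact hd i i' (by omega) (by omega) hne

/-- the fair case, at the old level -/
theorem hall_fair (hi : Inv P L rho) {p : Fin (N + 1)} {j : Fin b} {v : Bool}
    (hs : 2 ≤ dm (rho p)) (hj : rho p j = none) (hok : OK P L rho p (setBit (rho p) j v))
    (Z : Finset (Fin (N + 1))) (hZ : Z ⊆ U (app rho (Mv.fair p j v)))
    (hc : (Z ∩ A (app rho (Mv.fair p j v)) (lev P rho)).card ≤ P.z (lev P rho)) :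
    Z.card ≤ (Gam L (app rho (Mv.fair p j v)) Z).card := by
  set rho' := app rho (Mv.fair p j v) with hr
  have hp : rho' p = setBit (rho p) j v := app_fair_self p j v
  have hne : ∀ i, i ≠ p → rho' i = rho i := fun i h => app_fair_ne j v h
  have hdp : dm (rho' p) + 1 = dm (rho p) := by rw [hp]; exact dm_setBit v hj
  have hH : H L rho' = H L rho := by
    ext x
    rw [mem_H, mem_H]
    constructor
    · rintro ⟨i, h1, h2⟩
      have h3 : i ≠ p := by rintro rfl; omega
      rw [hne i h3] at h1 h2
      exact ⟨i, h1, h2⟩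
    · rintro ⟨i, h1, h2⟩
      have h3 : i ≠ p := by rintro rfl; omega
      exact ⟨i, by rw [hne i h3]; exact h1, by rw [hne i h3]; exact h2⟩
  have hU : ∀ i, i ∈ U rho' → i ∈ U rho := by
    intro i h
    rw [mem_U] at *
    by_cases h3 : i = p
    · subst h3; omega
    · rwa [hne i h3] at h
  have hG : ∀ Y : Finset (Fin (N + 1)), p ∉ Y → Gam L rho' Y = Gam L rho Y := by
    intro Y hY
    ext x
    rw [mem_Gam, mem_Gam, hH]
    constructor
    · rintro ⟨⟨i, h1, h2⟩, h3⟩
      have h4 : i ≠ p := by rintro rfl; exact hY h1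
      rw [hne i h4] at h2
      exact ⟨⟨i, h1, h2⟩, h3⟩
    · rintro ⟨⟨i, h1, h2⟩, h3⟩
      have h4 : i ≠ p := by rintro rfl; exact hY h1
      exact ⟨⟨i, h1, by rw [hne i h4]; exact h2⟩, h3⟩
  have hrel : ∀ Y : Finset (Fin (N + 1)), Y ⊆ Z → p ∉ Y → Rel P rho Y := by
    intro Y hYZ hY
    refine ⟨fun i h => hU i (hZ (hYZ h)), (card_le_card ?_).trans hc⟩
    intro i h
    rw [mem_inter, mem_A] at *
    have h4 : i ≠ p := by rintro rfl; exact hY h.1
    exact ⟨hYZ h.1, by rw [hne i h4]; exact h.2⟩
  by_cases hpZ : p ∈ Z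
  · by_contra hcon
    push Not at hcon
    have h1 : p ∉ Z.erase p := notMem_erase p Z
    have h2 := hrel _ (erase_subset p Z) h1
    have h3 := hi.hall _ h2
    have h4 : (Z.erase p).card + 1 = Z.card := card_erase_add_one hpZ
    have h5 : Gam L rho (Z.erase p) ⊆ Gam L rho' Z := by
      rw [← hG _ h1]
      exact Gam_mono (erase_subset p Z)
    have h6 : Gam L rho (Z.erase p) = Gam L rho' Z := eq_of_subset_of_card_le h5 (by omega)
    have h7 : Tight P L rho (Z.erase p) := by
      refine ⟨h2, le_antisymm ?_ h3⟩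
      rw [h6]
      omega
    apply hok
    intro x hx
    rw [mem_sdiff] at hx
    have h8 : x ∈ Gam L rho' Z := by
      rw [mem_Gam, hH]
      exact ⟨⟨p, hpZ, by rw [hp]; exact hx.1⟩, hx.2⟩
    rw [← h6] at h8
    exact Gam_mono (subset_T h7 h1) h8
  · rw [hG Z hpZ]
    exact hi.hall _ (hrel Z (Subset.refl _) hpZ)

/-- the commit case, at the old level -/
theorem hall_com (hi : Inv P L rho) {p : Fin (N + 1)} {y : Cube b}
    (hs : 1 ≤ dm (rho p)) (hy : L p y ∉ H L rho)
    (hT : L p y ∉ Gam L rho (T P L rho p))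
    (Z : Finset (Fin (N + 1))) (hZ : Z ⊆ U (app rho (Mv.com p y)))
    (hc : (Z ∩ A (app rho (Mv.com p y)) (lev P rho)).card ≤ P.z (lev P rho)) :
    Z.card ≤ (Gam L (app rho (Mv.com p y)) Z).card := by
  set rho' := app rho (Mv.com p y) with hr
  have hp : rho' p = full y := app_com_self p y
  have hne : ∀ i, i ≠ p → rho' i = rho i := fun i h => app_com_ne y h
  have hdp : dm (rho' p) = 0 := by rw [hp]; exact dm_full y
  have hpZ : p ∉ Z := by
    intro h
    have := mem_U.1 (hZ h)
    omega
  have hH : ∀ x, x ∈ H L rho' ↔ x = L p y ∨ x ∈ H L rho := by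
    intro x
    rw [mem_H, mem_H]
    constructor
    · rintro ⟨i, h1, h2⟩
      by_cases h3 : i = p
      · subst h3
        left
        rw [hp, opts_full, mem_singleton] at h2
        exact h2
      · rw [hne i h3] at h1 h2
        exact Or.inr ⟨i, h1, h2⟩
    · rintro (rfl | ⟨i, h1, h2⟩)
      · exact ⟨p, hdp, by rw [hp, opts_full, mem_singleton]⟩
      · have h3 : i ≠ p := by rintro rfl; omega
        exact ⟨i, by rw [hne i h3]; exact h1, by rw [hne i h3]; exact h2⟩
  have hrel : Rel P rho Z := by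
    refine ⟨fun i h => ?_, (card_le_card ?_).trans hc⟩
    · have h4 : i ≠ p := by rintro rfl; exact hpZ h
      have := mem_U.1 (hZ h)
      rw [hne i h4] at this
      exact mem_U.2 this
    · intro i h
      rw [mem_inter, mem_A] at *
      have h4 : i ≠ p := by rintro rfl; exact hpZ h.1
      exact ⟨h.1, by rw [hne i h4]; exact h.2⟩
  have hG : Gam L rho' Z = (Gam L rho Z).erase (L p y) := by
    ext x
    rw [mem_erase, mem_Gam, mem_Gam, hH]
    constructor
    · rintro ⟨⟨i, h1, h2⟩, h3⟩
      have h4 : i ≠ p := by rintro rfl; exact hpZ h1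
      rw [hne i h4] at h2
      exact ⟨fun h => h3 (Or.inl h), ⟨i, h1, h2⟩, fun h => h3 (Or.inr h)⟩
    · rintro ⟨h5, ⟨i, h1, h2⟩, h3⟩
      have h4 : i ≠ p := by rintro rfl; exact hpZ h1
      exact ⟨⟨i, h1, by rw [hne i h4]; exact h2⟩, fun h => h.elim h5 h3⟩
  have h1 := hi.hall _ hrel
  rw [hG]
  by_cases h2 : L p y ∈ Gam L rho Z
  · rw [card_erase_of_mem h2]
    have h3 : (Gam L rho Z).card ≠ Z.card := by
      intro h
      exact hT (Gam_mono (subset_T ⟨hrel, h⟩ hpZ) h2)
    omega
  · rwa [erase_eq_of_notMem h2]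

end

theorem step : S_step := by
  intro b N P L rho m hg hi hpr hl hleg hpr' hl'
  obtain ⟨hs1, hs2⟩ := lev_spec hl
  obtain ⟨hs1', hs2'⟩ := lev_spec hl'
  have hs0 := hg.s0_two
  -- the distances
  have hdist : ∀ i i' : Fin (N + 1), dm (app rho m i) = 0 → dm (app rho m i') = 0 → i ≠ i' →
      Disjoint (opts L i (app rho m i)) (opts L i' (app rho m i')) := by
    cases m with
    | fair p j v =>
      intro i i' h1 h2 hne
      have hd := dm_setBit v hleg.2.1
      have hp := app_fair_self (rho := rho) p j v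
      have h3 : i ≠ p := by
        rintro rfl
        rw [hp] at h1
        have := hleg.1
        omega
      have h4 : i' ≠ p := by
        rintro rfl
        rw [hp] at h2
        have := hleg.1
        omega
      rw [app_fair_ne j v h3] at h1 ⊢
      rw [app_fair_ne j v h4] at h2 ⊢
      exact hi.dist i i' h1 h2 hne
    | com p y =>
      have key : ∀ i, i ≠ p → dm (app rho (Mv.com p y) i) = 0 →
          Disjoint (opts L p (app rho (Mv.com p y) p)) (opts L i (app rho (Mv.com p y) i)) := by
        intro i h3 h1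
        rw [app_com_self, opts_full, disjoint_singleton_left]
        rw [app_com_ne y h3] at h1 ⊢
        intro h
        exact hleg.2.2.1 (mem_H.2 ⟨i, h1, h⟩)
      intro i i' h1 h2 hne
      by_cases h3 : i = p
      · subst h3
        exact key i' (Ne.symm hne) h2
      · by_cases h4 : i' = p
        · subst h4
          exact (key i h3 h1).symm
        · rw [app_com_ne y h3] at h1 ⊢
          rw [app_com_ne y h4] at h2 ⊢
          exact hi.dist i i' h1 h2 hne
  -- the Hall condition at the old level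
  have hold : ∀ Z : Finset (Fin (N + 1)), Z ⊆ U (app rho m) →
      (Z ∩ A (app rho m) (lev P rho)).card ≤ P.z (lev P rho) →
      Z.card ≤ (Gam L (app rho m) Z).card := by
    intro Z hZ hc
    cases m with
    | fair p j v =>
      exact hall_fair hi (le_trans hs0 hleg.1) hleg.2.1 (hleg.2.2 v) Z hZ hc
    | com p y =>
      exact hall_com hi hleg.1 hleg.2.2.1 hleg.2.2.2.1 Z hZ hc
  refine ⟨hdist, fun Z hZ => ?_⟩
  have hle := app_lev_le hleg hl'
  rcases hle.eq_or_lt with he | hlt
  · exact hold Z hZ.1 (by rw [← he]; exact hZ.2)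
  by_contra hcon
  push Not at hcon
  set rho' := app rho m with hr
  set X : Finset (Fin N) := univ \ (H L rho' ∪ Gam L rho' Z) with hX
  have hHc := Hcard_of_dist (L := L) (rho := rho') hdist
  have hXc : X.card + ((H L rho').card + (Gam L rho' Z).card) = N := by
    rw [hX, ← card_union_of_disjoint (disjoint_H_Gam Z),
      card_sdiff_add_card_eq_card (subset_univ _), card_univ, Fintype.card_fin]
  have hAU : A rho' (lev P rho') ⊆ U rho' := A_subset_U (by omega)
  have h1 : (A rho' (lev P rho')).card ≤ (Z ∩ A rho' (lev P rho')).card + (U rho' \ Z).card := by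
    rw [← card_inter_add_card_sdiff (A rho' (lev P rho')) Z, inter_comm]
    exact Nat.add_le_add_left (card_le_card (sdiff_subset_sdiff hAU (Subset.refl _))) _
  have h2 : (U rho' \ Z).card + Z.card = (U rho').card := card_sdiff_add_card_eq_card hZ.1
  have h3 := hZ.2
  have h4 : P.kap (lev P rho) ≤ P.kap (lev P rho') := antitone_nat_of_succ_le hg.anti hle
  have h5 : P.kap (lev P rho) ≤ X.card := by
    unfold Prm.al at hs2'
    omega
  have h6 := hpr' (lev P rho) hs1 (lev_le P) X h5
  refine absurd (hold Z hZ.1 (le_trans (card_le_card ?_) h6)) (by omega)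
  intro i hiZ
  rw [mem_inter, mem_A] at hiZ
  rw [mem_filter]
  refine ⟨mem_univ _, Hit.of_disjoint hiZ.2 (by omega) ?_⟩
  rw [Finset.disjoint_left]
  intro x hx hxX
  rw [hX, mem_sdiff, mem_union, not_or] at hxX
  exact hxX.2.2 (mem_Gam.2 ⟨⟨i, hiZ.1, hx⟩, hxX.2.1⟩)

theorem inv_all : S_inv_all := by
  intro b N P L mv tau hg h0 hrun hpr t
  induction t with
  | zero => exact fun _ _ => h0
  | succ t ih =>
    intro ht hl
    obtain ⟨h1, h2⟩ := hrun t (by omega)
    have h3 := ih (by omega) h1
    exact step b N P L (st mv t) (mv t) hg h3 (hpr.now (by omega)) h1 h2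
      (hpr.now (t := t + 1) ht) hl

end Pool.Agent.L0h36.TR
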