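import Pool.Agent.L0h36.TR.Stmts
import Pool.Agent.L0h36.TR.Cells

/-! M8: from the adversary to the size of tree-like refutations. -/

set_option autoImplicit false

namespace Pool.Agent.L0h36.TR

open Finset Classical

section
variable {b N n : ℕ}

/-- the variable of bit `j` of pigeon `i` -/
def vr (hn : b * (N + 1) ≤ n) (i : Fin (N + 1)) (j : Fin b) : Fin n :=
  ⟨i.val * b + j.val, by
    have h1 := i.isLt
    have h2 := j.isLt
    have h3 : i.val * b + b ≤ (N + 1) * b := by
      calc i.val * b + b = (i.val + 1) * b := by ring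
        _ ≤ (N + 1) * b := Nat.mul_le_mul_right _ h1
    have h4 : (N + 1) * b = b * (N + 1) := by ring
    omega⟩

/-- value of a variable under a state (`none`: not set; variables not used count as false) -/
noncomputable def sval (rho : St b N) (x : Fin n) : Option Bool :=
  if h : x.val < b * (N + 1) then
    rho ⟨x.val / b, Nat.div_lt_of_lt_mul h⟩
      ⟨x.val % b, Nat.mod_lt _ (Nat.pos_of_ne_zero (by rintro rfl; simp at h))⟩
  else some false

theorem sval_vr (hn : b * (N + 1) ≤ n) (rho : St b N) (i : Fin (N + 1)) (j : Fin b) :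
    sval rho (vr hn i j) = rho i j := by
  have h2 := j.isLt
  have hb : 0 < b := by omega
  have h1 : (vr hn i j).val < b * (N + 1) := by
    have h1 := i.isLt
    have h3 : i.val * b + b ≤ (N + 1) * b := by
      calc i.val * b + b = (i.val + 1) * b := by ring
        _ ≤ (N + 1) * b := Nat.mul_le_mul_right _ h1
    have h4 : (N + 1) * b = b * (N + 1) := by ring
    show i.val * b + j.val < b * (N + 1)
    omega
  have e1 : (i.val * b + j.val) / b = i.val := by
    rw [Nat.add_comm, Nat.add_mul_div_right _ _ hb, Nat.div_eq_of_lt h2]; simp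
  have e2 : (i.val * b + j.val) % b = j.val := by
    rw [Nat.add_comm, Nat.add_mul_mod_self_right, Nat.mod_eq_of_lt h2]
  unfold sval
  rw [dif_pos h1]
  have hE : ∀ (p : Fin (N + 1)) (q : Fin b), p = i → q = j → rho p q = rho i j := by
    rintro p q rfl rfl; rfl
  exact hE _ _ (Fin.ext e1) (Fin.ext e2)

/-- a collision clause -/
def cl (hn : b * (N + 1) ≤ n) (i i' : Fin (N + 1)) (y y' : Cube b) :
    Finset (Fin n × Bool) :=
  (univ.image (fun j => (vr hn i j, !y j))) ∪ (univ.image (fun j => (vr hn i' j, !y' j)))

/-- the formula -/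
noncomputable def FF (hn : b * (N + 1) ≤ n) (L : Lists b N) :
    Finset (Finset (Fin n × Bool)) :=
  ((univ : Finset ((Fin (N + 1) × Fin (N + 1)) × (Cube b × Cube b))).filter
    (fun q => q.1.1 ≠ q.1.2 ∧ L q.1.1 q.2.1 = L q.1.2 q.2.2)).image
    (fun q => cl hn q.1.1 q.1.2 q.2.1 q.2.2)

theorem mem_FF {hn : b * (N + 1) ≤ n} {L : Lists b N} {C : Finset (Fin n × Bool)}
    (h : C ∈ FF hn L) : ∃ i i' y y', i ≠ i' ∧ L i y = L i' y' ∧ C = cl hn i i' y y' := by
  simp only [FF, mem_image, mem_filter, mem_univ, true_and] at h
  obtain ⟨q, ⟨h1, h2⟩, h3⟩ := h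
  exact ⟨q.1.1, q.1.2, q.2.1, q.2.2, h1, h2, h3.symm⟩

theorem FF_width (hn : b * (N + 1) ≤ n) (L : Lists b N) :
    ∀ C ∈ FF hn L, C.card ≤ 2 * b := by
  intro C hC
  obtain ⟨i, i', y, y', -, -, rfl⟩ := mem_FF hC
  refine (card_union_le _ _).trans ?_
  have h1 := card_image_le (s := (univ : Finset (Fin b))) (f := fun j => (vr hn i j, !y j))
  have h2 := card_image_le (s := (univ : Finset (Fin b))) (f := fun j => (vr hn i' j, !y' j))
  simp only [card_univ, Fintype.card_fin] at h1 h2
  omega

theorem FF_unsat (hn : b * (N + 1) ≤ n) (L : Lists b N) :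
    ∀ α : Fin n → Bool, ∃ C ∈ FF hn L, ∀ l ∈ C, α l.1 ≠ l.2 := by
  intro α
  obtain ⟨i, i', hne, he⟩ := Fintype.exists_ne_map_eq_of_card_lt
    (fun i : Fin (N + 1) => L i (fun j => α (vr hn i j))) (by simp)
  refine ⟨cl hn i i' (fun j => α (vr hn i j)) (fun j => α (vr hn i' j)), ?_, ?_⟩
  · simp only [FF, mem_image, mem_filter, mem_univ, true_and]
    exact ⟨((i, i'), (_, _)), ⟨hne, he⟩, rfl⟩
  · intro l hl
    simp only [cl, mem_union, mem_image, mem_univ, true_and] at hl
    rcases hl with ⟨j, rfl⟩ | ⟨j, rfl⟩ <;> simp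

/-- all literals of `C` are falsified by the state -/
def Fls (rho : St b N) (C : Finset (Fin n × Bool)) : Prop :=
  ∀ l ∈ C, sval rho l.1 = some (!l.2)

/-- the potential -/
noncomputable def vl (P : Prm) (L : Lists b N) (mv : ℕ → Mv b N) (tau : ℕ) : ℝ :=
  (2 : ℝ) ^ (b * (N + 1)) / (2 : ℝ) ^ (nfair mv tau + P.K b N) * (1 - Bad P L mv tau)

theorem sval_app {P : Prm} {L : Lists b N} {rho : St b N} {m : Mv b N} (h : Legal P L rho m)
    {x : Fin n} {v : Bool} (hx : sval rho x = some v) : sval (app rho m) x = some v := by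
  by_cases hlt : x.val < b * (N + 1)
  · obtain ⟨i, j, hpj⟩ : ∃ (p : Fin (N + 1)) (j : Fin b), ∀ rho : St b N,
          sval rho x = rho p j := by
      refine ⟨⟨x.val / b, Nat.div_lt_of_lt_mul hlt⟩,
        ⟨x.val % b, Nat.mod_lt _ (Nat.pos_of_ne_zero (by rintro rfl; simp at hlt))⟩, ?_⟩
      intro rho
      unfold sval
      rw [dif_pos hlt]
    rw [hpj] at *
    cases m with
    | fair p k w =>
      by_cases hp : i = p
      · subst hp
        rw [app_fair_self]
        have : j ≠ k := by
          rintro rfl
          have := h.2.1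
          rw [hx] at this
          cases this
        simpa [setBit, Function.update_of_ne this] using hx
      · rw [app_fair_ne k w hp]; exact hx
    | com p y =>
      by_cases hp : i = p
      · subst hp
        rw [app_com_self]
        have := (mem_pts.mp h.2.1) j v hx
        simp [full, this]
      · rw [app_com_ne y hp]; exact hx
  · unfold sval at *
    rw [dif_neg hlt] at *
    exact hx

theorem LRun.extend {P : Prm} {L : Lists b N} {mv : ℕ → Mv b N} {tau : ℕ} {m : Mv b N}
    (h : LRun P L mv tau) (h1 : ¬ Late P (st mv tau)) (h2 : Legal P L (st mv tau) m) :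
    LRun P L (Function.update mv tau m) (tau + 1) := by
  intro t ht
  rw [st_update mv tau m (by omega)]
  by_cases hh : t = tau
  · subst hh; rw [Function.update_self]; exact ⟨h1, h2⟩
  · rw [Function.update_of_ne hh]; exact h t (by omega)

theorem nfair_fair (mv : ℕ → Mv b N) (tau : ℕ) (p : Fin (N + 1)) (j : Fin b) (v : Bool) :
    nfair (Function.update mv tau (Mv.fair p j v)) (tau + 1) = nfair mv tau + 1 := by
  unfold nfair
  rw [range_add_one, filter_insert]
  rw [if_pos (by rw [Function.update_self]; trivial), card_insert_of_notMem (by simp)]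
  congr 1
  apply congrArg
  apply filter_congr
  intro t ht
  rw [mem_range] at ht
  rw [Function.update_of_ne (by omega)]

theorem nfair_com (mv : ℕ → Mv b N) (tau : ℕ) (p : Fin (N + 1)) (y : Cube b) :
    nfair (Function.update mv tau (Mv.com p y)) (tau + 1) = nfair mv tau := by
  unfold nfair
  rw [range_add_one, filter_insert]
  rw [if_neg (by rw [Function.update_self]; exact fun h => h)]
  apply congrArg
  apply filter_congr
  intro t ht
  rw [mem_range] at ht
  rw [Function.update_of_ne (by omega)]

end

theorem s_tree (hinv : S_inv_all) (hch : S_choice) (hcount : S_count) (hacc : S_account)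
    (hnn : S_bad_nonneg) (hPR : S_bad_PR) (hfair : S_bad_fair) (hcom : S_bad_com) : S_tree := by
  intro b N n P L hG hI0 hL0 hB0 hn
  refine ⟨FF hn L, FF_width hn L, FF_unsat hn L, ?_⟩
  intro s hs
  -- stopped runs
  have hstop : ∀ (mv : ℕ → Mv b N) (tau : ℕ), LRun P L mv tau →
      (1 ≤ Bad P L mv tau ∨ Late P (st mv tau)) → vl P L mv tau ≤ 1 := by
    intro mv tau hr hc
    have hpos : (0 : ℝ) ≤ (2 : ℝ) ^ (b * (N + 1)) / (2 : ℝ) ^ (nfair mv tau + P.K b N) := by
      positivity
    by_cases hB : 1 ≤ Bad P L mv tau
    · have : vl P L mv tau ≤ 0 := mul_nonpos_of_nonneg_of_nonpos hpos (by linarith)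
      linarith
    · have hlate : Late P (st mv tau) := hc.resolve_left hB
      push Not at hB
      have hpr := hPR b N P L mv tau hG.s0_two hB
      have hin : ∀ t, t < tau → Inv P L (st mv t) := fun t ht =>
        hinv b N P L mv tau hG hI0 hr hpr t ht.le (hr t ht).1
      have hac := hacc b N P L mv tau hG hr
        (fun d h1 h2 => hcount b N P L mv tau hG hr hin hpr d h1 h2) hlate
      have h1 : (2 : ℝ) ^ (b * (N + 1)) / (2 : ℝ) ^ (nfair mv tau + P.K b N) ≤ 1 := by
        rw [div_le_one (by positivity)]
        exact pow_le_pow_right₀ (by norm_num) hac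
      have h2 : 1 - Bad P L mv tau ≤ 1 := by
        have := hnn b N P L mv tau
        linarith
      calc vl P L mv tau ≤ (2 : ℝ) ^ (b * (N + 1)) / (2 : ℝ) ^ (nfair mv tau + P.K b N) * 1 :=
            mul_le_mul_of_nonneg_left h2 hpos
        _ ≤ 1 := by linarith
  -- the closure
  have key := hs (fun C a => 1 ≤ a ∧ ∀ (mv : ℕ → Mv b N) (tau : ℕ), LRun P L mv tau →
    Fls (st mv tau) C → vl P L mv tau ≤ a) ?_ ?_
  · obtain ⟨-, hk⟩ := key
    have h1 := hk (fun _ => Mv.com 0 (fun _ => false)) 0 (fun t ht => absurd ht (by omega))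
      (fun l hl => absurd hl (by simp))
    have h2 := hB0 (fun _ => Mv.com 0 (fun _ => false))
    have h3 : nfair (fun _ : ℕ => (Mv.com 0 (fun _ => false) : Mv b N)) 0 = 0 := by
      simp [nfair]
    unfold vl at h1
    rw [h3, zero_add] at h1
    have hp1 : (0 : ℝ) < (2 : ℝ) ^ (b * (N + 1)) := by positivity
    have hp2 : (0 : ℝ) < (2 : ℝ) ^ (P.K b N) := by positivity
    have h4 : (2 : ℝ) ^ (b * (N + 1)) / (2 : ℝ) ^ (P.K b N) * (1 / 2) ≤ s := by
      refine le_trans (mul_le_mul_of_nonneg_left (by linarith) (by positivity)) h1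
    have h5 : (2 : ℝ) ^ (b * (N + 1)) ≤ (2 : ℝ) ^ (P.K b N + 1) * s := by
      have : (2 : ℝ) ^ (b * (N + 1)) =
          ((2 : ℝ) ^ (b * (N + 1)) / (2 : ℝ) ^ (P.K b N) * (1 / 2)) * (2 : ℝ) ^ (P.K b N + 1) := by
        field_simp
        ring
      rw [this, mul_comm ((2 : ℝ) ^ (P.K b N + 1)) (s : ℝ)]
      exact mul_le_mul_of_nonneg_right h4 (by positivity)
    exact_mod_cast h5
  · intro C hC
    refine ⟨le_rfl, fun mv tau hr hf => ?_⟩
    rw [Nat.cast_one]
    by_cases hc : 1 ≤ Bad P L mv tau ∨ Late P (st mv tau)
    · exact hstop mv tau hr hc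
    · exfalso
      push Not at hc
      have hpr := hPR b N P L mv tau hG.s0_two hc.1
      have hin := hinv b N P L mv tau hG hI0 hr hpr tau le_rfl hc.2
      obtain ⟨i, i', y, y', hne, he, rfl⟩ := mem_FF hC
      have h1 : st mv tau i = full y := by
        funext j
        have := hf (vr hn i j, !y j) (by
          simp only [cl, mem_union, mem_image, mem_univ, true_and]
          exact Or.inl ⟨j, rfl⟩)
        simpa [sval_vr, full] using this
      have h2 : st mv tau i' = full y' := by
        funext j
        have := hf (vr hn i' j, !y' j) (by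
          simp only [cl, mem_union, mem_image, mem_univ, true_and]
          exact Or.inr ⟨j, rfl⟩)
        simpa [sval_vr, full] using this
      have h3 := hin.dist i i' (by rw [h1, dm_full]) (by rw [h2, dm_full]) hne
      rw [h1, h2, opts_full, opts_full, he] at h3
      simp at h3
  · rintro C D x a c ⟨ha, hC⟩ ⟨hc, hD⟩ hxC hxD
    refine ⟨by omega, fun mv tau hr hf => ?_⟩
    have ha' : (0 : ℝ) ≤ a := by positivity
    have hc' : (0 : ℝ) ≤ c := by positivity
    push_cast
    by_cases hst : 1 ≤ Bad P L mv tau ∨ Late P (st mv tau)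
    · have := hstop mv tau hr hst
      linarith
    push Not at hst
    have hpr := hPR b N P L mv tau hG.s0_two hst.1
    have hin := hinv b N P L mv tau hG hI0 hr hpr tau le_rfl hst.2
    -- falsification of the premises
    have hCf : ∀ rho : St b N, (∀ l ∈ C.erase (x, true) ∪ D.erase (x, false),
        sval rho l.1 = some (!l.2)) → sval rho x = some false → Fls rho C := by
      intro rho h1 h2 l hl
      by_cases hlx : l = (x, true)
      · subst hlx; simpa using h2
      · exact h1 l (mem_union_left _ (mem_erase.mpr ⟨hlx, hl⟩))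
    have hDf : ∀ rho : St b N, (∀ l ∈ C.erase (x, true) ∪ D.erase (x, false),
        sval rho l.1 = some (!l.2)) → sval rho x = some true → Fls rho D := by
      intro rho h1 h2 l hl
      by_cases hlx : l = (x, false)
      · subst hlx; simpa using h2
      · exact h1 l (mem_union_right _ (mem_erase.mpr ⟨hlx, hl⟩))
    cases hsv : sval (st mv tau) x with
    | some v =>
      cases v with
      | false =>
        have := hC mv tau hr (hCf _ hf hsv)
        linarith
      | true =>
        have := hD mv tau hr (hDf _ hf hsv)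
        linarith
    | none =>
      have hlt : x.val < b * (N + 1) := by
        by_contra hge
        unfold sval at hsv
        rw [dif_neg hge] at hsv
        cases hsv
      obtain ⟨p, j, hpj⟩ : ∃ (p : Fin (N + 1)) (j : Fin b), ∀ rho : St b N,
          sval rho x = rho p j := by
        refine ⟨⟨x.val / b, Nat.div_lt_of_lt_mul hlt⟩,
          ⟨x.val % b, Nat.mod_lt _ (Nat.pos_of_ne_zero (by rintro rfl; simp at hlt))⟩, ?_⟩
        intro rho
        unfold sval
        rw [dif_pos hlt]
      rw [hpj] at hsv
      have hdm : 1 ≤ dm (st mv tau p) := dm_pos_iff.mpr ⟨j, hsv⟩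
      have hmono : ∀ m : Mv b N, Legal P L (st mv tau) m →
          ∀ l ∈ C.erase (x, true) ∪ D.erase (x, false),
            sval (st (Function.update mv tau m) (tau + 1)) l.1 = some (!l.2) := by
        intro m hm l hl
        rw [st_update_succ]
        exact sval_app hm (hf l hl)
      by_cases hfr : P.s0 ≤ dm (st mv tau p) ∧
          ∀ w, OK P L (st mv tau) p (setBit (st mv tau p) j w)
      · -- fair move
        have hleg : ∀ v, Legal P L (st mv tau) (Mv.fair p j v) := fun v =>
          ⟨hfr.1, hsv, hfr.2⟩
        have hv : ∀ v, sval (st (Function.update mv tau (Mv.fair p j v)) (tau + 1)) x =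
            some v := by
          intro v
          rw [st_update_succ, hpj, app_fair_self]
          simp [setBit]
        have h0 := hC (Function.update mv tau (Mv.fair p j false)) (tau + 1)
          (hr.extend hst.2 (hleg false)) (hCf _ (hmono _ (hleg false)) (hv false))
        have h1 := hD (Function.update mv tau (Mv.fair p j true)) (tau + 1)
          (hr.extend hst.2 (hleg true)) (hDf _ (hmono _ (hleg true)) (hv true))
        have h2 := hfair b N P L mv tau p j hG.s0_two hsv
          (le_trans hG.s0_two hfr.1)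
        have h3 : vl P L mv tau ≤ vl P L (Function.update mv tau (Mv.fair p j false)) (tau + 1) +
            vl P L (Function.update mv tau (Mv.fair p j true)) (tau + 1) := by
          unfold vl
          rw [nfair_fair, nfair_fair]
          have hq : (0 : ℝ) < (2 : ℝ) ^ (b * (N + 1)) / (2 : ℝ) ^ (nfair mv tau + P.K b N) := by
            positivity
          have he : (2 : ℝ) ^ (b * (N + 1)) / (2 : ℝ) ^ (nfair mv tau + 1 + P.K b N) =
              (2 : ℝ) ^ (b * (N + 1)) / (2 : ℝ) ^ (nfair mv tau + P.K b N) / 2 := by
            rw [div_div, ← pow_succ]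
            congr 2
            ring
          rw [he]
          nlinarith [hq, h2]
        linarith
      · -- commit
        obtain ⟨y, hy1, hy2, hy3⟩ := hch b N P L (st mv tau) p hG hin (hpr.now le_rfl) hst.2 hdm
        have hleg : Legal P L (st mv tau) (Mv.com p y) := by
          refine ⟨hdm, hy1, hy2, hy3, ?_⟩
          by_cases hs0 : dm (st mv tau p) < P.s0
          · exact Or.inl hs0
          · right
            refine ⟨by omega, j, ?_⟩
            have : ¬ ∀ w, OK P L (st mv tau) p (setBit (st mv tau p) j w) :=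
              fun h => hfr ⟨by omega, h⟩
            push Not at this
            obtain ⟨w, hw⟩ := this
            exact ⟨w, hsv, hw⟩
        have hv : sval (st (Function.update mv tau (Mv.com p y)) (tau + 1)) x = some (y j) := by
          rw [st_update_succ, hpj, app_com_self]
          rfl
        have h2 := hcom b N P L mv tau p y hG.s0_two hdm
        have h3 : vl P L mv tau ≤ vl P L (Function.update mv tau (Mv.com p y)) (tau + 1) := by
          unfold vl
          rw [nfair_com]
          exact mul_le_mul_of_nonneg_left (by linarith) (by positivity)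
        cases hyj : y j with
        | false =>
          rw [hyj] at hv
          have h0 := hC _ (tau + 1) (hr.extend hst.2 hleg) (hCf _ (hmono _ hleg) hv)
          linarith
        | true =>
          rw [hyj] at hv
          have h0 := hD _ (tau + 1) (hr.extend hst.2 hleg) (hDf _ (hmono _ hleg) hv)
          linarith

end Pool.Agent.L0h36.TR
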