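import Pool.Agent.L0h36.TR.Stmts
import Pool.Agent.L0h36.TR.Cells

/-! M3c: counting the commits of type I. -/

set_option autoImplicit false

namespace Pool.Agent.L0h36.TR

open Finset Classical

theorem kap_anti {P : Prm} {b N : ℕ} (hG : P.Good b N) {s t : ℕ} (h : s ≤ t) :
    P.kap t ≤ P.kap s := antitone_nat_of_succ_le hG.anti h

section
variable {b N : ℕ} {P : Prm} {L : Lists b N}

/-- the size of the complement of a tight set -/
theorem cm_card (hHc : S_Hcard) {rho : St b N} (hI : Inv P L rho)
    {Z : Finset (Fin (N + 1))} (hZ : (Gam L rho Z).card = Z.card) :
    (Cm L rho Z).card + Z.card + 1 = (U rho).card := by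
  have h1 := hHc b N P L rho hI
  have h2 : (Cm L rho Z).card + (H L rho ∪ Gam L rho Z).card = N := by
    unfold Cm
    rw [card_sdiff_add_card_eq_card (subset_univ _), card_univ, Fintype.card_fin]
  rw [card_union_of_disjoint (disjoint_H_Gam Z), hZ] at h2
  omega

/-- members of a set of pigeons avoid the complement of the set -/
theorem cm_avoid {rho : St b N} {Z : Finset (Fin (N + 1))} {q : Fin (N + 1)} (hq : q ∈ Z) :
    Disjoint (opts L q (rho q)) (Cm L rho Z) := by
  rw [Finset.disjoint_left]
  intro x h1 h2
  simp only [Cm, mem_sdiff, mem_univ, true_and, mem_union, not_or] at h2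
  exact h2.2 (mem_Gam.mpr ⟨⟨q, hq, h1⟩, h2.1⟩)

/-- at low levels the complement of a relevant tight set is large -/
theorem cm_large (hHc : S_Hcard) (hG : P.Good b N) {rho : St b N} (hI : Inv P L rho)
    (hl : ¬ Late P rho) {Z : Finset (Fin (N + 1))} (hZ : Tight P L rho Z) :
    P.kap (lev P rho) + P.z (lev P rho) + 1 ≤ (Cm L rho Z).card := by
  obtain ⟨h1, h2⟩ := lev_spec hl
  have h3 := cm_card hHc hI hZ.2
  have h4 : (A rho (lev P rho)) ⊆ (U rho) := A_subset_U (by have := hG.s0_two; omega)
  have h5 : (A rho (lev P rho) \ Z).card + Z.card ≤ (U rho).card := by
    rw [← card_union_of_disjoint sdiff_disjoint]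
    apply card_le_card
    apply union_subset (sdiff_subset.trans h4) hZ.1.1
  have h6 : (A rho (lev P rho)).card ≤ (A rho (lev P rho) \ Z).card +
      (Z ∩ A rho (lev P rho)).card := by
    rw [← card_sdiff_add_card_inter (A rho (lev P rho)) Z, inter_comm]
  have h7 := hZ.1.2
  unfold Prm.al at h2
  omega

end

theorem sdu_card {α : Type} [DecidableEq α] (S S' : Finset α) :
    (S \ S').card + S'.card = (S ∪ S').card := by
  rw [← card_union_of_disjoint sdiff_disjoint, sdiff_union_self_eq_union]

theorem sdu_eq {α : Type} [DecidableEq α] (O V S : Finset α) :
    O ∪ (V \ S) = O ∪ ((V \ O) \ S) := by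
  ext u; simp only [mem_union, mem_sdiff]; tauto

theorem sdu_disj {α : Type} [DecidableEq α] (O V S : Finset α) :
    Disjoint O ((V \ O) \ S) := by
  rw [Finset.disjoint_left]
  intro u h1 h2
  rw [mem_sdiff, mem_sdiff] at h2
  exact h2.1.2 h1

/-- bookkeeping data for a block -/
structure Blk {b N : ℕ} (P : Prm) (L : Lists b N) (mv : ℕ → Mv b N) (tau d t cnt : ℕ)
    (acc : ℕ) (E O : Finset (Fin (N + 1))) (X : Finset (Fin N)) (e : ℕ) : Prop where
  cnt_eq : cnt = acc + E.card
  EO : E ⊆ O
  Ez : ∀ q ∈ E, dm (st mv t q) = 0
  OX : O.card ≤ X.card + 1
  av : ∀ q ∈ U (st mv t), q ∉ O → Disjoint (opts L q (st mv t q)) X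
  Xk : X.card < P.kap d
  de : d < e
  eb : e ≤ b
  acc_le : acc ≤ ∑ s ∈ Icc e b, P.kap s
  lv : ∀ t', t ≤ t' → t' < tau → lev P (st mv t') ≤ e
  rel : ((U (st mv t) \ O) ∩ A (st mv t) e).card ≤ P.z e

/-- the event -/
def Ev1 {b N : ℕ} (P : Prm) (L : Lists b N) (mv : ℕ → Mv b N) (d t : ℕ) : Prop :=
  ∃ p y, mv t = Mv.com p y ∧ dm (st mv t p) = d ∧
    (Cm L (st mv t) (T P L (st mv t) p)).card < P.kap d

theorem typeI (hHc : S_Hcard) (hT : S_T) (hEH : S_EH) : S_typeI := by
  intro b N P L mv tau hG hR hI hPR d hd hdb
  refine le_trans (card_le_card (t := (range tau).filter (fun t => Ev1 P L mv d t)) ?_) ?_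
  · intro t ht
    rw [mem_filter] at *
    exact ht
  set B := (∑ s ∈ Icc (d + 1) b, P.kap s) + 4 * P.kap d + P.z d with hB
  have hs0 := hG.s0_two
  have hmain : ∀ t, t ≤ tau →
      (((range t).filter (fun u => Ev1 P L mv d u)).card = 0) ∨
      (∃ acc E O X e, Blk P L mv tau d t ((range t).filter (fun u => Ev1 P L mv d u)).card
        acc E O X e) ∨
      (((range t).filter (fun u => Ev1 P L mv d u)).card + (A (st mv t) d).card ≤ B) := by
    intro t
    induction t with
    | zero => intro _; left; simp
    | succ t ih =>
      intro ht
      have htlt : t < tau := ht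
      have ih' := ih (by omega)
      have hinv := hI t htlt
      have hnl := (hR t htlt).1
      have hleg := (hR t htlt).2
      have hnow : PRnow P L (st mv t) := hPR.now htlt.le
      have hUsub : U (st mv (t + 1)) ⊆ U (st mv t) := st_A_subset hR (by omega) ht 1
      have hAsub : ∀ s, A (st mv (t + 1)) s ⊆ A (st mv t) s :=
        fun s => st_A_subset hR (by omega) ht s
      have hopt : ∀ q, opts L q (st mv (t + 1) q) ⊆ opts L q (st mv t q) :=
        fun q => opts_mono (st_pts_subset hR (by omega) ht q)
      by_cases hev : Ev1 P L mv d t
      · -- an event
        have hcnt : ((range (t + 1)).filter (fun u => Ev1 P L mv d u)).card =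
            ((range t).filter (fun u => Ev1 P L mv d u)).card + 1 := by
          rw [range_add_one, filter_insert, if_pos hev, card_insert_of_notMem (by simp)]
        rw [hcnt]
        obtain ⟨p, y, hm, hpd, hC⟩ := hev
        rw [hm] at hleg
        obtain ⟨hTt, hpT, -⟩ := hT b N P L (st mv t) p hG hinv hnow hnl
        set TT := T P L (st mv t) p with hTT
        set C := Cm L (st mv t) TT with hCdef
        set s := lev P (st mv t) with hs
        have hlsp := lev_spec hnl
        rw [← hs] at hlsp
        have hsb : s ≤ b := lev_le P
        have hcl := cm_large hHc hG hinv hnl hTt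
        rw [← hs, ← hCdef] at hcl
        have hsd : d < s := by
          by_contra hcon
          push Not at hcon
          have := kap_anti hG hcon
          omega
        have hpU : p ∈ U (st mv t) := by rw [mem_U]; omega
        have hp0 : dm (st mv (t + 1) p) = 0 := by
          rw [com_dm_zero hR (by omega : t < t + 1) ht hm, dm_full]
        have hcc := cm_card hHc hinv hTt.2
        rw [← hCdef] at hcc
        have hlevs : ∀ t', t + 1 ≤ t' → t' < tau → lev P (st mv t') ≤ s := fun t' h1 h2 =>
          st_lev_le hR (by omega) h2.le (hR t' h2).1
        -- avoidance of C outside S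
        have havC : ∀ q ∈ U (st mv (t + 1)), q ∉ U (st mv t) \ TT →
            Disjoint (opts L q (st mv (t + 1) q)) C := by
          intro q hq hqS
          have hqT : q ∈ TT := by
            by_contra hc
            exact hqS (mem_sdiff.mpr ⟨hUsub hq, hc⟩)
          exact (cm_avoid hqT).mono_left (hopt q)
        have hScard : (U (st mv t) \ TT).card = C.card + 1 := by
          have := card_sdiff_add_card_eq_card hTt.1.1
          omega
        -- the reset move, also used for the first event
        have hreset : ∀ cnt acc', cnt = acc' → acc' ≤ ∑ s' ∈ Icc s b, P.kap s' →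
            ∃ acc E O X e, Blk P L mv tau d (t + 1) (cnt + 1) acc E O X e := by
          intro cnt acc' hca hacc
          refine ⟨acc', {p}, U (st mv t) \ TT, C, s, ?_⟩
          refine ⟨by rw [hca, card_singleton], ?_, ?_, hScard.le, havC, hC, hsd, hsb, hacc,
            hlevs, ?_⟩
          · rw [singleton_subset_iff]; exact mem_sdiff.mpr ⟨hpU, hpT⟩
          · intro q hq; rw [mem_singleton] at hq; subst hq; exact hp0
          · refine (card_le_card ?_).trans hTt.1.2
            intro q hq
            rw [mem_inter, mem_sdiff] at hq
            rw [mem_inter]
            refine ⟨?_, hAsub s hq.2⟩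
            by_contra hc
            exact hq.1.2 (mem_sdiff.mpr ⟨hUsub hq.1.1, hc⟩)
        rcases ih' with h0 | ⟨acc, E, O, X, e, hb⟩ | hdone
        · right; left
          rw [h0]
          exact hreset 0 0 rfl (Nat.zero_le _)
        · have hse : s ≤ e := hb.lv t le_rfl htlt
          by_cases hrs : s < e ∧ X.card < P.kap s
          · -- reset
            right; left
            apply hreset _ (acc + E.card) hb.cnt_eq
            have h1 : E.card ≤ P.kap s := by
              have := card_le_card hb.EO
              have := hb.OX
              omega
            have h2 : (∑ s' ∈ Icc e b, P.kap s') + P.kap s ≤ ∑ s' ∈ Icc s b, P.kap s' := by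
              have h3 : insert s (Icc e b) ⊆ Icc s b := by
                intro u hu
                rw [mem_insert, mem_Icc] at hu
                rw [mem_Icc]
                omega
              have h4 : s ∉ Icc e b := by rw [mem_Icc]; omega
              calc (∑ s' ∈ Icc e b, P.kap s') + P.kap s = ∑ s' ∈ insert s (Icc e b), P.kap s' := by
                    rw [sum_insert h4]; ring
                _ ≤ _ := sum_le_sum_of_subset h3
            have := hb.acc_le
            omega
          · -- no reset
            set Tc := U (st mv t) \ O with hTc
            have hTcz : (Tc ∩ A (st mv t) s).card ≤ P.z s := by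
              by_cases hse' : s = e
              · rw [hse']; exact hb.rel
              · have hXs : P.kap s ≤ X.card := by
                  by_contra hc
                  exact hrs ⟨by omega, by omega⟩
                refine (card_le_card ?_).trans (hnow s hlsp.1 hsb X hXs)
                intro q hq
                rw [mem_inter, hTc, mem_sdiff, mem_A] at hq
                simp only [mem_filter, mem_univ, true_and]
                exact Hit.of_disjoint hq.2 (by omega) (hb.av q hq.1.1 hq.1.2)
            have hUn : Tc ∪ TT ⊆ U (st mv t) := union_subset sdiff_subset hTt.1.1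
            have hUz : ((Tc ∪ TT) ∩ A (st mv t) s).card ≤ 2 * P.z s + 1 := by
              rw [union_inter_distrib_right]
              have h1 := card_union_le (Tc ∩ A (st mv t) s) (TT ∩ A (st mv t) s)
              have h2 := hTt.1.2
              rw [← hs] at h2
              omega
            have hEH' := hEH b N P L (st mv t) (Tc ∪ TT) hG hinv hnow hnl hUn
              (by rw [← hs]; exact hUz)
            have hgm : (Tc \ TT).card ≤ (Gam L (st mv t) Tc \ Gam L (st mv t) TT).card := by
              have h1 : (Tc \ TT).card + TT.card = (Tc ∪ TT).card := sdu_card _ _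
              have h2 : (Gam L (st mv t) Tc \ Gam L (st mv t) TT).card +
                  (Gam L (st mv t) TT).card = (Gam L (st mv t) (Tc ∪ TT)).card := by
                rw [Gam_union]; exact sdu_card _ _
              have h3 := hTt.2
              omega
            have hsub : Gam L (st mv t) Tc \ Gam L (st mv t) TT ⊆ C \ X := by
              intro h hh
              rw [mem_sdiff] at hh
              obtain ⟨⟨q, hq, hqo⟩, hH⟩ := mem_Gam.mp hh.1
              rw [mem_sdiff]
              constructor
              · simp only [hCdef, Cm, mem_sdiff, mem_univ, true_and, mem_union, not_or]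
                exact ⟨hH, hh.2⟩
              · rw [hTc, mem_sdiff] at hq
                exact Finset.disjoint_left.mp (hb.av q hq.1 hq.2) hqo
            have hOcard : (O ∪ (U (st mv t) \ TT)).card = O.card + (Tc \ TT).card := by
              rw [sdu_eq, card_union_of_disjoint (sdu_disj _ _ _)]
            have hXcard : (X ∪ C).card = X.card + (C \ X).card := by
              rw [union_comm, ← sdu_card]; ring
            have hOX' : (O ∪ (U (st mv t) \ TT)).card ≤ (X ∪ C).card + 1 := by
              have h1 := card_le_card hsub
              have h2 := hb.OX
              omega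
            have hpE : p ∉ E := by
              intro hc
              have := hb.Ez p hc
              omega
            have hE'O' : insert p E ⊆ O ∪ (U (st mv t) \ TT) := by
              intro q hq
              rw [mem_insert] at hq
              rcases hq with rfl | hq
              · exact mem_union_right _ (mem_sdiff.mpr ⟨hpU, hpT⟩)
              · exact mem_union_left _ (hb.EO hq)
            have hav' : ∀ q ∈ U (st mv (t + 1)), q ∉ O ∪ (U (st mv t) \ TT) →
                Disjoint (opts L q (st mv (t + 1) q)) (X ∪ C) := by
              intro q hq hqO
              rw [mem_union, not_or] at hqO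
              rw [disjoint_union_right]
              exact ⟨(hb.av q (hUsub hq) hqO.1).mono_left (hopt q), havC q hq hqO.2⟩
            have hcE : (insert p E).card = E.card + 1 := card_insert_of_notMem hpE
            have hacc' : acc ≤ ∑ s' ∈ Icc s b, P.kap s' :=
              hb.acc_le.trans (sum_le_sum_of_subset (Icc_subset_Icc_left hse))
            by_cases hXk : (X ∪ C).card < P.kap d
            · right; left
              refine ⟨acc, insert p E, O ∪ (U (st mv t) \ TT), X ∪ C, s, ?_⟩
              refine ⟨by rw [hcE, hb.cnt_eq]; ring, hE'O', ?_, hOX', hav', hXk, hsd, hsb, hacc',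
                hlevs, ?_⟩
              · intro q hq
                rw [mem_insert] at hq
                rcases hq with rfl | hq
                · exact hp0
                · have := st_dm_le hR (by omega : t ≤ t + 1) ht q
                  have := hb.Ez q hq
                  omega
              · refine (card_le_card ?_).trans hTt.1.2
                intro q hq
                rw [mem_inter, mem_sdiff] at hq
                rw [mem_inter]
                refine ⟨?_, hAsub s hq.2⟩
                by_contra hc
                exact hq.1.2 (mem_union_right _ (mem_sdiff.mpr ⟨hUsub hq.1.1, hc⟩))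
            · right; right
              push Not at hXk
              have h1 : (X ∪ C).card + 2 ≤ 2 * P.kap d := by
                have := card_union_le X C
                have := hb.Xk
                omega
              have h2 : (A (st mv (t + 1)) d).card ≤
                  (O ∪ (U (st mv t) \ TT)).card + P.z d := by
                have h3 := (hPR.now ht) d hd hdb (X ∪ C) hXk
                have h4 : A (st mv (t + 1)) d ⊆ (O ∪ (U (st mv t) \ TT)) ∪
                    univ.filter (fun i => Hit L i d (X ∪ C) (st mv (t + 1) i)) := by
                  intro q hq
                  rw [mem_union]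
                  by_cases hqO : q ∈ O ∪ (U (st mv t) \ TT)
                  · exact Or.inl hqO
                  · right
                    simp only [mem_filter, mem_univ, true_and]
                    rw [mem_A] at hq
                    exact Hit.of_disjoint hq (by omega)
                      (hav' q (by rw [mem_U]; omega) hqO)
                have h5 := card_le_card h4
                have h6 := card_union_le (O ∪ (U (st mv t) \ TT))
                  (univ.filter (fun i => Hit L i d (X ∪ C) (st mv (t + 1) i)))
                omega
              have h7 := card_le_card hE'O'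
              have h8 : acc ≤ ∑ s' ∈ Icc (d + 1) b, P.kap s' :=
                hacc'.trans (sum_le_sum_of_subset (Icc_subset_Icc_left hsd))
              have h9 := hb.cnt_eq
              omega
        · right; right
          have h1 : (A (st mv (t + 1)) d).card + 1 ≤ (A (st mv t) d).card := by
            have hpA : p ∈ A (st mv t) d := by rw [mem_A]; omega
            rw [← card_erase_add_one hpA]
            apply Nat.add_le_add_right
            apply card_le_card
            intro q hq
            rw [mem_erase]
            refine ⟨?_, hAsub d hq⟩
            rintro rfl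
            rw [mem_A] at hq
            omega
          omega
      · -- no event
        have hcnt : ((range (t + 1)).filter (fun u => Ev1 P L mv d u)).card =
            ((range t).filter (fun u => Ev1 P L mv d u)).card := by
          rw [range_add_one, filter_insert, if_neg hev]
        rw [hcnt]
        rcases ih' with h0 | ⟨acc, E, O, X, e, hb⟩ | hdone
        · left; exact h0
        · right; left
          refine ⟨acc, E, O, X, e, ?_⟩
          refine ⟨hb.cnt_eq, hb.EO, ?_, hb.OX, ?_, hb.Xk, hb.de, hb.eb, hb.acc_le, ?_, ?_⟩
          · intro q hq
            have := st_dm_le hR (by omega : t ≤ t + 1) ht q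
            have := hb.Ez q hq
            omega
          · intro q hq hqO
            exact (hb.av q (hUsub hq) hqO).mono_left (hopt q)
          · intro t' h1 h2
            exact hb.lv t' (by omega) h2
          · refine (card_le_card ?_).trans hb.rel
            exact inter_subset_inter (sdiff_subset_sdiff hUsub (Subset.refl _)) (hAsub e)
        · right; right
          have := card_le_card (hAsub d)
          omega
  rcases hmain tau le_rfl with h0 | ⟨acc, E, O, X, e, hb⟩ | hdone
  · omega
  · have h1 := hb.cnt_eq
    have h2 := card_le_card hb.EO
    have h3 := hb.OX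
    have h4 := hb.Xk
    have h5 : acc ≤ ∑ s' ∈ Icc (d + 1) b, P.kap s' :=
      hb.acc_le.trans (sum_le_sum_of_subset (Icc_subset_Icc_left hb.de))
    omega
  · omega

end Pool.Agent.L0h36.TR
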