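import Pool.Agent.L0h36.TR.Persist

/-! Type II commits (module M3b). -/

set_option autoImplicit false

namespace Pool.Agent.L0h36.TR

open Finset Classical

/-- counting pairs -/
theorem card_le_four_mul (E : Finset ℕ) (z : ℕ) (R1 R2 : ℕ → ℕ → Prop)
    (h : ∀ i ∈ E, ∀ j ∈ E, i ≤ j → R1 i j ∨ R2 i j)
    (h1 : ∀ j ∈ E, (E.filter (fun i => R1 i j)).card ≤ z)
    (h2 : ∀ i ∈ E, (E.filter (fun j => R2 i j)).card ≤ z) : E.card ≤ 4 * z := by
  set S := (E ×ˢ E).filter (fun q => q.1 ≤ q.2) with hS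
  set S' := (E ×ˢ E).filter (fun q => q.2 ≤ q.1) with hS'
  have e1 : E ×ˢ E ⊆ S ∪ S' := by
    intro q hq
    rw [mem_union, hS, hS', mem_filter, mem_filter]
    rcases le_total q.1 q.2 with h | h
    · exact Or.inl ⟨hq, h⟩
    · exact Or.inr ⟨hq, h⟩
  have e2 : S'.card ≤ S.card := by
    apply card_le_card_of_injOn Prod.swap
    · intro q hq
      rw [mem_coe, hS', mem_filter, mem_product] at hq
      rw [mem_coe, hS, mem_filter, mem_product]
      exact ⟨⟨hq.1.2, hq.1.1⟩, hq.2⟩
    · exact Prod.swap_injective.injOn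
  have e3 : E.card * E.card ≤ 2 * S.card := by
    have := card_le_card e1
    rw [card_product] at this
    have := card_union_le S S'
    omega
  set A1 := (E ×ˢ E).filter (fun q => R1 q.1 q.2) with hA1
  set A2 := (E ×ˢ E).filter (fun q => R2 q.1 q.2) with hA2
  have e4 : S ⊆ A1 ∪ A2 := by
    intro q hq
    rw [hS, mem_filter, mem_product] at hq
    rw [mem_union, hA1, hA2, mem_filter, mem_filter, mem_product]
    rcases h q.1 hq.1.1 q.2 hq.1.2 hq.2 with h | h
    · exact Or.inl ⟨hq.1, h⟩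
    · exact Or.inr ⟨hq.1, h⟩
  have e5 : A1.card ≤ E.card * z := by
    rw [hA1, card_filter, sum_product_right]
    calc _ ≤ ∑ j ∈ E, z := sum_le_sum fun j hj => by
            rw [← card_filter]; exact h1 j hj
      _ = E.card * z := by rw [sum_const, smul_eq_mul]
  have e6 : A2.card ≤ E.card * z := by
    rw [hA2, card_filter, sum_product]
    calc _ ≤ ∑ j ∈ E, z := sum_le_sum fun j hj => by
            rw [← card_filter]; exact h2 j hj
      _ = E.card * z := by rw [sum_const, smul_eq_mul]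
  have e7 : S.card ≤ 2 * (E.card * z) := by
    have := card_le_card e4
    have := card_union_le A1 A2
    omega
  rcases Nat.eq_zero_or_pos E.card with h0 | h0
  · omega
  · have : E.card * E.card ≤ E.card * (4 * z) := by nlinarith
    exact Nat.le_of_mul_le_mul_left this h0

section
variable {b N : ℕ} {L : Lists b N} {P : Prm} {rho : St b N}

/-- the pigeon of a move -/
def pg : Mv b N → Fin (N + 1)
  | Mv.fair p _ _ => p
  | Mv.com p _ => p

theorem disjoint_opts_Cm {Z : Finset (Fin (N + 1))} {q : Fin (N + 1)} (hq : q ∈ Z) :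
    Disjoint (opts L q (rho q)) (Cm L rho Z) := by
  rw [Finset.disjoint_left]
  intro x hx hx2
  rw [mem_Cm] at hx2
  exact hx2.2 (mem_Gam.2 ⟨⟨q, hq, hx⟩, hx2.1⟩)

theorem hit_of_spoil {p : Fin (N + 1)} {d : ℕ} (hd : d ≤ dm (rho p)) (h : Spoil P L rho p) :
    Hit L p d (Cm L rho (T P L rho p)) (rho p) := by
  obtain ⟨_, j, v, hj, hok⟩ := h
  refine ⟨hd, j, v, hj, ?_⟩
  unfold OK at hok
  rw [not_not] at hok
  rw [Finset.disjoint_left]
  intro x hx hx2
  rw [mem_Cm] at hx2
  exact hx2.2 (hok (mem_sdiff.2 ⟨hx, hx2.1⟩))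

end

/-- the common core of both counts -/
theorem typeII_core (hpersist : S_persist) (hT : S_T) {b N : ℕ} {P : Prm} {L : Lists b N}
    {mv : ℕ → Mv b N} {tau : ℕ} (hgood : P.Good b N) (hrun : LRun P L mv tau)
    (hinv : ∀ t, t < tau → Inv P L (st mv t)) (hpr : PRcum P L mv tau) {d : ℕ}
    (hd1 : P.s0 ≤ d) (hd2 : d ≤ b) (E : Finset ℕ)
    (hE : ∀ t ∈ E, t < tau ∧ (∃ p y, mv t = Mv.com p y ∧ dm (st mv t p) = d) ∧
      P.kap d ≤ (Cm L (st mv t) (T P L (st mv t) (pg (mv t)))).card)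
    (hrel : ∀ i ∈ E, ∀ j ∈ E, i ≤ j → ∀ t, i ≤ t → t ≤ j →
      Rel P (st mv t) (T P L (st mv i) (pg (mv i)) ∩ U (st mv t))) :
    E.card ≤ 4 * P.z d := by
  have hs0 := hgood.s0_two
  set p : ℕ → Fin (N + 1) := fun t => pg (mv t) with hp
  set Tt : ℕ → Finset (Fin (N + 1)) := fun t => T P L (st mv t) (p t) with hTt
  set C : ℕ → Finset (Fin N) := fun t => Cm L (st mv t) (Tt t) with hC
  have hdm : ∀ t ∈ E, dm (st mv t (p t)) = d := by
    intro t ht
    obtain ⟨_, ⟨q, y, hm, hq⟩, _⟩ := hE t ht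
    have : p t = q := by simp only [hp, hm]; rfl
    rw [this]; exact hq
  have hCcard : ∀ t ∈ E, P.kap d ≤ (C t).card := fun t ht => (hE t ht).2.2
  -- distinct pigeons
  have hinj : ∀ i ∈ E, ∀ j ∈ E, i < j → p i ≠ p j := by
    intro i hi j hj hij heq
    obtain ⟨_, ⟨q, y, hm, hq⟩, _⟩ := hE i hi
    have h1 : p i = q := by simp only [hp, hm]; rfl
    have h2 := com_dm_zero hrun hij (hE j hj).1.le hm
    have h3 := hdm j hj
    rw [← heq, h1, h2, dm_full] at h3
    omega
  have hinjOn : ∀ S : Finset ℕ, S ⊆ E → Set.InjOn p (S : Set ℕ) := by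
    intro S hS i hi j hj heq
    by_contra hne
    rcases lt_or_gt_of_ne hne with h | h
    · exact hinj i (hS hi) j (hS hj) h heq
    · exact hinj j (hS hj) i (hS hi) h heq.symm
  -- tight sets
  have hTs : ∀ t ∈ E, Tight P L (st mv t) (Tt t) ∧ p t ∉ Tt t ∧
      ∀ Z, Tight P L (st mv t) Z → p t ∉ Z → Z ⊆ Tt t := by
    intro t ht
    have h1 := (hE t ht).1
    exact hT b N P L (st mv t) (p t) hgood (hinv t h1) (hpr.now h1.le) (hrun t h1).1
  -- the pigeon is hit at its own time
  have hitself : ∀ t ∈ E, Hit L (p t) d (C t) (st mv t (p t)) := by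
    intro t ht
    obtain ⟨h1, ⟨q, y, hm, hq⟩, _⟩ := hE t ht
    have h2 : p t = q := by simp only [hp, hm]; rfl
    have h3 := (hrun t h1).2
    rw [hm] at h3
    have h4 : Spoil P L (st mv t) q := by
      rcases h3.2.2.2.2 with h | h
      · omega
      · exact h
    have h5 := hit_of_spoil (d := d) (by rw [hq]) h4
    simp only [hC, hTt]
    rw [h2]
    exact h5
  obtain ⟨R1, hR1⟩ : ∃ R : ℕ → ℕ → Prop, ∀ i j, R i j ↔ (i ≤ j ∧ C j ⊆ C i) :=
    ⟨_, fun _ _ => Iff.rfl⟩
  obtain ⟨R2, hR2⟩ : ∃ R : ℕ → ℕ → Prop, ∀ i j, R i j ↔ (i ≤ j ∧ p j ∈ Tt i) :=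
    ⟨_, fun _ _ => Iff.rfl⟩
  apply card_le_four_mul E (P.z d) R1 R2
  · intro i hi j hj hij
    by_cases hmem : p j ∈ Tt i
    · exact Or.inr ((hR2 i j).2 ⟨hij, hmem⟩)
    · left
      refine (hR1 i j).2 ⟨hij, ?_⟩
      obtain ⟨k1, k2⟩ := hpersist b N P L mv tau hgood hrun hinv hpr i j (Tt i) hij (hE j hj).1
        (hTs i hi).1 (hrel i hi j hj hij)
      have k3 := (hTs j hj).2.2 _ k1 (fun h => hmem (mem_inter.1 h).1)
      refine Subset.trans ?_ k2
      intro x hx
      simp only [hC] at hx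
      rw [mem_Cm] at hx ⊢
      exact ⟨hx.1, fun h => hx.2 (Gam_mono k3 h)⟩
  · intro j hj
    have h1 := hpr d hd1 hd2 (C j) (hCcard j hj)
    refine le_trans ?_ h1
    apply card_le_card_of_injOn p
    · intro i hi
      rw [mem_coe, mem_filter, hR1] at hi
      rw [mem_coe, mem_filter]
      exact ⟨mem_univ _, i, (hE i hi.1).1.le, (hitself i hi.1).mono hi.2.2⟩
    · exact hinjOn _ (filter_subset _ _)
  · intro i hi
    have h1 := hpr d hd1 hd2 (C i) (hCcard i hi)
    refine le_trans ?_ h1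
    apply card_le_card_of_injOn p
    · intro j hj
      rw [mem_coe, mem_filter, hR2] at hj
      rw [mem_coe, mem_filter]
      have h2 := st_dm_le hrun hj.2.1 (hE j hj.1).1.le (p j)
      rw [hdm j hj.1] at h2
      exact ⟨mem_univ _, i, (hE i hi).1.le,
        Hit.of_disjoint h2 (by omega) (disjoint_opts_Cm hj.2.2)⟩
    · exact hinjOn _ (filter_subset _ _)

/-- M3b, first part -/
theorem typeII_hi (hpersist : S_persist) (hT : S_T) : S_typeII_hi := by
  intro b N P L mv tau hgood hrun hinv hpr d hd1 hd2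
  have hs0 := hgood.s0_two
  have hanti : ∀ s t, s ≤ t → P.kap t ≤ P.kap s := by
    intro s t hst
    induction t, hst using Nat.le_induction with
    | base => exact le_rfl
    | succ u _ ih => exact (hgood.anti u).trans ih
  have hE : ∀ t ∈ (range tau).filter (fun t => d ≤ lev P (st mv t) ∧
      ∃ p y, mv t = Mv.com p y ∧ dm (st mv t p) = d ∧
        P.kap d ≤ (Cm L (st mv t) (T P L (st mv t) p)).card),
      t < tau ∧ d ≤ lev P (st mv t) ∧ (∃ p y, mv t = Mv.com p y ∧ dm (st mv t p) = d) ∧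
      P.kap d ≤ (Cm L (st mv t) (T P L (st mv t) (pg (mv t)))).card := by
    intro t ht
    rw [mem_filter, mem_range] at ht
    obtain ⟨h1, h2, p, y, h3, h4, h5⟩ := ht
    refine ⟨h1, h2, ⟨p, y, h3, h4⟩, ?_⟩
    rw [h3]
    exact h5
  apply typeII_core hpersist hT hgood hrun hinv hpr hd1 hd2
  · intro t ht
    obtain ⟨h1, _, h3, h4⟩ := hE t ht
    exact ⟨h1, h3, h4⟩
  · intro i hi j hj hij t hit htj
    obtain ⟨i1, i2, i3, i4⟩ := hE i hi
    obtain ⟨j1, j2, j3, j4⟩ := hE j hj
    refine ⟨inter_subset_right, ?_⟩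
    have ht1 : t < tau := lt_of_le_of_lt htj j1
    have hlev : d ≤ lev P (st mv t) :=
      j2.trans (st_lev_le hrun htj j1.le (hrun j j1).1)
    have hk : P.kap (lev P (st mv t)) ≤
        (Cm L (st mv i) (T P L (st mv i) (pg (mv i)))).card := (hanti _ _ hlev).trans i4
    have h1 := hpr (lev P (st mv t)) (hd1.trans hlev) (lev_le P) _ hk
    refine (card_le_card ?_).trans h1
    intro q hq
    rw [mem_inter, mem_inter, mem_A] at hq
    rw [mem_filter]
    refine ⟨mem_univ _, t, ht1.le, Hit.of_disjoint hq.2 (by omega) ?_⟩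
    exact (disjoint_opts_Cm hq.1.1).mono_left (opts_mono (st_pts_subset hrun hit ht1.le q))

/-- M3b, second part -/
theorem typeII_lo (hpersist : S_persist) (hT : S_T) (hH : S_Hcard) : S_typeII_lo := by
  intro b N P L mv tau hgood hrun hinv hpr d hd1 hd2 s hsd
  have hs0 := hgood.s0_two
  have hanti : ∀ s t, s ≤ t → P.kap t ≤ P.kap s := by
    intro s t hst
    induction t, hst using Nat.le_induction with
    | base => exact le_rfl
    | succ u _ ih => exact (hgood.anti u).trans ih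
  have hE : ∀ t ∈ (range tau).filter (fun t => lev P (st mv t) = s ∧ ComAt mv d t),
      t < tau ∧ lev P (st mv t) = s ∧ (∃ p y, mv t = Mv.com p y ∧ dm (st mv t p) = d) ∧
      P.kap d ≤ (Cm L (st mv t) (T P L (st mv t) (pg (mv t)))).card := by
    intro t ht
    rw [mem_filter, mem_range] at ht
    obtain ⟨h1, h2, h3⟩ := ht
    refine ⟨h1, h2, h3, ?_⟩
    have hlate := (hrun t h1).1
    obtain ⟨t1, t2, t3⟩ := hT b N P L (st mv t) (pg (mv t)) hgood (hinv t h1) (hpr.now h1.le) hlate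
    set Z := T P L (st mv t) (pg (mv t)) with hZ
    have hcard := hH b N P L (st mv t) (hinv t h1)
    obtain ⟨l1, l2⟩ := lev_spec hlate
    rw [h2] at l1 l2
    have hU : A (st mv t) s ⊆ U (st mv t) := A_subset_U (by omega)
    have hZU : Z ⊆ U (st mv t) := t1.1.1
    have hZs : (Z ∩ A (st mv t) s).card ≤ P.z s := by
      have := t1.1.2
      rwa [h2] at this
    have hdisj := disjoint_H_Gam (L := L) (rho := st mv t) Z
    have hCm : (Cm L (st mv t) Z).card + ((H L (st mv t)).card + Z.card) = N := by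
      have e1 : (Cm L (st mv t) Z).card + (H L (st mv t) ∪ Gam L (st mv t) Z).card = N := by
        unfold Cm
        rw [card_sdiff_of_subset (subset_univ _)]
        have := card_le_card (subset_univ (H L (st mv t) ∪ Gam L (st mv t) Z))
        rw [card_univ, Fintype.card_fin] at *
        omega
      rw [card_union_of_disjoint hdisj, t1.2] at e1
      exact e1
    -- `|A s| - |Z ∩ A s| ≤ |U| - |Z|`
    have hcount : (A (st mv t) s).card + Z.card ≤ (U (st mv t)).card + (Z ∩ A (st mv t) s).card := by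
      have e1 := card_union_add_card_inter (A (st mv t) s) Z
      have e2 : A (st mv t) s ∪ Z ⊆ U (st mv t) := union_subset hU hZU
      have e3 := card_le_card e2
      rw [inter_comm] at e1
      omega
    have hal : P.al s = 2 * P.z s + P.kap s + 2 := rfl
    have := hanti s d hsd.le
    omega
  apply typeII_core hpersist hT hgood hrun hinv hpr hd1 hd2
  · intro t ht
    obtain ⟨h1, _, h3, h4⟩ := hE t ht
    exact ⟨h1, h3, h4⟩
  · intro i hi j hj hij t hit htj
    obtain ⟨i1, i2, i3, i4⟩ := hE i hi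
    obtain ⟨j1, j2, j3, j4⟩ := hE j hj
    refine ⟨inter_subset_right, ?_⟩
    have ht1 : t < tau := lt_of_le_of_lt htj j1
    have hlev1 : lev P (st mv j) ≤ lev P (st mv t) := st_lev_le hrun htj j1.le (hrun j j1).1
    have hlev2 : lev P (st mv t) ≤ lev P (st mv i) := st_lev_le hrun hit ht1.le (hrun t ht1).1
    have hlev : lev P (st mv t) = s := by omega
    rw [hlev]
    obtain ⟨t1, _, _⟩ := hT b N P L (st mv i) (pg (mv i)) hgood (hinv i i1) (hpr.now i1.le)
      (hrun i i1).1
    have h2 := t1.1.2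
    rw [i2] at h2
    refine (card_le_card ?_).trans h2
    intro q hq
    rw [mem_inter, mem_inter] at hq
    rw [mem_inter]
    exact ⟨hq.1.1, st_A_subset hrun hit ht1.le s hq.2⟩

end Pool.Agent.L0h36.TR
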